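import Pool.Agent.Helper54.ETRFin
import Pool.Agent.Helper47.Brouwer

section
open Finset

namespace Pool.Agent.Helper54.ETR

/-- directional derivative of a term -/
def Term.D (x v : ℕ → ℝ) : Term → ℝ
  | Term.zero => 0
  | Term.one => 0
  | Term.var i => v i
  | Term.add s t => s.D x v + t.D x v
  | Term.sub s t => s.D x v - t.D x v
  | Term.mul s t => s.eval x * t.D x v + s.D x v * t.eval x

theorem tsz_add (s t : Term) : tsz (Term.add s t) = tsz s + tsz t + 1 := by simp [tsz, Term.toks]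
theorem tsz_sub (s t : Term) : tsz (Term.sub s t) = tsz s + tsz t + 1 := by simp [tsz, Term.toks]
theorem tsz_mul (s t : Term) : tsz (Term.mul s t) = tsz s + tsz t + 1 := by simp [tsz, Term.toks]

theorem D_add (x v w : ℕ → ℝ) (t : Term) :
    t.D x (fun i => v i + w i) = t.D x v + t.D x w := by
  induction t with
  | zero => simp [Term.D]
  | one => simp [Term.D]
  | var i => simp [Term.D]
  | add s t ihs iht => simp only [Term.D, ihs, iht]; ring
  | sub s t ihs iht => simp only [Term.D, ihs, iht]; ring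
  | mul s t ihs iht => simp only [Term.D, ihs, iht]; ring

theorem D_smul (x v : ℕ → ℝ) (c : ℝ) (t : Term) :
    t.D x (fun i => c * v i) = c * t.D x v := by
  induction t with
  | zero => simp [Term.D]
  | one => simp [Term.D]
  | var i => simp [Term.D]
  | add s t ihs iht => simp only [Term.D, ihs, iht]; ring
  | sub s t ihs iht => simp only [Term.D, ihs, iht]; ring
  | mul s t ihs iht => simp only [Term.D, ihs, iht]; ring

theorem D_sum {ι : Type*} (s : Finset ι) (x : ℕ → ℝ) (c : ι → ℝ) (v : ι → ℕ → ℝ) (t : Term) :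
    t.D x (fun i => ∑ j ∈ s, c j * v j i) = ∑ j ∈ s, c j * t.D x (v j) := by
  classical
  induction s using Finset.induction_on with
  | empty =>
    simp only [Finset.sum_empty]
    have := D_smul x (fun _ => 0) 0 t
    simpa using this
  | insert a s ha ih =>
    simp only [Finset.sum_insert ha]
    rw [D_add x (fun i => c a * v a i) (fun i => ∑ j ∈ s, c j * v j i), ih, D_smul]

theorem D_congr (n : ℕ) (x v w : ℕ → ℝ) (h : ∀ i < n, v i = w i) (t : Term)
    (ht : VarsLt n t) : t.D x v = t.D x w := by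
  induction t with
  | zero => rfl
  | one => rfl
  | var i => exact h i ht
  | add s t ihs iht => simp only [Term.D, ihs ht.1, iht ht.2]
  | sub s t ihs iht => simp only [Term.D, ihs ht.1, iht ht.2]
  | mul s t ihs iht => simp only [Term.D, ihs ht.1, iht ht.2]

/-- unit vector -/
def ev1 (j : ℕ) : ℕ → ℝ := fun i => if i = j then 1 else 0

theorem D_coord (n : ℕ) (x v : ℕ → ℝ) (t : Term) (ht : VarsLt n t) :
    t.D x v = ∑ j ∈ range n, v j * t.D x (ev1 j) := by
  rw [← D_sum (range n) x v ev1 t]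
  refine D_congr n x _ _ (fun i hi => ?_) t ht
  simp only [ev1, mul_ite, mul_one, mul_zero]
  rw [Finset.sum_ite_eq]
  simp [hi]

theorem four_le {P B : ℝ} (hP : 0 ≤ P) (hB : 4 ≤ B) : 4 * P ≤ P * B * B := by
  have h1 : P * 4 ≤ P * B := mul_le_mul_of_nonneg_left hB hP
  have h2 : 0 ≤ P * B := by linarith
  have h3 : P * B * 4 ≤ P * B * B := mul_le_mul_of_nonneg_left hB h2
  linarith

section

variable (n : ℕ) (B : ℝ) (hB : 4 ≤ B)

include hB

theorem D_bound (x v : ℕ → ℝ) (η : ℝ) (hη : 0 ≤ η) (hx : ∀ i < n, |x i| ≤ B)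
    (hv : ∀ i < n, |v i| ≤ η) (t : Term) (ht : VarsLt n t) :
    |t.D x v| ≤ η * B ^ tsz t := by
  have hB0 : (0:ℝ) ≤ B := by linarith
  have hB1 : (1:ℝ) ≤ B := by linarith
  have hone : ∀ k : ℕ, (1:ℝ) ≤ B ^ k := fun k => one_le_pow₀ hB1
  have hmono : ∀ {a b : ℕ}, a ≤ b → B ^ a ≤ B ^ b := fun h => pow_le_pow_right₀ hB1 h
  induction t with
  | zero => simp only [Term.D, abs_zero]; positivity
  | one => simp only [Term.D, abs_zero]; positivity
  | var i =>
    simp only [Term.D]
    have := hone (tsz (Term.var i))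
    have := hv i ht
    nlinarith
  | add s t ihs iht =>
    have s1 := ihs ht.1
    have t1 := iht ht.2
    rw [tsz_add]
    simp only [Term.D]
    refine (abs_add_le _ _).trans ?_
    have h1 : B ^ tsz s ≤ B ^ (tsz s + tsz t) := hmono (by omega)
    have h2 : B ^ tsz t ≤ B ^ (tsz s + tsz t) := hmono (by omega)
    have h3 : B ^ tsz s + B ^ tsz t ≤ B ^ (tsz s + tsz t + 1) := by
      rw [pow_succ]
      have : (0:ℝ) ≤ B ^ (tsz s + tsz t) := by positivity
      nlinarith
    have := mul_le_mul_of_nonneg_left h3 hη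
    linarith
  | sub s t ihs iht =>
    have s1 := ihs ht.1
    have t1 := iht ht.2
    rw [tsz_sub]
    simp only [Term.D]
    refine (abs_sub _ _).trans ?_
    have h1 : B ^ tsz s ≤ B ^ (tsz s + tsz t) := hmono (by omega)
    have h2 : B ^ tsz t ≤ B ^ (tsz s + tsz t) := hmono (by omega)
    have h3 : B ^ tsz s + B ^ tsz t ≤ B ^ (tsz s + tsz t + 1) := by
      rw [pow_succ]
      have : (0:ℝ) ≤ B ^ (tsz s + tsz t) := by positivity
      nlinarith
    have := mul_le_mul_of_nonneg_left h3 hη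
    linarith
  | mul s t ihs iht =>
    have s1 := ihs ht.1
    have t1 := iht ht.2
    have s2 := (lip x x n B 0 (by linarith) le_rfl hx hx (by intro i _; simp) s ht.1).1
    have t2 := (lip x x n B 0 (by linarith) le_rfl hx hx (by intro i _; simp) t ht.2).1
    rw [tsz_mul]
    simp only [Term.D]
    refine (abs_add_le _ _).trans ?_
    rw [abs_mul, abs_mul]
    have a1 := mul_le_mul s2 t1 (abs_nonneg _) (by positivity)
    have a2 := mul_le_mul s1 t2 (abs_nonneg _) (by positivity)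
    have a3 : B ^ tsz s * (η * B ^ tsz t) = η * B ^ (tsz s + tsz t) := by rw [pow_add]; ring
    have a4 : η * B ^ tsz s * B ^ tsz t = η * B ^ (tsz s + tsz t) := by rw [pow_add]; ring
    rw [a3] at a1
    rw [a4] at a2
    have h3 : 2 * B ^ (tsz s + tsz t) ≤ B ^ (tsz s + tsz t + 1) := by
      rw [pow_succ]
      have : (0:ℝ) ≤ B ^ (tsz s + tsz t) := by positivity
      nlinarith
    have := mul_le_mul_of_nonneg_left h3 hη
    linarith

/-- Lipschitz bound for the derivative -/
theorem D_lip (x z v : ℕ → ℝ) (η ζ : ℝ) (hη : 0 ≤ η) (hζ : 0 ≤ ζ) (hx : ∀ i < n, |x i| ≤ B)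
    (hz : ∀ i < n, |z i| ≤ B) (hxz : ∀ i < n, |x i - z i| ≤ ζ)
    (hv : ∀ i < n, |v i| ≤ η) (t : Term) (ht : VarsLt n t) :
    |t.D x v - t.D z v| ≤ η * ζ * B ^ (2 * tsz t) := by
  have hB0 : (0:ℝ) ≤ B := by linarith
  have hB1 : (1:ℝ) ≤ B := by linarith
  have hone : ∀ k : ℕ, (1:ℝ) ≤ B ^ k := fun k => one_le_pow₀ hB1
  have hmono : ∀ {a b : ℕ}, a ≤ b → B ^ a ≤ B ^ b := fun h => pow_le_pow_right₀ hB1 h
  have hηζ : 0 ≤ η * ζ := mul_nonneg hη hζ
  induction t with
  | zero => simp only [Term.D, sub_self, abs_zero]; positivity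
  | one => simp only [Term.D, sub_self, abs_zero]; positivity
  | var i => simp only [Term.D, sub_self, abs_zero]; positivity
  | add s t ihs iht =>
    have s1 := ihs ht.1
    have t1 := iht ht.2
    rw [tsz_add]
    have e : (Term.add s t).D x v - (Term.add s t).D z v =
      (s.D x v - s.D z v) + (t.D x v - t.D z v) := by simp only [Term.D]; ring
    rw [e]
    refine (abs_add_le _ _).trans ?_
    have h1 : B ^ (2 * tsz s) ≤ B ^ (2 * (tsz s + tsz t)) := hmono (by omega)
    have h2 : B ^ (2 * tsz t) ≤ B ^ (2 * (tsz s + tsz t)) := hmono (by omega)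
    have h3 : B ^ (2 * tsz s) + B ^ (2 * tsz t) ≤ B ^ (2 * (tsz s + tsz t + 1)) := by
      rw [show 2 * (tsz s + tsz t + 1) = 2 * (tsz s + tsz t) + 1 + 1 by ring, pow_succ, pow_succ]
      have : (0:ℝ) ≤ B ^ (2 * (tsz s + tsz t)) := by positivity
      have := four_le this hB
      linarith
    have := mul_le_mul_of_nonneg_left h3 hηζ
    linarith
  | sub s t ihs iht =>
    have s1 := ihs ht.1
    have t1 := iht ht.2
    rw [tsz_sub]
    have e : (Term.sub s t).D x v - (Term.sub s t).D z v =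
      (s.D x v - s.D z v) - (t.D x v - t.D z v) := by simp only [Term.D]; ring
    rw [e]
    refine (abs_sub _ _).trans ?_
    have h1 : B ^ (2 * tsz s) ≤ B ^ (2 * (tsz s + tsz t)) := hmono (by omega)
    have h2 : B ^ (2 * tsz t) ≤ B ^ (2 * (tsz s + tsz t)) := hmono (by omega)
    have h3 : B ^ (2 * tsz s) + B ^ (2 * tsz t) ≤ B ^ (2 * (tsz s + tsz t + 1)) := by
      rw [show 2 * (tsz s + tsz t + 1) = 2 * (tsz s + tsz t) + 1 + 1 by ring, pow_succ, pow_succ]
      have : (0:ℝ) ≤ B ^ (2 * (tsz s + tsz t)) := by positivity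
      have := four_le this hB
      linarith
    have := mul_le_mul_of_nonneg_left h3 hηζ
    linarith
  | mul s t ihs iht =>
    have s1 := ihs ht.1
    have t1 := iht ht.2
    obtain ⟨s2, s3, s4⟩ := lip x z n B ζ (by linarith) hζ hx hz hxz s ht.1
    obtain ⟨t2, t3, t4⟩ := lip x z n B ζ (by linarith) hζ hx hz hxz t ht.2
    have s5 := D_bound n B hB x v η hη hx hv s ht.1
    have t5 := D_bound n B hB z v η hη hz hv t ht.2
    rw [tsz_mul]
    have e : (Term.mul s t).D x v - (Term.mul s t).D z v =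
      s.eval x * (t.D x v - t.D z v) + (s.eval x - s.eval z) * t.D z v +
      (s.D x v - s.D z v) * t.eval z + s.D x v * (t.eval x - t.eval z) := by
        simp only [Term.D]; ring
    rw [e]
    set a := tsz s
    set b := tsz t
    have k1 : |s.eval x * (t.D x v - t.D z v)| ≤ B ^ a * (η * ζ * B ^ (2 * b)) := by
      rw [abs_mul]; exact mul_le_mul s2 t1 (abs_nonneg _) (by positivity)
    have k2 : |(s.eval x - s.eval z) * t.D z v| ≤ ζ * B ^ a * (η * B ^ b) := by
      rw [abs_mul]; exact mul_le_mul s4 t5 (abs_nonneg _) (by positivity)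
    have k3 : |(s.D x v - s.D z v) * t.eval z| ≤ η * ζ * B ^ (2 * a) * B ^ b := by
      rw [abs_mul]; exact mul_le_mul s1 t3 (abs_nonneg _) (by positivity)
    have k4 : |s.D x v * (t.eval x - t.eval z)| ≤ η * B ^ a * (ζ * B ^ b) := by
      rw [abs_mul]; exact mul_le_mul s5 t4 (abs_nonneg _) (by positivity)
    set P := B ^ (2 * (a + b)) with hP
    have hP0 : 0 ≤ P := by positivity
    have m1 : B ^ a * B ^ (2 * b) ≤ P := by rw [← pow_add]; exact hmono (by omega)
    have m2 : B ^ a * B ^ b ≤ P := by rw [← pow_add]; exact hmono (by omega)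
    have m3 : B ^ (2 * a) * B ^ b ≤ P := by rw [← pow_add]; exact hmono (by omega)
    have n1 := mul_le_mul_of_nonneg_left m1 hηζ
    have n2 := mul_le_mul_of_nonneg_left m2 hηζ
    have n3 := mul_le_mul_of_nonneg_left m3 hηζ
    have hf : 4 * P ≤ B ^ (2 * (a + b + 1)) := by
      rw [show 2 * (a + b + 1) = 2 * (a + b) + 1 + 1 by ring, pow_succ, pow_succ]
      exact four_le hP0 hB
    have n4 := mul_le_mul_of_nonneg_left hf hηζ
    have tri : |s.eval x * (t.D x v - t.D z v) + (s.eval x - s.eval z) * t.D z v +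
      (s.D x v - s.D z v) * t.eval z + s.D x v * (t.eval x - t.eval z)| ≤
      |s.eval x * (t.D x v - t.D z v)| + |(s.eval x - s.eval z) * t.D z v| +
      |(s.D x v - s.D z v) * t.eval z| + |s.D x v * (t.eval x - t.eval z)| := by
      refine (abs_add_le _ _).trans ?_
      gcongr
      refine (abs_add_le _ _).trans ?_
      gcongr
      exact abs_add_le _ _
    refine tri.trans ?_
    linarith

/-- Taylor estimate -/
theorem taylor (x v : ℕ → ℝ) (η : ℝ) (hη : 0 ≤ η) (hx : ∀ i < n, |x i| ≤ B)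
    (hz : ∀ i < n, |x i + v i| ≤ B) (hv : ∀ i < n, |v i| ≤ η) (t : Term) (ht : VarsLt n t) :
    |t.eval (fun i => x i + v i) - t.eval x - t.D x v| ≤ η ^ 2 * B ^ (2 * tsz t) := by
  have hB0 : (0:ℝ) ≤ B := by linarith
  have hB1 : (1:ℝ) ≤ B := by linarith
  have hmono : ∀ {a b : ℕ}, a ≤ b → B ^ a ≤ B ^ b := fun h => pow_le_pow_right₀ hB1 h
  have hη2 : 0 ≤ η ^ 2 := by positivity
  have hdiff : ∀ i < n, |(x i + v i) - x i| ≤ η := by
    intro i hi
    have : (x i + v i) - x i = v i := by ring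
    rw [this]; exact hv i hi
  induction t with
  | zero => simp only [Term.D, Term.eval, sub_self, abs_zero]; positivity
  | one => simp only [Term.D, Term.eval, sub_self, abs_zero]; positivity
  | var i =>
    simp only [Term.D, Term.eval]
    have : x i + v i - x i - v i = 0 := by ring
    rw [this, abs_zero]; positivity
  | add s t ihs iht =>
    have s1 := ihs ht.1
    have t1 := iht ht.2
    rw [tsz_add]
    have e : (Term.add s t).eval (fun i => x i + v i) - (Term.add s t).eval x -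
      (Term.add s t).D x v = (s.eval (fun i => x i + v i) - s.eval x - s.D x v) +
      (t.eval (fun i => x i + v i) - t.eval x - t.D x v) := by
        simp only [Term.D, Term.eval]; ring
    rw [e]
    refine (abs_add_le _ _).trans ?_
    have h1 : B ^ (2 * tsz s) ≤ B ^ (2 * (tsz s + tsz t)) := hmono (by omega)
    have h2 : B ^ (2 * tsz t) ≤ B ^ (2 * (tsz s + tsz t)) := hmono (by omega)
    have h3 : B ^ (2 * tsz s) + B ^ (2 * tsz t) ≤ B ^ (2 * (tsz s + tsz t + 1)) := by
      rw [show 2 * (tsz s + tsz t + 1) = 2 * (tsz s + tsz t) + 1 + 1 by ring, pow_succ, pow_succ]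
      have : (0:ℝ) ≤ B ^ (2 * (tsz s + tsz t)) := by positivity
      have := four_le this hB
      linarith
    have := mul_le_mul_of_nonneg_left h3 hη2
    linarith
  | sub s t ihs iht =>
    have s1 := ihs ht.1
    have t1 := iht ht.2
    rw [tsz_sub]
    have e : (Term.sub s t).eval (fun i => x i + v i) - (Term.sub s t).eval x -
      (Term.sub s t).D x v = (s.eval (fun i => x i + v i) - s.eval x - s.D x v) -
      (t.eval (fun i => x i + v i) - t.eval x - t.D x v) := by
        simp only [Term.D, Term.eval]; ring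
    rw [e]
    refine (abs_sub _ _).trans ?_
    have h1 : B ^ (2 * tsz s) ≤ B ^ (2 * (tsz s + tsz t)) := hmono (by omega)
    have h2 : B ^ (2 * tsz t) ≤ B ^ (2 * (tsz s + tsz t)) := hmono (by omega)
    have h3 : B ^ (2 * tsz s) + B ^ (2 * tsz t) ≤ B ^ (2 * (tsz s + tsz t + 1)) := by
      rw [show 2 * (tsz s + tsz t + 1) = 2 * (tsz s + tsz t) + 1 + 1 by ring, pow_succ, pow_succ]
      have : (0:ℝ) ≤ B ^ (2 * (tsz s + tsz t)) := by positivity
      have := four_le this hB
      linarith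
    have := mul_le_mul_of_nonneg_left h3 hη2
    linarith
  | mul s t ihs iht =>
    have s1 := ihs ht.1
    have t1 := iht ht.2
    obtain ⟨s2, s3, s4⟩ := lip (fun i => x i + v i) x n B η (by linarith) hη hz hx hdiff s ht.1
    obtain ⟨t2, t3, t4⟩ := lip (fun i => x i + v i) x n B η (by linarith) hη hz hx hdiff t ht.2
    rw [tsz_mul]
    set S := s.eval (fun i => x i + v i)
    set T := t.eval (fun i => x i + v i)
    have e : (Term.mul s t).eval (fun i => x i + v i) - (Term.mul s t).eval x -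
      (Term.mul s t).D x v = s.eval x * (T - t.eval x - t.D x v) +
      (S - s.eval x - s.D x v) * t.eval x + (S - s.eval x) * (T - t.eval x) := by
        simp only [Term.D, Term.eval, S, T]; ring
    rw [e]
    set a := tsz s
    set b := tsz t
    have k1 : |s.eval x * (T - t.eval x - t.D x v)| ≤ B ^ a * (η ^ 2 * B ^ (2 * b)) := by
      rw [abs_mul]; exact mul_le_mul s3 t1 (abs_nonneg _) (by positivity)
    have k3 : |(S - s.eval x - s.D x v) * t.eval x| ≤ η ^ 2 * B ^ (2 * a) * B ^ b := by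
      rw [abs_mul]; exact mul_le_mul s1 t3 (abs_nonneg _) (by positivity)
    have k4 : |(S - s.eval x) * (T - t.eval x)| ≤ η * B ^ a * (η * B ^ b) := by
      rw [abs_mul]; exact mul_le_mul s4 t4 (abs_nonneg _) (by positivity)
    set P := B ^ (2 * (a + b)) with hP
    have hP0 : 0 ≤ P := by positivity
    have m1 : B ^ a * B ^ (2 * b) ≤ P := by rw [← pow_add]; exact hmono (by omega)
    have m2 : B ^ a * B ^ b ≤ P := by rw [← pow_add]; exact hmono (by omega)
    have m3 : B ^ (2 * a) * B ^ b ≤ P := by rw [← pow_add]; exact hmono (by omega)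
    have n1 := mul_le_mul_of_nonneg_left m1 hη2
    have n2 := mul_le_mul_of_nonneg_left m2 hη2
    have n3 := mul_le_mul_of_nonneg_left m3 hη2
    have hf : 4 * P ≤ B ^ (2 * (a + b + 1)) := by
      rw [show 2 * (a + b + 1) = 2 * (a + b) + 1 + 1 by ring, pow_succ, pow_succ]
      exact four_le hP0 hB
    have n4 := mul_le_mul_of_nonneg_left hf hη2
    have tri : |s.eval x * (T - t.eval x - t.D x v) +
      (S - s.eval x - s.D x v) * t.eval x + (S - s.eval x) * (T - t.eval x)| ≤
      |s.eval x * (T - t.eval x - t.D x v)| + |(S - s.eval x - s.D x v) * t.eval x| +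
      |(S - s.eval x) * (T - t.eval x)| := by
      refine (abs_add_le _ _).trans ?_
      gcongr
      exact abs_add_le _ _
    refine tri.trans ?_
    have q1 : η * B ^ a * (η * B ^ b) = η ^ 2 * (B ^ a * B ^ b) := by ring
    have q2 : 0 ≤ η ^ 2 * P := by positivity
    linarith

end

end Pool.Agent.Helper54.ETR
end

section
open Finset

namespace Pool.Agent.Helper54.ETR

section pt

variable {ι : Type} [Fintype ι] (x0 : ℕ → ℝ) (y : ι → ℕ → ℝ)

/-- affine parametrisation through given points -/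
def pX (u : ι → ℝ) : ℕ → ℝ := fun i => x0 i + ∑ j, u j * (y j i - x0 i)

variable {x0 y}

theorem pX_dist (n : ℕ) (η : ℝ) (hd : ∀ j, ∀ i < n, |y j i - x0 i| ≤ η) (u : ι → ℝ)
    (hu : ∀ j, |u j| ≤ 1) (i : ℕ) (hi : i < n) :
    |pX x0 y u i - x0 i| ≤ Fintype.card ι * η := by
  have h1 : pX x0 y u i - x0 i = ∑ j, u j * (y j i - x0 i) := by unfold pX; ring
  rw [h1]
  refine (Finset.abs_sum_le_sum_abs _ _).trans ?_
  have h2 : ∑ j : ι, |u j * (y j i - x0 i)| ≤ ∑ _j : ι, η := by
    refine Finset.sum_le_sum fun j _ => ?_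
    rw [abs_mul]
    have h3 := hu j
    have h4 := hd j i hi
    have h5 : (0:ℝ) ≤ |y j i - x0 i| := abs_nonneg _
    have h6 : (0:ℝ) ≤ |u j| := abs_nonneg _
    nlinarith
  refine h2.trans (le_of_eq ?_)
  rw [Finset.sum_const, Finset.card_univ, nsmul_eq_mul]

theorem ptaylor (n : ℕ) (B : ℝ) (hB : 4 ≤ B) (η : ℝ) (hη : 0 ≤ η)
    (hx0 : ∀ i < n, |x0 i| ≤ B) (hy : ∀ j, ∀ i < n, |y j i| ≤ B)
    (hd : ∀ j, ∀ i < n, |y j i - x0 i| ≤ η) (u : ι → ℝ)
    (hu : ∀ j, |u j| ≤ 1) (hX : ∀ i < n, |pX x0 y u i| ≤ B) (t : Term) (ht : VarsLt n t) :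
    |t.eval (pX x0 y u) - t.eval x0 - ∑ j, u j * (t.eval (y j) - t.eval x0)| ≤
      (Fintype.card ι * η) ^ 2 * B ^ (2 * tsz t) := by
  have hB0 : (0:ℝ) ≤ B := by linarith
  have hB1 : (1:ℝ) ≤ B := by linarith
  have hmono : ∀ {a b : ℕ}, a ≤ b → B ^ a ≤ B ^ b := fun h => pow_le_pow_right₀ hB1 h
  set k : ℝ := ((Fintype.card ι : ℕ) : ℝ) with hk
  have hk0 : 0 ≤ k := by rw [hk]; positivity
  have hkk : k ≤ k ^ 2 := by
    rw [hk]
    have : (Fintype.card ι) ≤ (Fintype.card ι) ^ 2 := Nat.le_self_pow (by norm_num) _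
    exact_mod_cast this
  have hκ : 0 ≤ k * η := by positivity
  have hκ2 : 0 ≤ (k * η) ^ 2 := by positivity
  have hdX := pX_dist n η hd u hu
  have hdX' : ∀ i < n, |pX x0 y u i - x0 i| ≤ k * η := fun i hi => hdX i hi
  induction t with
  | zero =>
    simp only [Term.eval, sub_self, mul_zero, Finset.sum_const_zero, abs_zero]; positivity
  | one =>
    simp only [Term.eval, sub_self, mul_zero, Finset.sum_const_zero, abs_zero]; positivity
  | var i =>
    simp only [Term.eval]
    have : pX x0 y u i - x0 i - ∑ j, u j * (y j i - x0 i) = 0 := by unfold pX; ring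
    rw [this, abs_zero]; positivity
  | add s t ihs iht =>
    have s1 := ihs ht.1
    have t1 := iht ht.2
    rw [tsz_add]
    have e : (Term.add s t).eval (pX x0 y u) - (Term.add s t).eval x0 -
      ∑ j, u j * ((Term.add s t).eval (y j) - (Term.add s t).eval x0) =
      (s.eval (pX x0 y u) - s.eval x0 - ∑ j, u j * (s.eval (y j) - s.eval x0)) +
      (t.eval (pX x0 y u) - t.eval x0 - ∑ j, u j * (t.eval (y j) - t.eval x0)) := by
        simp only [Term.eval]
        have : ∑ j, u j * (s.eval (y j) + t.eval (y j) - (s.eval x0 + t.eval x0)) =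
          ∑ j, u j * (s.eval (y j) - s.eval x0) + ∑ j, u j * (t.eval (y j) - t.eval x0) := by
            rw [← Finset.sum_add_distrib]
            exact Finset.sum_congr rfl fun j _ => by ring
        rw [this]; ring
    rw [e]
    refine (abs_add_le _ _).trans ?_
    have h1 : B ^ (2 * tsz s) ≤ B ^ (2 * (tsz s + tsz t)) := hmono (by omega)
    have h2 : B ^ (2 * tsz t) ≤ B ^ (2 * (tsz s + tsz t)) := hmono (by omega)
    have h3 : B ^ (2 * tsz s) + B ^ (2 * tsz t) ≤ B ^ (2 * (tsz s + tsz t + 1)) := by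
      rw [show 2 * (tsz s + tsz t + 1) = 2 * (tsz s + tsz t) + 1 + 1 by ring, pow_succ, pow_succ]
      have : (0:ℝ) ≤ B ^ (2 * (tsz s + tsz t)) := by positivity
      have := four_le this hB
      linarith
    have := mul_le_mul_of_nonneg_left h3 hκ2
    linarith
  | sub s t ihs iht =>
    have s1 := ihs ht.1
    have t1 := iht ht.2
    rw [tsz_sub]
    have e : (Term.sub s t).eval (pX x0 y u) - (Term.sub s t).eval x0 -
      ∑ j, u j * ((Term.sub s t).eval (y j) - (Term.sub s t).eval x0) =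
      (s.eval (pX x0 y u) - s.eval x0 - ∑ j, u j * (s.eval (y j) - s.eval x0)) -
      (t.eval (pX x0 y u) - t.eval x0 - ∑ j, u j * (t.eval (y j) - t.eval x0)) := by
        simp only [Term.eval]
        have : ∑ j, u j * (s.eval (y j) - t.eval (y j) - (s.eval x0 - t.eval x0)) =
          ∑ j, u j * (s.eval (y j) - s.eval x0) - ∑ j, u j * (t.eval (y j) - t.eval x0) := by
            rw [← Finset.sum_sub_distrib]
            exact Finset.sum_congr rfl fun j _ => by ring
        rw [this]; ring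
    rw [e]
    refine (abs_sub _ _).trans ?_
    have h1 : B ^ (2 * tsz s) ≤ B ^ (2 * (tsz s + tsz t)) := hmono (by omega)
    have h2 : B ^ (2 * tsz t) ≤ B ^ (2 * (tsz s + tsz t)) := hmono (by omega)
    have h3 : B ^ (2 * tsz s) + B ^ (2 * tsz t) ≤ B ^ (2 * (tsz s + tsz t + 1)) := by
      rw [show 2 * (tsz s + tsz t + 1) = 2 * (tsz s + tsz t) + 1 + 1 by ring, pow_succ, pow_succ]
      have : (0:ℝ) ≤ B ^ (2 * (tsz s + tsz t)) := by positivity
      have := four_le this hB
      linarith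
    have := mul_le_mul_of_nonneg_left h3 hκ2
    linarith
  | mul s t ihs iht =>
    have s1 := ihs ht.1
    have t1 := iht ht.2
    obtain ⟨s2, s3, s4⟩ := lip (pX x0 y u) x0 n B (k * η) (by linarith) hκ hX hx0 hdX' s ht.1
    obtain ⟨t2, t3, t4⟩ := lip (pX x0 y u) x0 n B (k * η) (by linarith) hκ hX hx0 hdX' t ht.2
    have s5 : ∀ j, |s.eval (y j) - s.eval x0| ≤ η * B ^ tsz s := fun j =>
      (lip (y j) x0 n B η (by linarith) hη (hy j) hx0 (hd j) s ht.1).2.2
    have t5 : ∀ j, |t.eval (y j) - t.eval x0| ≤ η * B ^ tsz t := fun j =>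
      (lip (y j) x0 n B η (by linarith) hη (hy j) hx0 (hd j) t ht.2).2.2
    rw [tsz_mul]
    have e : (Term.mul s t).eval (pX x0 y u) - (Term.mul s t).eval x0 -
      ∑ j, u j * ((Term.mul s t).eval (y j) - (Term.mul s t).eval x0) =
      s.eval x0 * (t.eval (pX x0 y u) - t.eval x0 - ∑ j, u j * (t.eval (y j) - t.eval x0)) +
      (s.eval (pX x0 y u) - s.eval x0 - ∑ j, u j * (s.eval (y j) - s.eval x0)) * t.eval x0 +
      (s.eval (pX x0 y u) - s.eval x0) * (t.eval (pX x0 y u) - t.eval x0) -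
      ∑ j, u j * ((s.eval (y j) - s.eval x0) * (t.eval (y j) - t.eval x0)) := by
        simp only [Term.eval]
        have : ∑ j, u j * (s.eval (y j) * t.eval (y j) - (s.eval x0 * t.eval x0)) =
          s.eval x0 * ∑ j, u j * (t.eval (y j) - t.eval x0) +
          (∑ j, u j * (s.eval (y j) - s.eval x0)) * t.eval x0 +
          ∑ j, u j * ((s.eval (y j) - s.eval x0) * (t.eval (y j) - t.eval x0)) := by
            rw [Finset.mul_sum, Finset.sum_mul, ← Finset.sum_add_distrib,
              ← Finset.sum_add_distrib]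
            exact Finset.sum_congr rfl fun j _ => by ring
        rw [this]; ring
    rw [e]
    set a := tsz s
    set b := tsz t
    set P := B ^ (2 * (a + b)) with hP
    have hP0 : 0 ≤ P := by positivity
    have m1 : B ^ a * B ^ (2 * b) ≤ P := by rw [← pow_add]; exact hmono (by omega)
    have m2 : B ^ a * B ^ b ≤ P := by rw [← pow_add]; exact hmono (by omega)
    have m3 : B ^ (2 * a) * B ^ b ≤ P := by rw [← pow_add]; exact hmono (by omega)
    have k1 : |s.eval x0 * (t.eval (pX x0 y u) - t.eval x0 -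
        ∑ j, u j * (t.eval (y j) - t.eval x0))| ≤ B ^ a * ((k * η) ^ 2 * B ^ (2 * b)) := by
      rw [abs_mul]; exact mul_le_mul s3 t1 (abs_nonneg _) (by positivity)
    have k2 : |(s.eval (pX x0 y u) - s.eval x0 - ∑ j, u j * (s.eval (y j) - s.eval x0)) *
        t.eval x0| ≤ (k * η) ^ 2 * B ^ (2 * a) * B ^ b := by
      rw [abs_mul]; exact mul_le_mul s1 t3 (abs_nonneg _) (by positivity)
    have k3 : |(s.eval (pX x0 y u) - s.eval x0) * (t.eval (pX x0 y u) - t.eval x0)| ≤
        (k * η) * B ^ a * ((k * η) * B ^ b) := by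
      rw [abs_mul]; exact mul_le_mul s4 t4 (abs_nonneg _) (by positivity)
    have k4 : |∑ j, u j * ((s.eval (y j) - s.eval x0) * (t.eval (y j) - t.eval x0))| ≤
        (k * η) ^ 2 * (B ^ a * B ^ b) := by
      refine (Finset.abs_sum_le_sum_abs _ _).trans ?_
      have h2 : ∑ j : ι, |u j * ((s.eval (y j) - s.eval x0) * (t.eval (y j) - t.eval x0))| ≤
          ∑ _j : ι, (η * B ^ a * (η * B ^ b)) := by
        refine Finset.sum_le_sum fun j _ => ?_
        rw [abs_mul, abs_mul]
        have h3 := mul_le_mul (s5 j) (t5 j) (abs_nonneg _) (by positivity)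
        have h4 := hu j
        have h5 : 0 ≤ |s.eval (y j) - s.eval x0| * |t.eval (y j) - t.eval x0| := by positivity
        have h6 : (0:ℝ) ≤ |u j| := abs_nonneg _
        have h7 := mul_le_mul h4 h3 h5 (by norm_num)
        linarith
      refine h2.trans ?_
      rw [Finset.sum_const, Finset.card_univ, nsmul_eq_mul, ← hk]
      have h8 : k * (η * B ^ a * (η * B ^ b)) = k * (η ^ 2 * (B ^ a * B ^ b)) := by ring
      rw [h8]
      have h9 : (k * η) ^ 2 * (B ^ a * B ^ b) = k ^ 2 * (η ^ 2 * (B ^ a * B ^ b)) := by ring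
      rw [h9]
      exact mul_le_mul_of_nonneg_right hkk (by positivity)
    have n1 := mul_le_mul_of_nonneg_left m1 hκ2
    have n2 := mul_le_mul_of_nonneg_left m2 hκ2
    have n3 := mul_le_mul_of_nonneg_left m3 hκ2
    have hf : 4 * P ≤ B ^ (2 * (a + b + 1)) := by
      rw [show 2 * (a + b + 1) = 2 * (a + b) + 1 + 1 by ring, pow_succ, pow_succ]
      exact four_le hP0 hB
    have n4 := mul_le_mul_of_nonneg_left hf hκ2
    have q1 : (k * η) * B ^ a * ((k * η) * B ^ b) = (k * η) ^ 2 * (B ^ a * B ^ b) := by ring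
    refine (abs_sub _ _).trans ?_
    have tri : ∀ X Y Z : ℝ, |X + Y + Z| ≤ |X| + |Y| + |Z| := by
      intro X Y Z
      refine (abs_add_le _ _).trans ?_
      gcongr
      exact abs_add_le _ _
    have := tri (s.eval x0 * (t.eval (pX x0 y u) - t.eval x0 -
      ∑ j, u j * (t.eval (y j) - t.eval x0)))
      ((s.eval (pX x0 y u) - s.eval x0 - ∑ j, u j * (s.eval (y j) - s.eval x0)) * t.eval x0)
      ((s.eval (pX x0 y u) - s.eval x0) * (t.eval (pX x0 y u) - t.eval x0))
    linarith

end pt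

theorem eval_cont {ι : Type} [Fintype ι] (x0 : ℕ → ℝ) (y : ι → ℕ → ℝ) (t : Term) :
    Continuous fun u : ι → ℝ => t.eval (pX x0 y u) := by
  induction t with
  | zero => simp only [Term.eval]; exact continuous_const
  | one => simp only [Term.eval]; exact continuous_const
  | var i =>
    simp only [Term.eval, pX]
    fun_prop
  | add s t ihs iht => simp only [Term.eval]; exact ihs.add iht
  | sub s t ihs iht => simp only [Term.eval]; exact ihs.sub iht
  | mul s t ihs iht => simp only [Term.eval]; exact ihs.mul iht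

/-- value of an atom -/
def av (x : ℕ → ℝ) (a : Term × Term) : ℝ := a.1.eval x - a.2.eval x

theorem inv_pow_mono {a b : ℕ} (h : a ≤ b) : (1:ℝ) / 2 ^ b ≤ 1 / 2 ^ a :=
  one_div_le_one_div_of_le (by positivity) (pow_le_pow_right₀ (by norm_num) h)

/-- indices of the atoms of sign zero -/
abbrev EE (p : Form) (sg : Term × Term → SignType) : Type :=
  {i : Fin p.atoms.length // sg (p.atoms.get i) = 0}

theorem sound_core (p : Form) (n N : ℕ) (hN : p.toks.length ≤ N)
    (hv : ∀ a ∈ p.atoms, VarsLt n a.1 ∧ VarsLt n a.2) (sg : Term × Term → SignType)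
    (x0 : ℕ → ℝ) (y : EE p sg → ℕ → ℝ)
    (r0 r1 re s : ℕ) (hs : 3 * N + r0 + 2 ≤ s) (hs2 : 6 * N + r1 + 3 ≤ 2 * s)
    (hre : r1 + N + 3 ≤ re) (hx0 : ∀ i < n, |x0 i| ≤ 2)
    (hd : ∀ j, ∀ i < n, |y j i - x0 i| ≤ 1 / 2 ^ s)
    (h0 : ∀ a ∈ p.atoms, sg a = 0 → |av x0 a| ≤ 1 / 2 ^ re)
    (hneg : ∀ a ∈ p.atoms, sg a = -1 → av x0 a ≤ -(1 / 2 ^ r0))
    (hpos : ∀ a ∈ p.atoms, sg a = 1 → 1 / 2 ^ r0 ≤ av x0 a)
    (hy1 : ∀ e, 1 / 2 ^ r1 ≤ av (y e) (p.atoms.get e.1))
    (hy2 : ∀ e e', e ≠ e' → |av (y e') (p.atoms.get e.1)| ≤ 1 / 2 ^ re) :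
    ∃ x : ℕ → ℝ, ∀ a ∈ p.atoms, SignType.sign (a.1.eval x - a.2.eval x) = sg a := by
  set k := Fintype.card (EE p sg) with hk
  have hkN : k ≤ N := by
    have h1 : k ≤ Fintype.card (Fin p.atoms.length) := Fintype.card_subtype_le _
    rw [Fintype.card_fin] at h1
    exact h1.trans ((atoms_len p).trans hN)
  have hk2 : (k:ℝ) ≤ 2 ^ N := by
    have : k ≤ 2 ^ N := hkN.trans (Nat.lt_two_pow_self).le
    exact_mod_cast this
  set η : ℝ := 1 / 2 ^ s with hη
  have hη0 : 0 ≤ η := by positivity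
  have hkκ : (k:ℝ) * η ≤ 1 / 2 ^ (2 * N + r0 + 2) := by
    have h1 : η ≤ 1 / 2 ^ (3 * N + r0 + 2) := inv_pow_mono hs
    have h2 : (k:ℝ) * η ≤ 2 ^ N * (1 / 2 ^ (3 * N + r0 + 2)) :=
      mul_le_mul hk2 h1 hη0 (by positivity)
    refine h2.trans (le_of_eq ?_)
    rw [show 3 * N + r0 + 2 = N + (2 * N + r0 + 2) by ring, pow_add 2 N]
    field_simp
  have hκ0 : 0 ≤ (k:ℝ) * η := by positivity
  have hκ1 : (k:ℝ) * η ≤ 1 := by
    refine hkκ.trans ?_
    rw [div_le_one (by positivity)]
    exact one_le_pow₀ (by norm_num)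
  have hη1 : η ≤ 1 := by
    rw [hη, div_le_one (by positivity)]; exact one_le_pow₀ (by norm_num)
  have hB : (4:ℝ) ≤ 4 := le_rfl
  have hx04 : ∀ i < n, |x0 i| ≤ (4:ℝ) := fun i hi => (hx0 i hi).trans (by norm_num)
  have hy4 : ∀ j, ∀ i < n, |y j i| ≤ (4:ℝ) := by
    intro j i hi
    have h1 := hd j i hi
    have h2 := hx0 i hi
    have h3 : |y j i| ≤ |y j i - x0 i| + |x0 i| := by
      have := abs_add_le (y j i - x0 i) (x0 i)
      simpa using this
    linarith
  have hX4 : ∀ u : EE p sg → ℝ, (∀ j, |u j| ≤ 1) → ∀ i < n, |pX x0 y u i| ≤ (4:ℝ) := by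
    intro u hu i hi
    have h1 := pX_dist n η hd u hu i hi
    have h2 := hx0 i hi
    have h3 : |pX x0 y u i| ≤ |pX x0 y u i - x0 i| + |x0 i| := by
      have := abs_add_le (pX x0 y u i - x0 i) (x0 i)
      simpa using this
    have h4 : |pX x0 y u i - x0 i| ≤ 1 := h1.trans hκ1
    linarith
  have h4N : ∀ {a : Term}, tsz a ≤ N → (4:ℝ) ^ tsz a ≤ 2 ^ (2 * N) := by
    intro a ha
    rw [pow_mul]
    norm_num
    exact pow_le_pow_right₀ (by norm_num) ha
  have h4N2 : ∀ {a : Term}, tsz a ≤ N → (4:ℝ) ^ (2 * tsz a) ≤ 2 ^ (4 * N) := by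
    intro a ha
    have : (2:ℝ) ^ (4 * N) = 4 ^ (2 * N) := by
      rw [show 4 * N = 2 * (2 * N) by ring, pow_mul]; norm_num
    rw [this]
    exact pow_le_pow_right₀ (by norm_num) (by omega)
  -- variation of an atom
  have hvar : ∀ a ∈ p.atoms, ∀ u : EE p sg → ℝ, (∀ j, |u j| ≤ 1) →
      |av (pX x0 y u) a - av x0 a| ≤ 1 / 2 ^ (r0 + 1) := by
    intro a ha u hu
    obtain ⟨v1, v2⟩ := hv a ha
    obtain ⟨s1, s2⟩ := atoms_tsz p a ha
    have hdX := pX_dist n η hd u hu
    have l1 := (lip (pX x0 y u) x0 n 4 (k * η) (by norm_num) hκ0 (hX4 u hu) hx04 hdX a.1 v1).2.2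
    have l2 := (lip (pX x0 y u) x0 n 4 (k * η) (by norm_num) hκ0 (hX4 u hu) hx04 hdX a.2 v2).2.2
    have e : av (pX x0 y u) a - av x0 a = (a.1.eval (pX x0 y u) - a.1.eval x0) -
      (a.2.eval (pX x0 y u) - a.2.eval x0) := by unfold av; ring
    rw [e]
    refine (abs_sub _ _).trans ?_
    have m1 := mul_le_mul_of_nonneg_left (h4N (s1.trans hN)) hκ0
    have m2 := mul_le_mul_of_nonneg_left (h4N (s2.trans hN)) hκ0
    have m3 : (k:ℝ) * η * 2 ^ (2 * N) ≤ 1 / 2 ^ (r0 + 2) := by
      have := mul_le_mul_of_nonneg_right hkκ (show (0:ℝ) ≤ 2 ^ (2 * N) by positivity)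
      refine this.trans (le_of_eq ?_)
      rw [show 2 * N + r0 + 2 = 2 * N + (r0 + 2) by ring, pow_add 2 (2 * N)]
      field_simp
    have m4 : (1:ℝ) / 2 ^ (r0 + 2) + 1 / 2 ^ (r0 + 2) = 1 / 2 ^ (r0 + 1) := by
      rw [pow_succ 2 (r0 + 1)]; field_simp; norm_num
    linarith
  -- first order expansion of an atom
  have hexp : ∀ a ∈ p.atoms, ∀ u : EE p sg → ℝ, (∀ j, |u j| ≤ 1) →
      |av (pX x0 y u) a - av x0 a - ∑ j, u j * (av (y j) a - av x0 a)| ≤ 1 / 2 ^ (r1 + 2) := by
    intro a ha u hu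
    obtain ⟨v1, v2⟩ := hv a ha
    obtain ⟨s1, s2⟩ := atoms_tsz p a ha
    have l1 := ptaylor n 4 hB η hη0 hx04 hy4 hd u hu (hX4 u hu) a.1 v1
    have l2 := ptaylor n 4 hB η hη0 hx04 hy4 hd u hu (hX4 u hu) a.2 v2
    have e : av (pX x0 y u) a - av x0 a - ∑ j, u j * (av (y j) a - av x0 a) =
      (a.1.eval (pX x0 y u) - a.1.eval x0 - ∑ j, u j * (a.1.eval (y j) - a.1.eval x0)) -
      (a.2.eval (pX x0 y u) - a.2.eval x0 - ∑ j, u j * (a.2.eval (y j) - a.2.eval x0)) := by
        unfold av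
        have : ∑ j, u j * (a.1.eval (y j) - a.2.eval (y j) - (a.1.eval x0 - a.2.eval x0)) =
          ∑ j, u j * (a.1.eval (y j) - a.1.eval x0) -
          ∑ j, u j * (a.2.eval (y j) - a.2.eval x0) := by
            rw [← Finset.sum_sub_distrib]
            exact Finset.sum_congr rfl fun j _ => by ring
        rw [this]; ring
    rw [e]
    refine (abs_sub _ _).trans ?_
    have hκ2 : (0:ℝ) ≤ (k * η) ^ 2 := by positivity
    have m1 := mul_le_mul_of_nonneg_left (h4N2 (s1.trans hN)) hκ2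
    have m2 := mul_le_mul_of_nonneg_left (h4N2 (s2.trans hN)) hκ2
    have m3 : ((k:ℝ) * η) ^ 2 * 2 ^ (4 * N) ≤ 1 / 2 ^ (r1 + 3) := by
      have a1 : ((k:ℝ) * η) ^ 2 ≤ (2 ^ N) ^ 2 * (1 / 2 ^ (6 * N + r1 + 3)) := by
        rw [mul_pow]
        have b1 : (k:ℝ) ^ 2 ≤ (2 ^ N) ^ 2 := pow_le_pow_left₀ (by positivity) hk2 2
        have b2 : η ^ 2 ≤ 1 / 2 ^ (6 * N + r1 + 3) := by
          rw [hη, div_pow, one_pow, ← pow_mul, mul_comm s 2]
          exact inv_pow_mono hs2
        exact mul_le_mul b1 b2 (by positivity) (by positivity)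
      have := mul_le_mul_of_nonneg_right a1 (show (0:ℝ) ≤ 2 ^ (4 * N) by positivity)
      refine this.trans (le_of_eq ?_)
      rw [show 6 * N + r1 + 3 = N * 2 + 4 * N + (r1 + 3) by ring, pow_add 2 (N * 2 + 4 * N),
        pow_add 2 (N * 2), ← pow_mul]
      field_simp
    have m4 : (1:ℝ) / 2 ^ (r1 + 3) + 1 / 2 ^ (r1 + 3) = 1 / 2 ^ (r1 + 2) := by
      rw [pow_succ 2 (r1 + 2)]; field_simp; norm_num
    linarith
  -- Poincare-Miranda
  have hsmall : (2 * k + 1 : ℝ) * (1 / 2 ^ re) ≤ 1 / 2 ^ (r1 + 2) := by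
    have a1 : (2 * k + 1 : ℝ) ≤ 2 ^ (N + 1) := by
      have h1 : N + 1 ≤ 2 ^ N := Nat.lt_two_pow_self
      have : 2 * k + 1 ≤ 2 ^ (N + 1) := by rw [pow_succ]; omega
      exact_mod_cast this
    have a2 : (1:ℝ) / 2 ^ re ≤ 1 / 2 ^ (r1 + N + 3) := inv_pow_mono hre
    refine (mul_le_mul a1 a2 (by positivity) (by positivity)).trans (le_of_eq ?_)
    rw [show r1 + N + 3 = (N + 1) + (r1 + 2) by ring, pow_add 2 (N + 1)]
    field_simp
  have hlast : (1:ℝ) / 2 ^ (r1 + 2) + 1 / 2 ^ (r1 + 2) ≤ 1 / 2 ^ r1 := by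
    have : (1:ℝ) / 2 ^ (r1 + 2) + 1 / 2 ^ (r1 + 2) = 1 / 2 ^ (r1 + 1) := by
      rw [pow_succ 2 (r1 + 1)]; field_simp; norm_num
    rw [this]
    exact inv_pow_mono (by omega)
  -- the value at a face
  have hface : ∀ e : EE p sg, ∀ u : EE p sg → ℝ, (∀ j, |u j| ≤ 1) →
      |av (pX x0 y u) (p.atoms.get e.1) - u e * av (y e) (p.atoms.get e.1)| ≤ 1 / 2 ^ r1 := by
    intro e u hu
    set a := p.atoms.get e.1 with ha
    have hmem : a ∈ p.atoms := List.get_mem _ _
    have h1 := hexp a hmem u hu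
    have h2 : |av x0 a| ≤ 1 / 2 ^ re := h0 a hmem e.2
    classical
    have h3 : ∑ j, u j * (av (y j) a - av x0 a) = u e * av (y e) a +
        (∑ j ∈ Finset.univ.erase e, u j * av (y j) a) - (∑ j, u j) * av x0 a := by
      have : ∑ j, u j * (av (y j) a - av x0 a) = ∑ j, u j * av (y j) a -
          (∑ j, u j) * av x0 a := by
        rw [Finset.sum_mul, ← Finset.sum_sub_distrib]
        exact Finset.sum_congr rfl fun j _ => by ring
      rw [this, ← Finset.add_sum_erase _ _ (Finset.mem_univ e)]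
    have h4 : |∑ j ∈ Finset.univ.erase e, u j * av (y j) a| ≤ k * (1 / 2 ^ re) := by
      refine (Finset.abs_sum_le_sum_abs _ _).trans ?_
      have : ∑ j ∈ Finset.univ.erase e, |u j * av (y j) a| ≤
          ∑ _j ∈ Finset.univ.erase e, (1 / 2 ^ re : ℝ) := by
        refine Finset.sum_le_sum fun j hj => ?_
        have hne : e ≠ j := (Finset.ne_of_mem_erase hj).symm
        have b1 := hy2 e j hne
        rw [abs_mul]
        have b2 := hu j
        have b3 : (0:ℝ) ≤ |av (y j) a| := abs_nonneg _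
        have b4 : (0:ℝ) ≤ |u j| := abs_nonneg _
        have b5 := mul_le_mul b2 b1 (abs_nonneg _) (by norm_num)
        linarith
      refine this.trans ?_
      rw [Finset.sum_const, nsmul_eq_mul]
      apply mul_le_mul_of_nonneg_right _ (by positivity)
      have : (Finset.univ.erase e).card ≤ k := Finset.card_le_univ _
      exact_mod_cast this
    have h5 : |∑ j, u j| ≤ k := by
      refine (Finset.abs_sum_le_sum_abs _ _).trans ?_
      have : ∑ j : EE p sg, |u j| ≤ ∑ _j : EE p sg, (1:ℝ) := Finset.sum_le_sum fun j _ => hu j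
      refine this.trans (le_of_eq ?_)
      rw [Finset.sum_const, Finset.card_univ, nsmul_eq_mul, mul_one]
    have h6 : |(∑ j, u j) * av x0 a| ≤ k * (1 / 2 ^ re) := by
      rw [abs_mul]; exact mul_le_mul h5 h2 (abs_nonneg _) (by positivity)
    rw [h3] at h1
    have h7 : av (pX x0 y u) a - u e * av (y e) a =
      (av (pX x0 y u) a - av x0 a - (u e * av (y e) a +
        (∑ j ∈ Finset.univ.erase e, u j * av (y j) a) - (∑ j, u j) * av x0 a)) + av x0 a +
        (∑ j ∈ Finset.univ.erase e, u j * av (y j) a) - (∑ j, u j) * av x0 a := by ring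
    rw [h7]
    have g1 := abs_le.1 h1
    have g2 := abs_le.1 h2
    have g3 := abs_le.1 h4
    have g4 := abs_le.1 h6
    have g5 : (2 * k + 1 : ℝ) * (1 / 2 ^ re) = k * (1 / 2 ^ re) + k * (1 / 2 ^ re) +
      1 / 2 ^ re := by ring
    rw [g5] at hsmall
    rw [abs_le]
    constructor <;> linarith [g1.1, g1.2, g2.1, g2.2, g3.1, g3.2, g4.1, g4.2]
  obtain ⟨u, hu, hu0⟩ := Pool.Agent.Helper47.Brouwer.poincare_miranda (ι := EE p sg)
    (fun _ => -1) (fun _ => 1) (fun _ => by norm_num)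
    (fun u e => av (pX x0 y u) (p.atoms.get e.1))
    (by
      apply Continuous.continuousOn
      refine continuous_pi fun e => ?_
      unfold av
      exact (eval_cont x0 y _).sub (eval_cont x0 y _))
    (by
      intro u hu e he
      have hu' : ∀ j, |u j| ≤ 1 := fun j => abs_le.2 ⟨hu.1 j, hu.2 j⟩
      have h1 := hface e u hu'
      rw [he] at h1
      have h2 := abs_le.1 h1
      have h3 := hy1 e
      have h4 := h2.2
      change av (pX x0 y u) (p.atoms.get e.1) ≤ 0
      linarith)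
    (by
      intro u hu e he
      have hu' : ∀ j, |u j| ≤ 1 := fun j => abs_le.2 ⟨hu.1 j, hu.2 j⟩
      have h1 := hface e u hu'
      rw [he] at h1
      have h2 := abs_le.1 h1
      have h3 := hy1 e
      have h4 := h2.1
      change 0 ≤ av (pX x0 y u) (p.atoms.get e.1)
      linarith)
  have hu' : ∀ j, |u j| ≤ 1 := fun j => abs_le.2 ⟨hu.1 j, hu.2 j⟩
  refine ⟨pX x0 y u, fun a ha => ?_⟩
  change SignType.sign (av (pX x0 y u) a) = sg a
  have h1 := abs_le.1 (hvar a ha u hu')
  have hlt : (1:ℝ) / 2 ^ (r0 + 1) < 1 / 2 ^ r0 := by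
    apply one_div_lt_one_div_of_lt (by positivity)
    exact pow_lt_pow_right₀ (by norm_num) (by omega)
  rcases h2 : sg a with _ | _ | _
  · obtain ⟨i, hi⟩ := List.get_of_mem ha
    have h3 : sg (p.atoms.get i) = 0 := by rw [hi]; exact h2
    have h4 := congrFun hu0 ⟨i, h3⟩
    have h5 : av (pX x0 y u) a = 0 := by rw [← hi]; exact h4
    rw [h5]; exact sign_zero
  · have h3 := hneg a ha h2
    have : av (pX x0 y u) a < 0 := by linarith [h1.2]
    exact sign_neg this
  · have h3 := hpos a ha h2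
    have : 0 < av (pX x0 y u) a := by linarith [h1.1]
    exact sign_pos this

end Pool.Agent.Helper54.ETR
end

section
open Finset

namespace Pool.Agent.Helper54.ETR

/-- derivative of an atom -/
def aD (x v : ℕ → ℝ) (a : Term × Term) : ℝ := a.1.D x v - a.2.D x v

/-! ### dual vectors -/

theorem dual_vectors {T J : Type} [Fintype T] [Fintype J] [DecidableEq T] (g : T → J → ℝ)
    (M : ℝ) (hM : 0 ≤ M) (hg : ∀ i j, |g i j| ≤ M)
    (hreg : ∀ w : T → ℝ, (∀ i, |w i| ≤ 1) → (∃ i, w i = 1) → ∃ j, 1 < |∑ i, w i * g i j|) :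
    ∃ v : T → J → ℝ, (∀ e j, |v e j| ≤ Fintype.card T * M) ∧
      ∀ i e, ∑ j, v e j * g i j = if i = e then 1 else 0 := by
  classical
  set G : Matrix T T ℝ := fun i l => ∑ j, g i j * g l j with hG
  have hquad : ∀ w : T → ℝ, ∑ i, w i * (G.mulVec w) i = ∑ j, (∑ i, w i * g i j) ^ 2 := by
    intro w
    have h1 : ∀ i, w i * (G.mulVec w) i = ∑ l, ∑ j, (w i * g i j) * (w l * g l j) := by
      intro i
      simp only [Matrix.mulVec, dotProduct, hG]
      rw [Finset.mul_sum]
      refine Finset.sum_congr rfl fun l _ => ?_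
      rw [Finset.sum_mul, Finset.mul_sum]
      exact Finset.sum_congr rfl fun j _ => by ring
    simp only [h1]
    have h2 : ∀ j, (∑ i, w i * g i j) ^ 2 = ∑ i, ∑ l, (w i * g i j) * (w l * g l j) := by
      intro j
      rw [pow_two, Finset.sum_mul_sum]
    simp only [h2]
    rw [Finset.sum_comm]
    have h3 : ∀ l, ∑ i, ∑ j, (w i * g i j) * (w l * g l j) =
        ∑ j, ∑ i, (w i * g i j) * (w l * g l j) := fun l => Finset.sum_comm
    simp only [h3]
    rw [Finset.sum_comm]
    refine Finset.sum_congr rfl fun j _ => ?_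
    rw [Finset.sum_comm]
  have hkey : ∀ w : T → ℝ, ∀ i, (w i) ^ 2 ≤ ∑ i, w i * (G.mulVec w) i := by
    intro w i
    rw [hquad]
    have : Nonempty T := ⟨i⟩
    obtain ⟨i0, hi0⟩ := Finite.exists_max fun i => |w i|
    by_cases h0 : w i0 = 0
    · have h1 := hi0 i
      rw [h0, abs_zero] at h1
      have h2 : w i = 0 := abs_eq_zero.1 (le_antisymm h1 (abs_nonneg _))
      rw [h2]
      have : 0 ≤ ∑ j, (∑ i, w i * g i j) ^ 2 := Finset.sum_nonneg fun j _ => sq_nonneg _
      simpa using this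
    · have hpos : 0 < |w i0| := abs_pos.2 h0
      obtain ⟨j, hj⟩ := hreg (fun i => w i / w i0) (by
        intro i
        rw [abs_div, div_le_one hpos]
        exact hi0 i) ⟨i0, div_self h0⟩
      have h1 : ∑ i, w i / w i0 * g i j = (∑ i, w i * g i j) / w i0 := by
        rw [Finset.sum_div]
        exact Finset.sum_congr rfl fun i _ => by ring
      rw [h1, abs_div, lt_div_iff₀ hpos, one_mul] at hj
      have h2 : |w i| ≤ |∑ i, w i * g i j| := (hi0 i).trans hj.le
      have h3 : (w i) ^ 2 ≤ (∑ i, w i * g i j) ^ 2 := sq_le_sq.2 h2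
      refine h3.trans ?_
      exact Finset.single_le_sum (f := fun j => (∑ i, w i * g i j) ^ 2)
        (fun j _ => sq_nonneg _) (Finset.mem_univ j)
  have hinj : Function.Injective G.mulVecLin := by
    rw [← LinearMap.ker_eq_bot, LinearMap.ker_eq_bot']
    intro w hw
    funext i
    have h1 := hkey w i
    have h2 : G.mulVec w = 0 := hw
    rw [h2] at h1
    simp only [Pi.zero_apply, mul_zero, Finset.sum_const_zero] at h1
    have : (w i) ^ 2 = 0 := le_antisymm h1 (sq_nonneg _)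
    simpa using this
  have hsurj : Function.Surjective G.mulVecLin := LinearMap.injective_iff_surjective.1 hinj
  have hsol : ∀ e : T, ∃ y : T → ℝ, (∀ i, |y i| ≤ 1) ∧ G.mulVec y = Pi.single e 1 := by
    intro e
    obtain ⟨y, hy⟩ := hsurj (Pi.single e 1)
    have hy' : G.mulVec y = Pi.single e 1 := hy
    refine ⟨y, fun i => ?_, hy'⟩
    have h1 : ∑ i, y i * (G.mulVec y) i = y e := by
      rw [hy', Finset.sum_eq_single e]
      · simp
      · intro b _ hb
        simp [Pi.single_apply, hb]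
      · simp
    have h2 : (y e) ^ 2 ≤ y e := by have := hkey y e; rwa [h1] at this
    have h3 : y e ≤ 1 := by nlinarith
    have h4 : (y i) ^ 2 ≤ 1 := by have := hkey y i; rw [h1] at this; linarith
    exact abs_le_one_iff_mul_self_le_one.2 (by nlinarith)
  choose y hy1 hy2 using hsol
  refine ⟨fun e j => ∑ l, y e l * g l j, fun e j => ?_, fun i e => ?_⟩
  · refine (Finset.abs_sum_le_sum_abs _ _).trans ?_
    have : ∑ l : T, |y e l * g l j| ≤ ∑ _l : T, M := by
      refine Finset.sum_le_sum fun l _ => ?_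
      rw [abs_mul]
      have h1 := mul_le_mul (hy1 e l) (hg l j) (abs_nonneg _) (by norm_num)
      linarith
    refine this.trans (le_of_eq ?_)
    rw [Finset.sum_const, Finset.card_univ, nsmul_eq_mul]
  · have h1 : ∑ j, (∑ l, y e l * g l j) * g i j = (G.mulVec (y e)) i := by
      simp only [Matrix.mulVec, dotProduct, hG]
      have : ∀ j, (∑ l, y e l * g l j) * g i j = ∑ l, g i j * g l j * y e l := by
        intro j; rw [Finset.sum_mul]; exact Finset.sum_congr rfl fun l _ => by ring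
      simp only [this]
      rw [Finset.sum_comm]
      exact Finset.sum_congr rfl fun l _ => by rw [Finset.sum_mul]
    rw [h1, hy2]
    by_cases h : i = e
    · subst h; simp
    · simp [Pi.single_apply, h]

theorem aD_coord (n : ℕ) (x v : ℕ → ℝ) (a : Term × Term) (h1 : VarsLt n a.1)
    (h2 : VarsLt n a.2) : aD x v a = ∑ j ∈ range n, v j * aD x (ev1 j) a := by
  unfold aD
  rw [D_coord n x v a.1 h1, D_coord n x v a.2 h2, ← Finset.sum_sub_distrib]
  exact Finset.sum_congr rfl fun j _ => by ring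

/-- regularity of a point -/
def Regl (p : Form) (n : ℕ) (x : ℕ → ℝ) : Prop :=
  ∀ w : Fin p.atoms.length → ℝ, (∀ i, |w i| ≤ 1) →
    (∀ i, w i ≠ 0 → |av x (p.atoms.get i)| ≤ 1) → (∃ i, w i = 1) →
    ∃ j < n, 1 < |∑ i, w i * aD x (ev1 j) (p.atoms.get i)|

/-- near-active atoms -/
abbrev TT (p : Form) (x : ℕ → ℝ) : Type :=
  {i : Fin p.atoms.length // |av x (p.atoms.get i)| ≤ 1}

theorem dual_exist (p : Form) (n N : ℕ) (hN : p.toks.length ≤ N)
    (hv : ∀ a ∈ p.atoms, VarsLt n a.1 ∧ VarsLt n a.2) (x : ℕ → ℝ) (hx : ∀ i < n, |x i| ≤ 1)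
    (hreg : Regl p n x) :
    ∃ v : TT p x → ℕ → ℝ, (∀ e j, |v e j| ≤ 2 ^ (3 * N + 1)) ∧
      ∀ i e : TT p x, aD x (v e) (p.atoms.get i.1) = if i = e then 1 else 0 := by
  classical
  have hx4 : ∀ i < n, |x i| ≤ (4:ℝ) := fun i hi => (hx i hi).trans (by norm_num)
  have hgb : ∀ (i : TT p x) (j : Fin n), |aD x (ev1 j) (p.atoms.get i.1)| ≤ 2 ^ (2 * N + 1) := by
    intro i j
    have hmem : p.atoms.get i.1 ∈ p.atoms := List.get_mem _ _
    obtain ⟨v1, v2⟩ := hv _ hmem
    obtain ⟨s1, s2⟩ := atoms_tsz p _ hmem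
    have he : ∀ l < n, |ev1 (j : ℕ) l| ≤ 1 := by
      intro l _; unfold ev1; split_ifs <;> simp
    have b1 := D_bound n 4 le_rfl x (ev1 j) 1 (by norm_num) hx4 he _ v1
    have b2 := D_bound n 4 le_rfl x (ev1 j) 1 (by norm_num) hx4 he _ v2
    have h4N : ∀ {a : Term}, tsz a ≤ N → (4:ℝ) ^ tsz a ≤ 2 ^ (2 * N) := by
      intro a ha
      rw [pow_mul]
      norm_num
      exact pow_le_pow_right₀ (by norm_num) ha
    have c1 := h4N (s1.trans hN)
    have c2 := h4N (s2.trans hN)
    unfold aD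
    refine (abs_sub _ _).trans ?_
    rw [pow_succ]
    linarith
  obtain ⟨v, hv1, hv2⟩ := dual_vectors (T := TT p x) (J := Fin n)
    (fun i j => aD x (ev1 j) (p.atoms.get i.1)) (2 ^ (2 * N + 1)) (by positivity) hgb (by
      intro w hw1 hw2
      obtain ⟨i1, hi1⟩ := hw2
      obtain ⟨j, hj, hj2⟩ := hreg (fun i => if h : |av x (p.atoms.get i)| ≤ 1 then w ⟨i, h⟩ else 0)
        (by
          intro i
          split_ifs with h
          · exact hw1 _
          · simp)
        (by
          intro i hi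
          by_contra hc
          rw [dif_neg hc] at hi
          exact hi rfl)
        ⟨i1.1, by rw [dif_pos i1.2]; exact hi1⟩
      refine ⟨⟨j, hj⟩, ?_⟩
      refine lt_of_lt_of_eq hj2 ?_
      congr 1
      rw [← Fintype.sum_subtype_add_sum_subtype (fun i : Fin p.atoms.length =>
        |av x (p.atoms.get i)| ≤ 1)]
      have h4 : ∑ i : {i : Fin p.atoms.length // ¬ |av x (p.atoms.get i)| ≤ 1},
          (if h : |av x (p.atoms.get i.1)| ≤ 1 then w ⟨i.1, h⟩ else 0) *
            aD x (ev1 j) (p.atoms.get i.1) = 0 := by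
        refine Finset.sum_eq_zero fun i _ => ?_
        rw [dif_neg i.2, zero_mul]
      rw [h4, add_zero]
      refine Finset.sum_congr rfl fun i _ => ?_
      rw [dif_pos i.2])
  refine ⟨fun e j => if h : j < n then v e ⟨j, h⟩ else 0, fun e j => ?_, fun i e => ?_⟩
  · dsimp only
    split_ifs with h
    · refine (hv1 e ⟨j, h⟩).trans ?_
      have h1 : (Fintype.card (TT p x) : ℝ) ≤ 2 ^ N := by
        have h2 : Fintype.card (TT p x) ≤ Fintype.card (Fin p.atoms.length) :=
          Fintype.card_subtype_le _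
        rw [Fintype.card_fin] at h2
        have h3 : Fintype.card (TT p x) ≤ 2 ^ N :=
          (h2.trans ((atoms_len p).trans hN)).trans (Nat.lt_two_pow_self).le
        exact_mod_cast h3
      have h4 := mul_le_mul_of_nonneg_right h1 (show (0:ℝ) ≤ 2 ^ (2 * N + 1) by positivity)
      refine h4.trans (le_of_eq ?_)
      rw [← pow_add]; congr 1; ring
    · rw [abs_zero]; positivity
  · have hmem : p.atoms.get i.1 ∈ p.atoms := List.get_mem _ _
    obtain ⟨v1, v2⟩ := hv _ hmem
    rw [aD_coord n x _ _ v1 v2, ← hv2 i e, Finset.sum_range]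
    refine Finset.sum_congr rfl fun j _ => ?_
    have h5 : (if h : (j : ℕ) < n then v e ⟨j, h⟩ else 0) = v e j := dif_pos j.2
    change (if h : (j : ℕ) < n then v e ⟨j, h⟩ else 0) * _ = _
    rw [h5]

end Pool.Agent.Helper54.ETR
end
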