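import Pool.Agent.Helper54.Sm.Compl

open Finset

namespace Pool.Agent.Helper54.ETR

def pr0 (N : ℕ) : ℕ := 25 * N + 21
def pr1 (N : ℕ) : ℕ := 37 * N + 29
def pre (N : ℕ) : ℕ := 38 * N + 34
def ps (N : ℕ) : ℕ := 34 * N + 26
def pL (N : ℕ) : ℕ := 50 * N + 40

theorem near_est (p : Form) (n N : ℕ) (hN : p.toks.length ≤ N)
    (hv : ∀ a ∈ p.atoms, VarsLt n a.1 ∧ VarsLt n a.2) (x Δ z : ℕ → ℝ)
    (hx : ∀ i < n, |x i| ≤ 1) (hΔ : ∀ j < n, |Δ j| ≤ 1 / 2 ^ (21 * N + 18))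
    (hz : ∀ j < n, |z j - (x j + Δ j)| ≤ 1 / 2 ^ pL N) :
    ∀ a ∈ p.atoms, |av z a - av x a - aD x Δ a| ≤ 1 / 2 ^ pre N ∧ |av z a - av x a| ≤ 1 / 2 := by
  intro a ha
  obtain ⟨v1, v2⟩ := hv a ha
  obtain ⟨s1, s2⟩ := atoms_tsz p a ha
  have hone : ∀ k : ℕ, (1:ℝ) / 2 ^ k ≤ 1 := by
    intro k
    rw [div_le_one (by positivity)]; exact one_le_pow₀ (by norm_num)
  have hx4 : ∀ i < n, |x i| ≤ (4:ℝ) := fun i hi => (hx i hi).trans (by norm_num)
  have hw : ∀ i < n, |x i + Δ i| ≤ 2 := by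
    intro i hi
    have h1 := hx i hi
    have h2 := (hΔ i hi).trans (hone _)
    exact (abs_add_le _ _).trans (by linarith)
  have hw4 : ∀ i < n, |x i + Δ i| ≤ (4:ℝ) := fun i hi => (hw i hi).trans (by norm_num)
  have hz4 : ∀ i < n, |z i| ≤ (4:ℝ) := by
    intro i hi
    have h1 := hw i hi
    have h2 := (hz i hi).trans (hone _)
    have h3 : |z i| ≤ |z i - (x i + Δ i)| + |x i + Δ i| := by
      have := abs_add_le (z i - (x i + Δ i)) (x i + Δ i)
      simpa using this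
    linarith
  have h4N : ∀ {a : Term}, tsz a ≤ N → (4:ℝ) ^ tsz a ≤ 2 ^ (2 * N) := by
    intro a ha
    rw [pow_mul]
    norm_num
    exact pow_le_pow_right₀ (by norm_num) ha
  have h4N2 : ∀ {a : Term}, tsz a ≤ N → (4:ℝ) ^ (2 * tsz a) ≤ 2 ^ (4 * N) := by
    intro a ha
    have : (2:ℝ) ^ (4 * N) = 4 ^ (2 * N) := by
      rw [show 4 * N = 2 * (2 * N) by ring, pow_mul]; norm_num
    rw [this]
    exact pow_le_pow_right₀ (by norm_num) (by omega)
  set η : ℝ := 1 / 2 ^ (21 * N + 18) with hη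
  have hη0 : 0 ≤ η := by positivity
  have hη2 : 0 ≤ η ^ 2 := by positivity
  have t1 := taylor n 4 le_rfl x Δ η hη0 hx4 hw4 hΔ a.1 v1
  have t2 := taylor n 4 le_rfl x Δ η hη0 hx4 hw4 hΔ a.2 v2
  have l1 := (lip z (fun i => x i + Δ i) n 4 (1 / 2 ^ pL N) (by norm_num) (by positivity)
    hz4 hw4 hz a.1 v1).2.2
  have l2 := (lip z (fun i => x i + Δ i) n 4 (1 / 2 ^ pL N) (by norm_num) (by positivity)
    hz4 hw4 hz a.2 v2).2.2
  have d1 := D_bound n 4 le_rfl x Δ η hη0 hx4 hΔ a.1 v1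
  have d2 := D_bound n 4 le_rfl x Δ η hη0 hx4 hΔ a.2 v2
  have m1 := mul_le_mul_of_nonneg_left (h4N2 (s1.trans hN)) hη2
  have m2 := mul_le_mul_of_nonneg_left (h4N2 (s2.trans hN)) hη2
  have hpi : (0:ℝ) ≤ 1 / 2 ^ pL N := by positivity
  have m3 := mul_le_mul_of_nonneg_left (h4N (s1.trans hN)) hpi
  have m4 := mul_le_mul_of_nonneg_left (h4N (s2.trans hN)) hpi
  have m5 := mul_le_mul_of_nonneg_left (h4N (s1.trans hN)) hη0
  have m6 := mul_le_mul_of_nonneg_left (h4N (s2.trans hN)) hη0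
  have e1 : η ^ 2 * 2 ^ (4 * N) = 1 / 2 ^ (38 * N + 36) := by
    rw [hη, div_pow, one_pow, ← pow_mul,
      show (21 * N + 18) * 2 = 4 * N + (38 * N + 36) by ring, pow_add 2 (4 * N)]
    field_simp
  have e2 : (1:ℝ) / 2 ^ pL N * 2 ^ (2 * N) ≤ 1 / 2 ^ (38 * N + 36) := by
    have : (1:ℝ) / 2 ^ pL N * 2 ^ (2 * N) = 1 / 2 ^ (48 * N + 40) := by
      unfold pL
      rw [show 50 * N + 40 = 2 * N + (48 * N + 40) by ring, pow_add 2 (2 * N)]
      field_simp
    rw [this]; exact inv_pow_mono (by omega)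
  have e3 : η * 2 ^ (2 * N) ≤ 1 / 2 ^ 3 := by
    have : η * 2 ^ (2 * N) = 1 / 2 ^ (19 * N + 18) := by
      rw [hη, show 21 * N + 18 = 2 * N + (19 * N + 18) by ring, pow_add 2 (2 * N)]
      field_simp
    rw [this]; exact inv_pow_mono (by omega)
  have e4 : (1:ℝ) / 2 ^ pre N = 4 * (1 / 2 ^ (38 * N + 36)) := by
    unfold pre
    rw [show 38 * N + 36 = (38 * N + 34) + 2 by ring, pow_add 2 (38 * N + 34)]
    field_simp; norm_num
  have e5 : (1:ℝ) / 2 ^ pre N ≤ 1 / 2 ^ 2 := inv_pow_mono (by unfold pre; omega)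
  have hA : |av z a - av x a - aD x Δ a| ≤ 1 / 2 ^ pre N := by
    have e : av z a - av x a - aD x Δ a =
      ((a.1.eval z - a.1.eval (fun i => x i + Δ i)) -
        (a.2.eval z - a.2.eval (fun i => x i + Δ i))) +
      ((a.1.eval (fun i => x i + Δ i) - a.1.eval x - a.1.D x Δ) -
        (a.2.eval (fun i => x i + Δ i) - a.2.eval x - a.2.D x Δ)) := by
      unfold av aD; ring
    rw [e]
    refine (abs_add_le _ _).trans ?_
    have f1 := abs_sub (a.1.eval z - a.1.eval (fun i => x i + Δ i))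
      (a.2.eval z - a.2.eval (fun i => x i + Δ i))
    have f2 := abs_sub (a.1.eval (fun i => x i + Δ i) - a.1.eval x - a.1.D x Δ)
      (a.2.eval (fun i => x i + Δ i) - a.2.eval x - a.2.D x Δ)
    rw [e4]
    linarith
  refine ⟨hA, ?_⟩
  have e : av z a - av x a = (av z a - av x a - aD x Δ a) + (a.1.D x Δ - a.2.D x Δ) := by
    unfold aD; ring
  rw [e]
  refine (abs_add_le _ _).trans ?_
  have f1 := abs_sub (a.1.D x Δ) (a.2.D x Δ)
  norm_num at e5 e3 ⊢
  norm_num at hA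
  linarith

/-- classification at a perturbed point -/
theorem class_at (p : Form) (n N : ℕ) (hN : p.toks.length ≤ N)
    (hv : ∀ a ∈ p.atoms, VarsLt n a.1 ∧ VarsLt n a.2) (x Δ z : ℕ → ℝ)
    (hx : ∀ i < n, |x i| ≤ 1) (hΔ : ∀ j < n, |Δ j| ≤ 1 / 2 ^ (21 * N + 18))
    (hz : ∀ j < n, |z j - (x j + Δ j)| ≤ 1 / 2 ^ pL N) (i : Fin p.atoms.length) (c : ℝ)
    (hc : |av x (p.atoms.get i)| ≤ 1 → aD x Δ (p.atoms.get i) = c) (r : ℕ) (hr : 1 ≤ r)
    (hr2 : (0:ℝ) < av x (p.atoms.get i) → 1 / 2 ^ r + 1 / 2 ^ pre N ≤ c)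
    (hr3 : av x (p.atoms.get i) < 0 → c ≤ -(1 / 2 ^ r + 1 / 2 ^ pre N)) :
    (av x (p.atoms.get i) = 0 → |av z (p.atoms.get i) - c| ≤ 1 / 2 ^ pre N) ∧
    (0 < av x (p.atoms.get i) → 1 / 2 ^ r ≤ av z (p.atoms.get i)) ∧
    (av x (p.atoms.get i) < 0 → av z (p.atoms.get i) ≤ -(1 / 2 ^ r)) := by
  set a := p.atoms.get i with ha
  have hmem : a ∈ p.atoms := List.get_mem _ _
  obtain ⟨h1, h2⟩ := near_est p n N hN hv x Δ z hx hΔ hz a hmem
  have h1' := abs_le.1 h1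
  have h2' := abs_le.1 h2
  have hr' : (1:ℝ) / 2 ^ r ≤ 1 / 2 := by
    have := inv_pow_mono hr
    rwa [pow_one] at this
  refine ⟨?_, ?_, ?_⟩
  · intro h0
    have h3 := hc (by rw [h0, abs_zero]; norm_num)
    rw [h0, h3] at h1
    simpa using h1
  · intro hp
    by_cases hT : |av x a| ≤ 1
    · have h3 := hc hT
      have h4 := hr2 hp
      rw [h3] at h1'
      linarith [h1'.1]
    · push Not at hT
      rw [abs_of_pos hp] at hT
      linarith [h2'.1]
  · intro hp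
    by_cases hT : |av x a| ≤ 1
    · have h3 := hc hT
      have h4 := hr3 hp
      rw [h3] at h1'
      linarith [h1'.2]
    · push Not at hT
      rw [abs_of_neg hp] at hT
      linarith [h2'.2]

/-- rounding -/
noncomputable def rdz (L : ℕ) (x : ℕ → ℝ) : ℕ → ℤ := fun i => ⌊x i * 2 ^ L⌋

/-- point of an integer vector -/
noncomputable def ptz (L : ℕ) (z : ℕ → ℤ) : ℕ → ℝ := fun i => (z i : ℝ) / 2 ^ L

theorem rdz_close (L : ℕ) (x : ℕ → ℝ) (i : ℕ) : |ptz L (rdz L x) i - x i| ≤ 1 / 2 ^ L := by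
  have hpL : (0:ℝ) < 2 ^ L := by positivity
  have h1 := Int.floor_le (x i * 2 ^ L)
  have h2 := Int.lt_floor_add_one (x i * 2 ^ L)
  have h3 : ptz L (rdz L x) i - x i = ((⌊x i * 2 ^ L⌋ : ℝ) - x i * 2 ^ L) / 2 ^ L := by
    unfold ptz rdz; field_simp
  rw [h3, abs_div, abs_of_pos hpL]
  apply div_le_div_of_nonneg_right _ hpL.le
  rw [abs_le]; constructor <;> linarith

theorem rdz_bound (L : ℕ) (x : ℕ → ℝ) (i : ℕ) (h : |x i| ≤ 3 / 2) (hL : 1 ≤ L) :
    (rdz L x i).natAbs ≤ 2 ^ (L + 1) := by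
  have h1 := rdz_close L x i
  have hpL : (0:ℝ) < 2 ^ L := by positivity
  have h2 : (1:ℝ) / 2 ^ L ≤ 1 / 2 := by
    have := inv_pow_mono hL
    rwa [pow_one] at this
  have h3 : |ptz L (rdz L x) i| ≤ 2 := by
    have := abs_add_le (ptz L (rdz L x) i - x i) (x i)
    simp only [sub_add_cancel] at this
    linarith
  unfold ptz at h3
  rw [abs_div, abs_of_pos hpL, div_le_iff₀ hpL] at h3
  have h4 : (((rdz L x i).natAbs : ℕ) : ℝ) ≤ 2 ^ (L + 1) := by
    rw [Nat.cast_natAbs, pow_succ]; push_cast; linarith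
  exact_mod_cast h4

theorem compl_core (p : Form) (n N : ℕ) (hN : p.toks.length ≤ N)
    (hv : ∀ a ∈ p.atoms, VarsLt n a.1 ∧ VarsLt n a.2) (x : ℕ → ℝ) (hx : ∀ i < n, |x i| ≤ 1)
    (hreg : Regl p n x) :
    ∃ (z0 : ℕ → ℤ) (zy : Fin p.atoms.length → ℕ → ℤ),
      (∀ j < n, (z0 j).natAbs ≤ 2 ^ (pL N + 1)) ∧
      (∀ i, ∀ j < n, (zy i j).natAbs ≤ 2 ^ (pL N + 1)) ∧
      (∀ i, ∀ j < n, |ptz (pL N) (zy i) j - ptz (pL N) z0 j| ≤ 1 / 2 ^ ps N) ∧
      (∀ l, (av x (p.atoms.get l) = 0 → |av (ptz (pL N) z0) (p.atoms.get l)| ≤ 1 / 2 ^ pre N) ∧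
        (0 < av x (p.atoms.get l) → 1 / 2 ^ pr0 N ≤ av (ptz (pL N) z0) (p.atoms.get l)) ∧
        (av x (p.atoms.get l) < 0 → av (ptz (pL N) z0) (p.atoms.get l) ≤ -(1 / 2 ^ pr0 N))) ∧
      (∀ i, av x (p.atoms.get i) = 0 →
        1 / 2 ^ pr1 N ≤ av (ptz (pL N) (zy i)) (p.atoms.get i) ∧
        ∀ l, (av x (p.atoms.get l) = 0 → l ≠ i →
            |av (ptz (pL N) (zy i)) (p.atoms.get l)| ≤ 1 / 2 ^ pre N) ∧
          (0 < av x (p.atoms.get l) → 1 / 2 ^ pr1 N ≤ av (ptz (pL N) (zy i)) (p.atoms.get l)) ∧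
          (av x (p.atoms.get l) < 0 →
            av (ptz (pL N) (zy i)) (p.atoms.get l) ≤ -(1 / 2 ^ pr1 N))) := by
  classical
  obtain ⟨v, hvb, hvd⟩ := dual_exist p n N hN hv x hx hreg
  set δ : ℝ := 1 / 2 ^ (25 * N + 20) with hδ
  set ρ : ℝ := 1 / 2 ^ (37 * N + 28) with hρ
  have hδ0 : 0 < δ := by positivity
  have hρ0 : 0 < ρ := by positivity
  -- sign coefficients
  set c : TT p x → ℝ := fun i => δ * (SignType.sign (av x (p.atoms.get i.1)) : ℝ) with hc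
  have hcb : ∀ i, |c i| ≤ δ := by
    intro i
    simp only [hc]
    rw [abs_mul, abs_of_pos hδ0]
    have : |((SignType.sign (av x (p.atoms.get i.1)) : SignType) : ℝ)| ≤ 1 := by
      rcases SignType.sign (av x (p.atoms.get i.1)) with _ | _ | _ <;> simp
    nlinarith
  set Δ : ℕ → ℝ := fun j => ∑ i, c i * v i j with hΔ
  have hkT : (Fintype.card (TT p x) : ℝ) ≤ 2 ^ N := by
    have h2 : Fintype.card (TT p x) ≤ Fintype.card (Fin p.atoms.length) :=
      Fintype.card_subtype_le _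
    rw [Fintype.card_fin] at h2
    have h3 : Fintype.card (TT p x) ≤ 2 ^ N :=
      (h2.trans ((atoms_len p).trans hN)).trans (Nat.lt_two_pow_self).le
    exact_mod_cast h3
  have hΔb : ∀ j, |Δ j| ≤ 1 / 2 ^ (21 * N + 19) := by
    intro j
    simp only [hΔ]
    refine (Finset.abs_sum_le_sum_abs _ _).trans ?_
    have h1 : ∑ i : TT p x, |c i * v i j| ≤ ∑ _i : TT p x, δ * 2 ^ (3 * N + 1) := by
      refine Finset.sum_le_sum fun i _ => ?_
      rw [abs_mul]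
      exact mul_le_mul (hcb i) (hvb i j) (abs_nonneg _) hδ0.le
    refine h1.trans ?_
    rw [Finset.sum_const, Finset.card_univ, nsmul_eq_mul]
    have h2 := mul_le_mul_of_nonneg_right hkT (show (0:ℝ) ≤ δ * 2 ^ (3 * N + 1) by positivity)
    refine h2.trans (le_of_eq ?_)
    rw [hδ, show 25 * N + 20 = N + (3 * N + 1) + (21 * N + 19) by ring, pow_add 2 (N + (3 * N + 1)),
      pow_add 2 N]
    field_simp
  have hρv : ∀ (e : TT p x) j, |ρ * v e j| ≤ 1 / 2 ^ (34 * N + 27) := by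
    intro e j
    rw [abs_mul, abs_of_pos hρ0]
    have := mul_le_mul_of_nonneg_left (hvb e j) hρ0.le
    refine this.trans (le_of_eq ?_)
    rw [hρ, show 37 * N + 28 = (3 * N + 1) + (34 * N + 27) by ring, pow_add 2 (3 * N + 1)]
    field_simp
  have hΔD : ∀ i : TT p x, aD x Δ (p.atoms.get i.1) = c i := by
    intro i
    have h1 : aD x Δ (p.atoms.get i.1) = ∑ e, c e * aD x (v e) (p.atoms.get i.1) := by
      unfold aD
      rw [hΔ, D_sum, D_sum, ← Finset.sum_sub_distrib]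
      exact Finset.sum_congr rfl fun e _ => by ring
    rw [h1]
    simp only [hvd]
    rw [Finset.sum_eq_single i]
    · simp
    · intro b _ hb; rw [if_neg (Ne.symm hb), mul_zero]
    · intro h; exact absurd (Finset.mem_univ _) h
  -- displacement of the other points
  set Δy : TT p x → ℕ → ℝ := fun e j => Δ j + ρ * v e j with hΔy
  have hΔyD : ∀ e i : TT p x, aD x (Δy e) (p.atoms.get i.1) = c i + if i = e then ρ else 0 := by
    intro e i
    have h1 : aD x (Δy e) (p.atoms.get i.1) = aD x Δ (p.atoms.get i.1) +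
        ρ * aD x (v e) (p.atoms.get i.1) := by
      unfold aD
      simp only [hΔy]
      rw [D_add x Δ (fun j => ρ * v e j), D_add x Δ (fun j => ρ * v e j), D_smul, D_smul]
      ring
    rw [h1, hΔD, hvd]
    split_ifs <;> ring
  have hle1 : (1:ℝ) / 2 ^ (21 * N + 19) + 1 / 2 ^ (34 * N + 27) ≤ 1 / 2 ^ (21 * N + 18) := by
    have h1 : (1:ℝ) / 2 ^ (34 * N + 27) ≤ 1 / 2 ^ (21 * N + 19) := inv_pow_mono (by omega)
    have h2 : (1:ℝ) / 2 ^ (21 * N + 19) + 1 / 2 ^ (21 * N + 19) = 1 / 2 ^ (21 * N + 18) := by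
      rw [pow_succ 2 (21 * N + 18)]; field_simp; norm_num
    linarith
  have hΔ18 : ∀ j, |Δ j| ≤ 1 / 2 ^ (21 * N + 18) := fun j =>
    (hΔb j).trans (inv_pow_mono (by omega))
  have hΔy18 : ∀ e j, |Δy e j| ≤ 1 / 2 ^ (21 * N + 18) := by
    intro e j
    refine (abs_add_le _ _).trans ?_
    have := hΔb j
    have := hρv e j
    linarith
  have hsm : (1:ℝ) / 2 ^ (21 * N + 18) ≤ 1 / 2 := by
    have := inv_pow_mono (show 1 ≤ 21 * N + 18 by omega)
    rwa [pow_one] at this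
  set z0 : ℕ → ℤ := rdz (pL N) (fun j => x j + Δ j) with hz0
  set zy : Fin p.atoms.length → ℕ → ℤ := fun i =>
    if h : |av x (p.atoms.get i)| ≤ 1 then rdz (pL N) (fun j => x j + Δy ⟨i, h⟩ j) else z0 with hzy
  have hpL1 : 1 ≤ pL N := by unfold pL; omega
  have hb0 : ∀ j < n, (z0 j).natAbs ≤ 2 ^ (pL N + 1) := by
    intro j hj
    refine rdz_bound _ _ _ ?_ hpL1
    refine (abs_add_le _ _).trans ?_
    have := hx j hj
    have := hΔ18 j
    linarith
  have hcl0 : ∀ j < n, |ptz (pL N) z0 j - (x j + Δ j)| ≤ 1 / 2 ^ pL N := fun j _ =>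
    rdz_close (pL N) (fun j => x j + Δ j) j
  -- numerical facts
  have nf1 : (1:ℝ) / 2 ^ pr0 N + 1 / 2 ^ pre N ≤ δ := by
    have h1 : (1:ℝ) / 2 ^ pre N ≤ 1 / 2 ^ (25 * N + 21) := inv_pow_mono (by unfold pre; omega)
    have h2 : (1:ℝ) / 2 ^ (25 * N + 21) + 1 / 2 ^ (25 * N + 21) = δ := by
      rw [hδ, pow_succ 2 (25 * N + 20)]; field_simp; norm_num
    have h3 : (1:ℝ) / 2 ^ pr0 N = 1 / 2 ^ (25 * N + 21) := rfl
    linarith
  have nf2 : (1:ℝ) / 2 ^ pr1 N + 1 / 2 ^ pre N ≤ ρ := by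
    have h1 : (1:ℝ) / 2 ^ pre N ≤ 1 / 2 ^ (37 * N + 29) := inv_pow_mono (by unfold pre; omega)
    have h2 : (1:ℝ) / 2 ^ (37 * N + 29) + 1 / 2 ^ (37 * N + 29) = ρ := by
      rw [hρ, pow_succ 2 (37 * N + 28)]; field_simp; norm_num
    have h3 : (1:ℝ) / 2 ^ pr1 N = 1 / 2 ^ (37 * N + 29) := rfl
    linarith
  have nf3 : (1:ℝ) / 2 ^ pr1 N ≤ 1 / 2 ^ pr0 N := inv_pow_mono (by unfold pr0 pr1; omega)
  have csgn : ∀ i : TT p x, (av x (p.atoms.get i.1) = 0 → c i = 0) ∧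
      (0 < av x (p.atoms.get i.1) → c i = δ) ∧ (av x (p.atoms.get i.1) < 0 → c i = -δ) := by
    intro i
    refine ⟨fun h => ?_, fun h => ?_, fun h => ?_⟩
    · simp only [hc, h, sign_zero]; simp
    · simp only [hc, sign_pos h]; simp
    · simp only [hc, sign_neg h]; simp
  refine ⟨z0, zy, hb0, ?_, ?_, ?_, ?_⟩
  · intro i j hj
    simp only [hzy]
    split_ifs with h
    · refine rdz_bound _ _ _ ?_ hpL1
      refine (abs_add_le _ _).trans ?_
      have := hx j hj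
      have := hΔy18 ⟨i, h⟩ j
      linarith
    · exact hb0 j hj
  · intro i j hj
    simp only [hzy]
    split_ifs with h
    · have h1 := hcl0 j hj
      have h2 : |ptz (pL N) (rdz (pL N) (fun j => x j + Δy ⟨i, h⟩ j)) j -
        (x j + Δy ⟨i, h⟩ j)| ≤ 1 / 2 ^ pL N :=
        rdz_close (pL N) (fun j => x j + Δy ⟨i, h⟩ j) j
      have h3 := hρv ⟨i, h⟩ j
      have h4 : (x j + Δy ⟨i, h⟩ j) - (x j + Δ j) = ρ * v ⟨i, h⟩ j := by
        simp only [hΔy]; ring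
      have h5 : (1:ℝ) / 2 ^ pL N ≤ 1 / 2 ^ (34 * N + 28) := inv_pow_mono (by unfold pL; omega)
      have h6 : (1:ℝ) / 2 ^ (34 * N + 28) + 1 / 2 ^ (34 * N + 28) = 1 / 2 ^ (34 * N + 27) := by
        rw [pow_succ 2 (34 * N + 27)]; field_simp; norm_num
      have h7 : (1:ℝ) / 2 ^ (34 * N + 27) + 1 / 2 ^ (34 * N + 27) = 1 / 2 ^ ps N := by
        unfold ps; rw [pow_succ 2 (34 * N + 26)]; field_simp; norm_num
      rw [← h4] at h3
      have a1 := abs_le.1 h1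
      have a2 := abs_le.1 h2
      have a3 := abs_le.1 h3
      rw [abs_le]
      constructor <;> linarith [a1.1, a1.2, a2.1, a2.2, a3.1, a3.2]
    · rw [sub_self, abs_zero]; positivity
  · intro l
    have h1 := class_at p n N hN hv x Δ (ptz (pL N) z0) hx (fun j _ => hΔ18 j) hcl0 l
      (if h : |av x (p.atoms.get l)| ≤ 1 then c ⟨l, h⟩ else
        δ * (SignType.sign (av x (p.atoms.get l)) : ℝ))
      (by intro h; rw [dif_pos h]; exact hΔD ⟨l, h⟩) (pr0 N) (by unfold pr0; omega)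
      (by
        intro hp
        have : (if h : |av x (p.atoms.get l)| ≤ 1 then c ⟨l, h⟩ else
          δ * (SignType.sign (av x (p.atoms.get l)) : ℝ)) = δ := by
          split_ifs with h
          · exact (csgn ⟨l, h⟩).2.1 hp
          · rw [sign_pos hp]; simp
        rw [this]; exact nf1)
      (by
        intro hp
        have : (if h : |av x (p.atoms.get l)| ≤ 1 then c ⟨l, h⟩ else
          δ * (SignType.sign (av x (p.atoms.get l)) : ℝ)) = -δ := by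
          split_ifs with h
          · exact (csgn ⟨l, h⟩).2.2 hp
          · rw [sign_neg hp]; simp
        rw [this]; linarith)
    refine ⟨fun h0 => ?_, h1.2.1, h1.2.2⟩
    have h2 := h1.1 h0
    have hle : |av x (p.atoms.get l)| ≤ 1 := by rw [h0, abs_zero]; norm_num
    rw [dif_pos hle, (csgn ⟨l, hle⟩).1 h0, sub_zero] at h2
    exact h2
  · intro i hi
    have hle : |av x (p.atoms.get i)| ≤ 1 := by rw [hi, abs_zero]; norm_num
    have hzi : zy i = rdz (pL N) (fun j => x j + Δy ⟨i, hle⟩ j) := by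
      simp only [hzy]; rw [dif_pos hle]
    have hcl : ∀ j < n, |ptz (pL N) (zy i) j - (x j + Δy ⟨i, hle⟩ j)| ≤ 1 / 2 ^ pL N := by
      intro j _
      rw [hzi]
      exact rdz_close (pL N) (fun j => x j + Δy ⟨i, hle⟩ j) j
    have key : ∀ l : Fin p.atoms.length, l ≠ i → ∀ C : ℝ,
        (C = if h : |av x (p.atoms.get l)| ≤ 1 then c ⟨l, h⟩ else
          δ * (SignType.sign (av x (p.atoms.get l)) : ℝ)) →
        (0 < av x (p.atoms.get l) → C = δ) ∧ (av x (p.atoms.get l) < 0 → C = -δ) ∧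
        (av x (p.atoms.get l) = 0 → C = 0) ∧
        (|av x (p.atoms.get l)| ≤ 1 → aD x (Δy ⟨i, hle⟩) (p.atoms.get l) = C) := by
      intro l hl C hC
      rw [hC]
      refine ⟨fun hp => ?_, fun hp => ?_, fun hp => ?_, fun hp => ?_⟩
      · split_ifs with h
        · exact (csgn ⟨l, h⟩).2.1 hp
        · rw [sign_pos hp]; simp
      · split_ifs with h
        · exact (csgn ⟨l, h⟩).2.2 hp
        · rw [sign_neg hp]; simp
      · split_ifs with h
        · exact (csgn ⟨l, h⟩).1 hp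
        · rw [hp, sign_zero]; simp
      · rw [dif_pos hp, hΔyD ⟨i, hle⟩ ⟨l, hp⟩]
        rw [if_neg (by intro h; exact hl (congrArg Subtype.val h)), add_zero]
    have key2 : ∀ l : Fin p.atoms.length, l ≠ i →
        (av x (p.atoms.get l) = 0 →
            |av (ptz (pL N) (zy i)) (p.atoms.get l)| ≤ 1 / 2 ^ pre N) ∧
          (0 < av x (p.atoms.get l) → 1 / 2 ^ pr1 N ≤ av (ptz (pL N) (zy i)) (p.atoms.get l)) ∧
          (av x (p.atoms.get l) < 0 →
            av (ptz (pL N) (zy i)) (p.atoms.get l) ≤ -(1 / 2 ^ pr1 N)) := by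
      intro l hl
      obtain ⟨k1, k2, k3, k4⟩ := key l hl _ rfl
      have h1 := class_at p n N hN hv x (Δy ⟨i, hle⟩) (ptz (pL N) (zy i)) hx
        (fun j _ => hΔy18 _ j) hcl l _ k4 (pr1 N) (by unfold pr1; omega)
        (by intro hp; rw [k1 hp]; linarith)
        (by intro hp; rw [k2 hp]; linarith)
      refine ⟨fun h0 => ?_, h1.2.1, h1.2.2⟩
      have h2 := h1.1 h0
      rw [k3 h0, sub_zero] at h2
      exact h2
    refine ⟨?_, fun l => ?_⟩
    · have h1 := class_at p n N hN hv x (Δy ⟨i, hle⟩) (ptz (pL N) (zy i)) hx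
        (fun j _ => hΔy18 _ j) hcl i ρ (by
          intro _
          rw [hΔyD ⟨i, hle⟩ ⟨i, hle⟩, if_pos rfl, (csgn ⟨i, hle⟩).1 hi, zero_add]) (pr1 N)
        (by unfold pr1; omega)
        (by intro hp; rw [hi] at hp; exact absurd hp (lt_irrefl _))
        (by intro hp; rw [hi] at hp; exact absurd hp (lt_irrefl _))
      have h2 := abs_le.1 (h1.1 hi)
      linarith [h2.1]
    · by_cases hl : l = i
      · subst hl
        refine ⟨fun _ h => absurd rfl h, fun h => ?_, fun h => ?_⟩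
        · rw [hi] at h; exact absurd h (lt_irrefl _)
        · rw [hi] at h; exact absurd h (lt_irrefl _)
      · obtain ⟨k1, k2, k3⟩ := key2 l hl
        exact ⟨fun h _ => k1 h, k2, k3⟩

end Pool.Agent.Helper54.ETR
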