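import Mathlib

open Finset

namespace Pool.Agent.Helper54.Count

variable {C V : Type} [Fintype C] [DecidableEq C] [Fintype V] [DecidableEq V]

theorem fiber_count (c : C) (R : (C → V) → Prop) [DecidablePred R] :
    (univ.filter fun z : (C → V) × V => R (Function.update z.1 c z.2)).card =
      (univ.filter fun a : C → V => R a).card * Fintype.card V := by
  have h1 : (univ.filter fun a : C → V => R a).card * Fintype.card V =
      ((univ.filter fun a : C → V => R a) ×ˢ (univ : Finset V)).card := by
    rw [Finset.card_product, Finset.card_univ]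
  rw [h1]
  refine Finset.card_bij' (fun z _ => (Function.update z.1 c z.2, z.1 c))
    (fun z _ => (Function.update z.1 c z.2, z.1 c)) ?_ ?_ ?_ ?_
  · rintro ⟨a, v⟩ h
    simp only [Finset.mem_filter, Finset.mem_univ, true_and, Finset.mem_product, and_true] at h ⊢
    exact h
  · rintro ⟨a, v⟩ h
    simp only [Finset.mem_filter, Finset.mem_univ, true_and, Finset.mem_product, and_true] at h ⊢
    simpa using h
  · rintro ⟨a, v⟩ _
    simp
  · rintro ⟨a, v⟩ _
    simp

/-- one test -/
theorem one_test (c : C) (P Q : (C → V) → Prop) [DecidablePred P] [DecidablePred Q] (hP : ∀ a v, P (Function.update a c v) ↔ P a)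
    (N : ℕ) (hQ : ∀ a, (univ.filter fun v : V => Q (Function.update a c v)).card ≤ N) :
    (univ.filter fun a : C → V => P a ∧ Q a).card * Fintype.card V ≤
      N * (univ.filter fun a : C → V => P a).card := by
  rw [← fiber_count c (fun a => P a ∧ Q a)]
  have h1 : (univ.filter fun z : (C → V) × V => P (Function.update z.1 c z.2) ∧
      Q (Function.update z.1 c z.2)) =
      ((univ.filter fun a : C → V => P a) ×ˢ (univ : Finset V)).filter
        (fun z => Q (Function.update z.1 c z.2)) := by
    ext ⟨a, v⟩
    simp only [Finset.mem_filter, Finset.mem_univ, true_and, Finset.mem_product, and_true, hP]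
  rw [h1, Finset.card_filter, Finset.sum_product]
  have h2 : ∀ a : C → V, ∑ v : V, (if Q (Function.update a c v) then 1 else 0) =
      (univ.filter fun v : V => Q (Function.update a c v)).card := by
    intro a; rw [Finset.card_filter]
  simp only [h2]
  refine (Finset.sum_le_sum fun a _ => hQ a).trans ?_
  rw [Finset.sum_const, smul_eq_mul, mul_comm]

/-- several independent tests -/
theorem tests {I : Type} [DecidableEq I] (cc : I → C) (D : Finset I) (P : (C → V) → Prop)
    (Q : I → (C → V) → Prop) [DecidablePred P] [∀ i, DecidablePred (Q i)]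
    (hP : ∀ i ∈ D, ∀ a v, P (Function.update a (cc i) v) ↔ P a)
    (hQi : ∀ i ∈ D, ∀ j ∈ D, i ≠ j → ∀ a v, Q j (Function.update a (cc i) v) ↔ Q j a) (N : ℕ)
    (hQ : ∀ i ∈ D, ∀ a, (univ.filter fun v : V => Q i (Function.update a (cc i) v)).card ≤ N) :
    (univ.filter fun a : C → V => P a ∧ ∀ i ∈ D, Q i a).card * Fintype.card V ^ D.card ≤
      N ^ D.card * (univ.filter fun a : C → V => P a).card := by
  induction D using Finset.induction_on with
  | empty => simp
  | insert i D hi ih =>
    have ih' := ih (fun j hj => hP j (Finset.mem_insert_of_mem hj))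
      (fun j hj k hk => hQi j (Finset.mem_insert_of_mem hj) k (Finset.mem_insert_of_mem hk))
      (fun j hj => hQ j (Finset.mem_insert_of_mem hj))
    have h1 := one_test (cc i) (fun a => P a ∧ ∀ j ∈ D, Q j a) (Q i) (by
      intro a v
      rw [hP i (Finset.mem_insert_self _ _)]
      apply and_congr_right
      intro _
      refine forall₂_congr fun j hj => ?_
      exact hQi i (Finset.mem_insert_self _ _) j (Finset.mem_insert_of_mem hj)
        (fun h => hi (h ▸ hj)) a v) N (hQ i (Finset.mem_insert_self _ _))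
    have h2 : (univ.filter fun a : C → V => P a ∧ ∀ j ∈ insert i D, Q j a) =
        univ.filter fun a : C → V => (P a ∧ ∀ j ∈ D, Q j a) ∧ Q i a := by
      ext a
      simp only [Finset.mem_filter, Finset.mem_univ, true_and, Finset.mem_insert,
        forall_eq_or_imp]
      tauto
    rw [h2, Finset.card_insert_of_notMem hi, pow_succ, pow_succ]
    calc (univ.filter fun a : C → V => (P a ∧ ∀ j ∈ D, Q j a) ∧ Q i a).card *
          (Fintype.card V ^ D.card * Fintype.card V)
        = ((univ.filter fun a : C → V => (P a ∧ ∀ j ∈ D, Q j a) ∧ Q i a).card *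
          Fintype.card V) * Fintype.card V ^ D.card := by ring
      _ ≤ (N * (univ.filter fun a : C → V => P a ∧ ∀ j ∈ D, Q j a).card) *
          Fintype.card V ^ D.card := Nat.mul_le_mul_right _ h1
      _ = N * ((univ.filter fun a : C → V => P a ∧ ∀ j ∈ D, Q j a).card *
          Fintype.card V ^ D.card) := by ring
      _ ≤ N * (N ^ D.card * (univ.filter fun a : C → V => P a).card) := Nat.mul_le_mul_left _ ih'
      _ = _ := by ring

open Classical in
/-- at most five integers of a residue window -/
theorem window (M : ℕ) (y : ℝ) :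
    (univ.filter fun v : Fin M => |y + (v : ℕ)| ≤ 2).card ≤ 5 := by
  have h1 : (univ.filter fun v : Fin M => |y + (v : ℕ)| ≤ 2).card =
      ((univ.filter fun v : Fin M => |y + (v : ℕ)| ≤ 2).image
        (fun v : Fin M => ((v : ℕ) : ℤ))).card := by
    rw [Finset.card_image_of_injective]
    intro a b h
    have h' : ((a : ℕ) : ℤ) = ((b : ℕ) : ℤ) := h
    exact Fin.ext (by exact_mod_cast h')
  rw [h1]
  have h2 : (univ.filter fun v : Fin M => |y + (v : ℕ)| ≤ 2).image
      (fun v : Fin M => ((v : ℕ) : ℤ)) ⊆ Finset.Icc ⌈-y - 2⌉ (⌈-y - 2⌉ + 4) := by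
    intro z hz
    rw [Finset.mem_image] at hz
    obtain ⟨v, hv, rfl⟩ := hz
    simp only [Finset.mem_filter, Finset.mem_univ, true_and] at hv
    have h3 := abs_le.1 hv
    rw [Finset.mem_Icc]
    constructor
    · rw [Int.ceil_le]
      push_cast
      linarith [h3.1]
    · have h4 : (-y - 2 : ℝ) ≤ ⌈-y - 2⌉ := Int.le_ceil _
      have h5 : ((v : ℕ) : ℝ) ≤ (⌈-y - 2⌉ : ℝ) + 4 := by linarith [h3.2]
      exact_mod_cast h5
  refine (Finset.card_le_card h2).trans ?_
  rw [Int.card_Icc]
  omega

theorem nc {α : Type} [Fintype α] (P : α → Prop) [DecidablePred P] :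
    {a | P a}.ncard = (univ.filter P).card := by
  rw [Set.ncard_eq_toFinset_card']
  congr 1
  ext a; simp

theorem tests' {I : Type} (cc : I → C) (D : Finset I) (P : (C → V) → Prop)
    (Q : I → (C → V) → Prop)
    (hP : ∀ i ∈ D, ∀ a v, P (Function.update a (cc i) v) ↔ P a)
    (hQi : ∀ i ∈ D, ∀ j ∈ D, i ≠ j → ∀ a v, Q j (Function.update a (cc i) v) ↔ Q j a) (N : ℕ)
    (hQ : ∀ i ∈ D, ∀ a, {v : V | Q i (Function.update a (cc i) v)}.ncard ≤ N) :
    {a : C → V | P a ∧ ∀ i ∈ D, Q i a}.ncard * Fintype.card V ^ D.card ≤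
      N ^ D.card * {a : C → V | P a}.ncard := by
  classical
  rw [nc, nc]
  exact tests cc D P Q hP hQi N fun i hi a => by
    have := hQ i hi a
    rwa [nc] at this

theorem window' (M : ℕ) (y : ℝ) : {v : Fin M | |y + (v : ℕ)| ≤ 2}.ncard ≤ 5 := by
  classical
  rw [nc]
  exact window M y

end Pool.Agent.Helper54.Count
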