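import Pool.Agent.Helper54.ETRDefs

namespace Pool.Agent.Helper54.ETR

/-- All variables of the term are among `x_0, …, x_{n-1}`. -/
def Term.InVars (n : ℕ) : Term → Prop
  | zero => True
  | one => True
  | var i => i < n
  | add s t => s.InVars n ∧ t.InVars n
  | sub s t => s.InVars n ∧ t.InVars n
  | mul s t => s.InVars n ∧ t.InVars n

/-- All variables of the formula are among `x_0, …, x_{n-1}`. -/
def Form.InVars (n : ℕ) (p : Form) : Prop := ∀ a ∈ p.atoms, a.1.InVars n ∧ a.2.InVars n

/-- A term with value `2 ^ m`. -/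
def pw : ℕ → Term
  | 0 => Term.one
  | m + 1 => Term.mul (Term.add Term.one Term.one) (pw m)

/-- A term with value `v` for `v < 2 ^ K`, written in binary. -/
def num : ℕ → ℕ → Term
  | 0, _ => Term.zero
  | K + 1, v => Term.add (Term.mul (Term.add Term.one Term.one) (num K (v / 2)))
      (if v % 2 = 1 then Term.one else Term.zero)

/-- The affine term `b + c 0 * x_0 + … + c (n-1) * x_{n-1}` with coefficients below `2 ^ K`. -/
def aff (K : ℕ) (c : ℕ → ℕ) (b : ℕ) : ℕ → Term
  | 0 => num K b
  | j + 1 => Term.add (Term.mul (num K (c j)) (Term.var j)) (aff K c b j)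

/-- Replace the `l`-th atomic formula `s ~ t` (counted from `i`) by `2 ^ m * s + P l ~ 2 ^ m * t`. -/
def Form.pert (m : ℕ) (P : ℕ → Term) : Form → ℕ → Form
  | lt s t, i => lt (Term.add (Term.mul (pw m) s) (P i)) (Term.mul (pw m) t)
  | le s t, i => le (Term.add (Term.mul (pw m) s) (P i)) (Term.mul (pw m) t)
  | eq s t, i => eq (Term.add (Term.mul (pw m) s) (P i)) (Term.mul (pw m) t)
  | ge s t, i => ge (Term.add (Term.mul (pw m) s) (P i)) (Term.mul (pw m) t)
  | gt s t, i => gt (Term.add (Term.mul (pw m) s) (P i)) (Term.mul (pw m) t)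
  | and p q, i => and (p.pert m P i) (q.pert m P (i + p.atoms.length))
  | or p q, i => or (p.pert m P i) (q.pert m P (i + p.atoms.length))
  | not p, i => not (p.pert m P i)

/-- The perturbation of `φ` with magnitude `2 ^ (-q)` and precision `K`: the `l`-th atomic formula
`s ~ t` becomes `s + 2 ^ (-q) * (∑_{j<n} (a (l, j) / 2 ^ K) * x_j + a (l, n) / 2 ^ K) ~ t`,
multiplied by `2 ^ (K + q)`. -/
def Form.smooth (φ : Form) (n q K : ℕ)
    (a : Fin φ.atoms.length × Fin (n + 1) → Fin (2 ^ K)) : Form :=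
  φ.pert (K + q) (fun l => aff K
    (fun j => if h : l < φ.atoms.length ∧ j < n + 1 then (a (⟨l, h.1⟩, ⟨j, h.2⟩) : ℕ) else 0)
    (if h : l < φ.atoms.length then (a (⟨l, h⟩, Fin.last n) : ℕ) else 0) n) 0

end Pool.Agent.Helper54.ETR
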