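import Pool.Agent.Helper54.Sm.Compl

open Pool.Agent.Helper54.Poly

namespace Pool.Agent.Helper54.ETR

/-- what a class says about the value -/
theorem kcls_val (c : Ctx) (a : Term × Term) (k : Bool × Bool) (h : kcls c a.1 a.2 = some k) :
    (sgOf k = 0 → |av (xx c) a| ≤ 1 / 2 ^ c.2.2.2) ∧
    (sgOf k = 1 → 1 / 2 ^ c.2.2.1 ≤ av (xx c) a) ∧
    (sgOf k = -1 → av (xx c) a ≤ -(1 / 2 ^ c.2.2.1)) := by
  obtain ⟨u, w, hu, hw, hcl⟩ := kcls_dec h
  have hv := tdiff_sem c _ _ _ _ hu hw
  set d := tadd c u (tswap w) with hd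
  set v : ℝ := a.1.eval (xx c) - a.2.eval (xx c) with hvdef
  have hav : av (xx c) a = v := rfl
  rw [hav]
  set T : ℝ := 2 ^ (c.2.1 * d.2.2.1) with hT
  have hT0 : 0 < T := by positivity
  have hR0 : (0:ℝ) < 2 ^ c.2.2.1 := by positivity
  have hE0 : (0:ℝ) < 2 ^ c.2.2.2 := by positivity
  unfold cls0 at hcl
  split_ifs at hcl with h1 h2 h3
  · simp only [Option.some.injEq] at hcl; subst hcl
    rw [decide_eq_true_eq] at h1
    have h4 : T + (d.1.n : ℝ) * 2 ^ c.2.2.1 ≤ (d.2.1.n : ℝ) * 2 ^ c.2.2.1 := by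
      rw [hT]; exact_mod_cast h1
    have h5 : T * (2 ^ c.2.2.1 * v + 1) ≤ 0 := by
      have : T * (2 ^ c.2.2.1 * v + 1) = T + ((d.1.n : ℝ) - d.2.1.n) * 2 ^ c.2.2.1 := by
        rw [hv]; ring
      rw [this]; linarith
    have h6 : 2 ^ c.2.2.1 * v + 1 ≤ 0 := by
      by_contra hc; push Not at hc
      have := mul_pos hT0 hc
      linarith
    refine ⟨fun h => by simp [sgOf] at h, fun h => by simp [sgOf] at h, fun _ => ?_⟩
    rw [← sub_nonneg]
    have : -(1 / 2 ^ c.2.2.1) - v = -(2 ^ c.2.2.1 * v + 1) / 2 ^ c.2.2.1 := by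
      field_simp; ring
    rw [this]
    exact div_nonneg (by linarith) hR0.le
  · simp only [Option.some.injEq] at hcl; subst hcl
    rw [decide_eq_true_eq] at h2
    have h4 : T + (d.2.1.n : ℝ) * 2 ^ c.2.2.1 ≤ (d.1.n : ℝ) * 2 ^ c.2.2.1 := by
      rw [hT]; exact_mod_cast h2
    have h5 : T * (-(2 ^ c.2.2.1 * v) + 1) ≤ 0 := by
      have : T * (-(2 ^ c.2.2.1 * v) + 1) = T - ((d.1.n : ℝ) - d.2.1.n) * 2 ^ c.2.2.1 := by
        rw [hv]; ring
      rw [this]; linarith
    have h6 : -(2 ^ c.2.2.1 * v) + 1 ≤ 0 := by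
      by_contra hc; push Not at hc
      have := mul_pos hT0 hc
      linarith
    refine ⟨fun h => by simp [sgOf] at h, fun _ => ?_, fun h => by simp [sgOf] at h⟩
    rw [div_le_iff₀ hR0]
    linarith
  · simp only [Option.some.injEq] at hcl; subst hcl
    rw [Bool.and_eq_true, decide_eq_true_eq, decide_eq_true_eq] at h3
    have h4 : (d.1.n : ℝ) * 2 ^ c.2.2.2 ≤ (d.2.1.n : ℝ) * 2 ^ c.2.2.2 + T := by
      rw [hT]; exact_mod_cast h3.1
    have h5 : (d.2.1.n : ℝ) * 2 ^ c.2.2.2 ≤ (d.1.n : ℝ) * 2 ^ c.2.2.2 + T := by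
      rw [hT]; exact_mod_cast h3.2
    have h6 : T * (v * 2 ^ c.2.2.2) ≤ T * 1 := by
      have : T * (v * 2 ^ c.2.2.2) = ((d.1.n : ℝ) - d.2.1.n) * 2 ^ c.2.2.2 := by
        rw [hv]; ring
      rw [this]; linarith
    have h7 : T * (-(v * 2 ^ c.2.2.2)) ≤ T * 1 := by
      have : T * (-(v * 2 ^ c.2.2.2)) = -(((d.1.n : ℝ) - d.2.1.n) * 2 ^ c.2.2.2) := by
        rw [hv]; ring
      rw [this]; linarith
    have h8 := le_of_mul_le_mul_left h6 hT0
    have h9 := le_of_mul_le_mul_left h7 hT0
    refine ⟨fun _ => ?_, fun h => by simp [sgOf] at h, fun h => by simp [sgOf] at h⟩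
    rw [le_div_iff₀ hE0]
    have : |v| * 2 ^ c.2.2.2 = |v * 2 ^ c.2.2.2| := by rw [abs_mul, abs_of_pos hE0]
    rw [this, abs_le]
    constructor <;> linarith

/-- classes exist when the value is well separated -/
theorem kcls_ex (c : Ctx) (a : Term × Term) (s : SignType) (h1 : VarsLt c.1.length a.1)
    (h2 : VarsLt c.1.length a.2) (hre : c.2.2.1 + 1 ≤ c.2.2.2)
    (hz : s = 0 → |av (xx c) a| ≤ 1 / 2 ^ c.2.2.2)
    (hp : s = 1 → 1 / 2 ^ c.2.2.1 ≤ av (xx c) a)
    (hn : s = -1 → av (xx c) a ≤ -(1 / 2 ^ c.2.2.1)) :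
    ∃ k, kcls c a.1 a.2 = some k ∧ sgOf k = s := by
  obtain ⟨u, hu⟩ := tval_ex c a.1 h1
  obtain ⟨w, hw⟩ := tval_ex c a.2 h2
  have hR0 : (0:ℝ) < 2 ^ c.2.2.1 := by positivity
  have hE0 : (0:ℝ) < 2 ^ c.2.2.2 := by positivity
  obtain ⟨k, hk1, hk2⟩ := cls0_complete c _ _ (tdiff_sem c _ _ _ _ hu hw) s hre
    (by
      intro hs
      have := hn hs
      unfold av at this
      have h3 := mul_le_mul_of_nonneg_left this hR0.le
      refine h3.trans (le_of_eq ?_)
      field_simp)
    (by
      intro hs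
      have := hp hs
      unfold av at this
      have h3 := mul_le_mul_of_nonneg_left this hR0.le
      refine le_trans (le_of_eq ?_) h3
      field_simp)
    (by
      intro hs
      have := hz hs
      unfold av at this
      rwa [le_div_iff₀ hE0] at this)
  exact ⟨k, by simp only [kcls, hu, hw, hk1], hk2⟩

/-! ### lists of classes -/

/-- replace comparisons by `g` and erase connectives -/
def atk1 (g : Tok) : Tok → List Tok
  | Tok.and => []
  | Tok.or => []
  | Tok.not => []
  | Tok.lt => [g]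
  | Tok.le => [g]
  | Tok.eq => [g]
  | Tok.ge => [g]
  | Tok.gt => [g]
  | t => [t]

def atk (g : Tok) (l : List Tok) : List Tok := l.flatMap (atk1 g)

theorem atk_term (g : Tok) (t : Term) : atk g t.toks = t.toks := by
  unfold atk
  induction t with
  | zero => rfl
  | one => rfl
  | var i =>
    simp only [Term.toks, List.flatMap_cons, List.flatMap_append, atk1]
    have : (List.replicate i Tok.s).flatMap (atk1 g) = List.replicate i Tok.s := by
      induction i with
      | zero => rfl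
      | succ i ih => rw [List.replicate_succ, List.flatMap_cons, ih]; rfl
    rw [this]; rfl
  | add s t ihs iht | sub s t ihs iht | mul s t ihs iht =>
    simp only [Term.toks, List.flatMap_cons, List.flatMap_append, ihs, iht]; rfl

theorem atk_form (g : Tok) (p : Form) :
    atk g p.toks = p.atoms.flatMap fun a => g :: (a.1.toks ++ a.2.toks) := by
  induction p with
  | lt s t | le s t | eq s t | ge s t | gt s t =>
    have hs := atk_term g s
    have ht := atk_term g t
    unfold atk at *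
    simp only [Form.toks, Form.atoms, List.flatMap_cons, List.flatMap_append, List.flatMap_nil,
      hs, ht, List.append_nil]
    rfl
  | and p q ihp ihq | or p q ihp ihq =>
    unfold atk at *
    simp only [Form.toks, Form.atoms, List.flatMap_cons, List.flatMap_append, ihp, ihq]; rfl
  | not p ihp =>
    unfold atk at *
    simp only [Form.toks, Form.atoms, List.flatMap_cons, ihp]; rfl

/-- truth values of the atoms with all comparisons replaced by `g` -/
def clsL (c : Ctx) (g : Tok) (toks : List Tok) : List Bool :=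
  match veval c (atk g toks) with
  | none => []
  | some st => st.map fun v => v.2.2.2.1

theorem parse_atoms (g : Tok) (F : Term → Term → Form)
    (hF : ∀ s t st, pstep g (Ob.tm s :: Ob.tm t :: st) = some (Ob.fm (F s t) :: st))
    (l : List (Term × Term)) :
    parse (l.flatMap fun a => g :: (a.1.toks ++ a.2.toks)) =
      some (l.map fun a => Ob.fm (F a.1 a.2)) := by
  induction l with
  | nil => rfl
  | cons a l ih =>
    rw [List.flatMap_cons, List.cons_append, List.append_assoc, parse_cons,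
      parse_term _ _ _ (parse_term _ _ _ ih), List.map_cons]
    exact hF _ _ _

/-- class of an atom, with a default value -/
def kk (c : Ctx) (a : Term × Term) : Bool × Bool := (kcls c a.1 a.2).getD (false, false)

theorem ovals_atoms (c : Ctx) (F : Term → Term → Form) (G : Bool × Bool → Bool)
    (hG : ∀ s t, fval c (F s t) = aval G c s t) (l : List (Term × Term)) (vs : List Val)
    (h : ovals c (l.map fun a => Ob.fm (F a.1 a.2)) = some vs) :
    (∀ a ∈ l, ∃ k, kcls c a.1 a.2 = some k) ∧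
      (vs.map fun v => v.2.2.2.1) = l.map fun a => G (kk c a) := by
  induction l generalizing vs with
  | nil =>
    simp only [List.map_nil, ovals, Option.some.injEq] at h
    subst h
    exact ⟨by simp, rfl⟩
  | cons a l ih =>
    rw [List.map_cons] at h
    obtain ⟨v, vs', h1, h2, rfl⟩ := ovals_cons h
    obtain ⟨r, hr, rfl⟩ := oval_fm h1
    obtain ⟨h3, h4⟩ := ih vs' h2
    rw [hG] at hr
    obtain ⟨k, hk, _, hrk⟩ := aval_sem hr
    refine ⟨?_, ?_⟩
    · intro b hb
      rcases List.mem_cons.1 hb with rfl | hb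
      · exact ⟨k, hk⟩
      · exact h3 b hb
    · rw [List.map_cons, List.map_cons, h4]
      congr 1
      have : kk c a = k := by unfold kk; rw [hk]; rfl
      rw [this, hrk]; rfl

theorem ovals_atoms_ex (c : Ctx) (F : Term → Term → Form) (G : Bool × Bool → Bool)
    (hG : ∀ s t, fval c (F s t) = aval G c s t) (l : List (Term × Term))
    (h : ∀ a ∈ l, (∃ k, kcls c a.1 a.2 = some k) ∧ atomDeg (XX c) a ≤ 2) :
    ∃ vs, ovals c (l.map fun a => Ob.fm (F a.1 a.2)) = some vs := by
  induction l with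
  | nil => exact ⟨_, rfl⟩
  | cons a l ih =>
    obtain ⟨vs, hvs⟩ := ih fun b hb => h b (List.mem_cons_of_mem _ hb)
    obtain ⟨⟨k, hk⟩, hd⟩ := h a List.mem_cons_self
    obtain ⟨r, hr⟩ := aval_ex (g := G) hk hd
    refine ⟨vfm r :: vs, ?_⟩
    rw [List.map_cons]
    refine ovals_mk ?_ hvs
    simp only [oval, hG, hr]

theorem clsL_sem (c : Ctx) (g : Tok) (F : Term → Term → Form) (G : Bool × Bool → Bool)
    (hF : ∀ s t st, pstep g (Ob.tm s :: Ob.tm t :: st) = some (Ob.fm (F s t) :: st))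
    (hG : ∀ s t, fval c (F s t) = aval G c s t) (p : Form) (h : clsL c g p.toks ≠ []) :
    (∀ a ∈ p.atoms, ∃ k, kcls c a.1 a.2 = some k) ∧
      clsL c g p.toks = p.atoms.map fun a => G (kk c a) := by
  have h1 : veval c (atk g p.toks) = ovals c (p.atoms.map fun a => Ob.fm (F a.1 a.2)) := by
    rw [veval_eq, atk_form, parse_atoms g F hF]; rfl
  unfold clsL at h ⊢
  rw [h1] at h ⊢
  cases h2 : ovals c (p.atoms.map fun a => Ob.fm (F a.1 a.2)) with
  | none => rw [h2] at h; exact absurd rfl h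
  | some vs => exact ovals_atoms c F G hG _ vs h2

theorem clsL_ex (c : Ctx) (g : Tok) (F : Term → Term → Form) (G : Bool × Bool → Bool)
    (hF : ∀ s t st, pstep g (Ob.tm s :: Ob.tm t :: st) = some (Ob.fm (F s t) :: st))
    (hG : ∀ s t, fval c (F s t) = aval G c s t) (p : Form)
    (h : ∀ a ∈ p.atoms, (∃ k, kcls c a.1 a.2 = some k) ∧ atomDeg (XX c) a ≤ 2) :
    clsL c g p.toks = p.atoms.map fun a => G (kk c a) := by
  have h1 : veval c (atk g p.toks) = ovals c (p.atoms.map fun a => Ob.fm (F a.1 a.2)) := by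
    rw [veval_eq, atk_form, parse_atoms g F hF]; rfl
  obtain ⟨vs, hvs⟩ := ovals_atoms_ex c F G hG p.atoms h
  unfold clsL
  rw [h1, hvs]
  exact (ovals_atoms c F G hG _ vs hvs).2

theorem atoms_pos (p : Form) : 1 ≤ p.atoms.length := by
  induction p with
  | lt s t | le s t | eq s t | ge s t | gt s t => simp [Form.atoms]
  | and p q ihp ihq | or p q ihp ihq =>
    simp only [Form.atoms, List.length_append]; omega
  | not p ihp => simpa [Form.atoms] using ihp

theorem clsLt (c : Ctx) (p : Form) (h : clsL c Tok.lt p.toks ≠ []) :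
    (∀ a ∈ p.atoms, ∃ k, kcls c a.1 a.2 = some k) ∧
      clsL c Tok.lt p.toks = p.atoms.map fun a => gLt (kk c a) :=
  clsL_sem c Tok.lt Form.lt gLt (fun _ _ _ => rfl) (fun _ _ => rfl) p h

theorem clsGt (c : Ctx) (p : Form) (h : clsL c Tok.gt p.toks ≠ []) :
    (∀ a ∈ p.atoms, ∃ k, kcls c a.1 a.2 = some k) ∧
      clsL c Tok.gt p.toks = p.atoms.map fun a => gGt (kk c a) :=
  clsL_sem c Tok.gt Form.gt gGt (fun _ _ _ => rfl) (fun _ _ => rfl) p h

theorem clsLt' (c : Ctx) (p : Form)
    (h : ∀ a ∈ p.atoms, (∃ k, kcls c a.1 a.2 = some k) ∧ atomDeg (XX c) a ≤ 2) :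
    clsL c Tok.lt p.toks = p.atoms.map fun a => gLt (kk c a) :=
  clsL_ex c Tok.lt Form.lt gLt (fun _ _ _ => rfl) (fun _ _ => rfl) p h

theorem clsGt' (c : Ctx) (p : Form)
    (h : ∀ a ∈ p.atoms, (∃ k, kcls c a.1 a.2 = some k) ∧ atomDeg (XX c) a ≤ 2) :
    clsL c Tok.gt p.toks = p.atoms.map fun a => gGt (kk c a) :=
  clsL_ex c Tok.gt Form.gt gGt (fun _ _ _ => rfl) (fun _ _ => rfl) p h

theorem kk_sg (c : Ctx) (a : Term × Term) : sgOf (kk c a) = sgc c a := by
  unfold kk sgc
  cases kcls c a.1 a.2 <;> rfl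

theorem kk_valid (c : Ctx) (a : Term × Term) : kk c a ≠ (true, true) := by
  unfold kk
  cases h : kcls c a.1 a.2 with
  | none => simp
  | some k =>
    obtain ⟨_, _, _, _, h4⟩ := kcls_dec h
    exact cls0_valid h4

theorem eval_congr (n : ℕ) (x z : ℕ → ℝ) (h : ∀ i < n, x i = z i) (t : Term)
    (ht : VarsLt n t) : t.eval x = t.eval z := by
  induction t with
  | zero => rfl
  | one => rfl
  | var i => exact h i ht
  | add s t ihs iht => simp only [Term.eval, ihs ht.1, iht ht.2]
  | sub s t ihs iht => simp only [Term.eval, ihs ht.1, iht ht.2]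
  | mul s t ihs iht => simp only [Term.eval, ihs ht.1, iht ht.2]

theorem deg_zero (n : ℕ) (X : Finset ℕ) (h : ∀ i < n, i ∈ X) (t : Term)
    (ht : VarsLt n t) : t.deg X = 0 := by
  induction t with
  | zero => rfl
  | one => rfl
  | var i => simp only [Term.deg, h i ht, if_true]
  | add s t ihs iht => simp only [Term.deg, ihs ht.1, iht ht.2, max_self]
  | sub s t ihs iht => simp only [Term.deg, ihs ht.1, iht ht.2, max_self]
  | mul s t ihs iht => simp only [Term.deg, ihs ht.1, iht ht.2]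

end Pool.Agent.Helper54.ETR
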