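import Pool.Agent.Helper54.ETRMain
import Pool.Agent.Helper54.Sm.Compl2
import Pool.Agent.Helper54.Sm.Num

open Pool.Agent.Helper54.Poly

namespace Pool.Agent.Helper54.ETR

/-! ### equality of lists of bits -/

def beqL (l m : List Bool) : Bool :=
  (decide (l.length ≤ m.length) && decide (m.length ≤ l.length)) &&
    (decide (bval l ≤ bval m) && decide (bval m ≤ bval l))

theorem bval_inj : ∀ l m : List Bool, l.length = m.length → bval l = bval m → l = m := by
  intro l
  induction l with
  | nil =>
    intro m h _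
    cases m with
    | nil => rfl
    | cons b m => simp at h
  | cons a l ih =>
    intro m h h2
    cases m with
    | nil => simp at h
    | cons b m =>
      simp only [List.length_cons, Nat.add_right_cancel_iff] at h
      simp only [bval] at h2
      have ha := toNat_lt a
      have hb := toNat_lt b
      have h3 : a.toNat = b.toNat := by omega
      have h4 : bval l = bval m := by omega
      rw [ih m h h4]
      have : a = b := by cases a <;> cases b <;> simp_all
      rw [this]

theorem beqL_iff (l m : List Bool) : beqL l m = true ↔ l = m := by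
  unfold beqL
  simp only [Bool.and_eq_true, decide_eq_true_eq]
  constructor
  · rintro ⟨⟨h1, h2⟩, h3, h4⟩
    exact bval_inj l m (by omega) (by omega)
  · rintro rfl
    exact ⟨⟨le_rfl, le_rfl⟩, le_rfl, le_rfl⟩

section

variable {α : Type} [TEnc α]

theorem PTbeqL {f g : α → List Bool} (hf : PT f) (hg : PT g) : PT (fun a => beqL (f a) (g a)) := by
  have h1 : PT (fun a => (⟨bval (f a)⟩ : BN)) := PT.ofVal hf fun a => rfl
  have h2 : PT (fun a => (⟨bval (g a)⟩ : BN)) := PT.ofVal hg fun a => rfl
  exact PT.and (PT.and (PT.leN (PT.length hf) (PT.length hg))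
    (PT.leN (PT.length hg) (PT.length hf))) (PT.and (PT.ble h1 h2) (PT.ble h2 h1))

theorem PTatk (g : Tok) {l : α → List Tok} (hl : PT l) : PT (fun a => atk g (l a)) := by
  have h1 : PT (fun z : Tok × List Tok => atk1 g z.1 ++ z.2) :=
    PT.append ((PT.finite tok_inj (atk1 g)).comp PT.id.fst) PT.id.snd
  have h2 := PTfoldr (f := fun (t : Tok) (s : List Tok) => atk1 g t ++ s) (x := []) h1 hl
    (18 * Polynomial.X + 1) (by
      intro m
      have h3 : (m.foldr (fun (t : Tok) (s : List Tok) => atk1 g t ++ s) []).length ≤ m.length := by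
        induction m with
        | nil => simp
        | cons t m ih =>
          rw [List.foldr_cons, List.length_append, List.length_cons]
          have : (atk1 g t).length ≤ 1 := by cases t <;> simp [atk1]
          omega
      have h4 := sz_toks (m.foldr (fun (t : Tok) (s : List Tok) => atk1 g t ++ s) [])
      simp only [Polynomial.eval_add, Polynomial.eval_mul, Polynomial.eval_ofNat,
        Polynomial.eval_X, Polynomial.eval_one]
      omega)
  refine h2.congr fun a => ?_
  unfold atk
  induction l a with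
  | nil => rfl
  | cons t m ih => rw [List.foldr_cons, ih, List.flatMap_cons]

theorem PTclsL (g : Tok) {c : α → Ctx} {l : α → List Tok} (hc : PT c) (hl : PT l) :
    PT (fun a => clsL (c a) g (l a)) := by
  have h1 : PT (fun z : α × List Val => z.2.map fun v => v.2.2.2.1) :=
    PT.map (α := α × List Val) (f := fun y => y.2.2.2.2.1) PT.id.snd.snd.snd.snd.fst PT.id.snd
  have h2 := PT.optCase (PTveval hc (PTatk g hl)) (PT.const ([] : List Bool)) h1
  refine h2.congr fun a => ?_
  unfold clsL
  cases veval (c a) (atk g (l a)) <;> rfl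

end

/-! ### closeness of points -/

def nearE (L s : ℕ) (a b : Ent) : Bool :=
  decide ((a.2.1.n + b.2.2.n) * 2 ^ s ≤ (b.2.1.n + a.2.2.n) * 2 ^ s + 2 ^ L) &&
    decide ((b.2.1.n + a.2.2.n) * 2 ^ s ≤ (a.2.1.n + b.2.2.n) * 2 ^ s + 2 ^ L)

def nearL (L s : ℕ) : List Ent → List Ent → Bool
  | [], [] => true
  | a :: l, b :: m => nearE L s a b && nearL L s l m
  | _, _ => false

/-- one step of the comparison -/
def nstep (L s : ℕ) (st : List Ent × Bool) (a : Ent) : List Ent × Bool :=
  match st.1 with
  | [] => ([], false)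
  | b :: m => (m, st.2 && nearE L s a b)

theorem nstep_fold (L s : ℕ) (l m : List Ent) (b : Bool) :
    ((l.foldl (nstep L s) (m, b)).1.isEmpty && (l.foldl (nstep L s) (m, b)).2) =
      (b && nearL L s l m) := by
  induction l generalizing m b with
  | nil =>
    cases m with
    | nil => simp [nearL]
    | cons c m => simp [nearL]
  | cons a l ih =>
    cases m with
    | nil =>
      rw [List.foldl_cons]
      have : nstep L s ([], b) a = ([], false) := rfl
      rw [this, ih]; simp [nearL]
    | cons c m =>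
      rw [List.foldl_cons]
      have : nstep L s (c :: m, b) a = (m, b && nearE L s a c) := rfl
      rw [this, ih, nearL, Bool.and_assoc]

theorem nearL_sem (L s : ℕ) (q q' : ℕ × ℕ) (l m : List Ent) (h : nearL L s l m = true) :
    l.length = m.length ∧ ∀ i, |xx (l, (L, q)) i - xx (m, (L, q')) i| ≤ 1 / 2 ^ s := by
  induction l generalizing m with
  | nil =>
    cases m with
    | nil =>
      refine ⟨rfl, fun i => ?_⟩
      simp only [xx, List.drop_nil, sub_self, abs_zero]; positivity
    | cons c m => simp [nearL] at h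
  | cons a l ih =>
    cases m with
    | nil => simp [nearL] at h
    | cons b m =>
      rw [nearL, Bool.and_eq_true] at h
      obtain ⟨h1, h2⟩ := ih m h.2
      refine ⟨by rw [List.length_cons, List.length_cons, h1], fun i => ?_⟩
      cases i with
      | succ i => simpa [xx] using h2 i
      | zero =>
        simp only [xx, List.drop_zero]
        have h3 := h.1
        unfold nearE at h3
        rw [Bool.and_eq_true, decide_eq_true_eq, decide_eq_true_eq] at h3
        have h4 : ((a.2.1.n : ℝ) + b.2.2.n) * 2 ^ s ≤ ((b.2.1.n : ℝ) + a.2.2.n) * 2 ^ s + 2 ^ L := by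
          exact_mod_cast h3.1
        have h5 : ((b.2.1.n : ℝ) + a.2.2.n) * 2 ^ s ≤ ((a.2.1.n : ℝ) + b.2.2.n) * 2 ^ s + 2 ^ L := by
          exact_mod_cast h3.2
        have hs : (0:ℝ) < 2 ^ s := by positivity
        have hL : (0:ℝ) < 2 ^ L := by positivity
        rw [← sub_div, abs_div, abs_of_pos hL, div_le_div_iff₀ hL hs, one_mul]
        have h6 : |(a.2.1.n : ℝ) - a.2.2.n - (b.2.1.n - b.2.2.n)| * 2 ^ s =
          |((a.2.1.n : ℝ) - a.2.2.n - (b.2.1.n - b.2.2.n)) * 2 ^ s| := by
            rw [abs_mul, abs_of_pos hs]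
        rw [h6, abs_le]
        constructor <;> linarith

theorem nearL_mk (L s : ℕ) (z z' : ℕ → ℤ) (l : List ℕ)
    (h : ∀ j ∈ l, |ptz L z j - ptz L z' j| ≤ 1 / 2 ^ s) :
    nearL L s (l.map fun j => mkEnt true (z j)) (l.map fun j => mkEnt true (z' j)) = true := by
  induction l with
  | nil => rfl
  | cons j l ih =>
    rw [List.map_cons, List.map_cons, nearL, ih fun i hi => h i (List.mem_cons_of_mem _ hi),
      Bool.and_true]
    have h1 := h j List.mem_cons_self
    have hs : (0:ℝ) < 2 ^ s := by positivity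
    have hL : (0:ℝ) < 2 ^ L := by positivity
    unfold ptz at h1
    rw [← sub_div, abs_div, abs_of_pos hL, div_le_div_iff₀ hL hs, one_mul] at h1
    have h2 : |(z j : ℝ) - z' j| * 2 ^ s = |((z j : ℝ) - z' j) * 2 ^ s| := by
      rw [abs_mul, abs_of_pos hs]
    rw [h2] at h1
    have h3 := abs_le.1 h1
    have e1 := mkEnt_val true (z j)
    have e2 := mkEnt_val true (z' j)
    rw [← e1, ← e2] at h3
    unfold nearE
    rw [Bool.and_eq_true, decide_eq_true_eq, decide_eq_true_eq]
    constructor
    · have : (((mkEnt true (z j)).2.1.n : ℝ) + (mkEnt true (z' j)).2.2.n) * 2 ^ s ≤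
        (((mkEnt true (z' j)).2.1.n : ℝ) + (mkEnt true (z j)).2.2.n) * 2 ^ s + 2 ^ L := by
          linarith [h3.2]
      exact_mod_cast this
    · have : (((mkEnt true (z' j)).2.1.n : ℝ) + (mkEnt true (z j)).2.2.n) * 2 ^ s ≤
        (((mkEnt true (z j)).2.1.n : ℝ) + (mkEnt true (z' j)).2.2.n) * 2 ^ s + 2 ^ L := by
          linarith [h3.1]
      exact_mod_cast this

/-! ### checking the classes at the other points -/

/-- the check for the point of index `i` -/
def chk (n0 p0 n1 p1 : List Bool) (i : ℕ) : Bool :=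
  (n0.getD i false || p0.getD i false) ||
    ((beqL n1 n0 && p1.getD i false) &&
      (beqL (p1.take i) (p0.take i) && beqL (p1.drop (i + 1)) (p0.drop (i + 1))))

theorem chk_sem {n0 p0 n1 p1 : List Bool} {i : ℕ} (h : chk n0 p0 n1 p1 i = true)
    (hn : n0.getD i false = false) (hp : p0.getD i false = false) :
    n1 = n0 ∧ p1.getD i false = true ∧ ∀ l ≠ i, p1.getD l false = p0.getD l false := by
  unfold chk at h
  rw [hn, hp] at h
  simp only [Bool.or_self, Bool.false_or, Bool.and_eq_true, beqL_iff] at h
  obtain ⟨⟨h1, h2⟩, h3, h4⟩ := h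
  refine ⟨h1, h2, fun l hl => ?_⟩
  rcases Nat.lt_or_ge l i with hlt | hge
  · have e1 : ∀ m : List Bool, m.getD l false = (m.take i).getD l false := by
      intro m
      rw [List.getD_eq_getElem?_getD, List.getD_eq_getElem?_getD, List.getElem?_take]
      rw [if_pos hlt]
    rw [e1 p1, e1 p0, h3]
  · have hgt : i + 1 ≤ l := by omega
    have e1 : ∀ m : List Bool, m.getD l false = (m.drop (i + 1)).getD (l - (i + 1)) false := by
      intro m
      rw [List.getD_eq_getElem?_getD, List.getD_eq_getElem?_getD, List.getElem?_drop]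
      congr 2
      omega
    rw [e1 p1, e1 p0, h4]

theorem chk_mk {n0 p0 n1 p1 : List Bool} {i : ℕ} (hlen : p1.length = p0.length)
    (h : n0.getD i false = false → p0.getD i false = false →
      n1 = n0 ∧ p1.getD i false = true ∧ ∀ l ≠ i, p1.getD l false = p0.getD l false) :
    chk n0 p0 n1 p1 i = true := by
  unfold chk
  cases hn : n0.getD i false with
  | true => simp
  | false =>
    cases hp : p0.getD i false with
    | true => simp
    | false =>
      obtain ⟨h1, h2, h3⟩ := h hn hp
      have hget : ∀ l ≠ i, p1[l]? = p0[l]? := by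
        intro l hl
        have h4 := h3 l hl
        rw [List.getD_eq_getElem?_getD, List.getD_eq_getElem?_getD] at h4
        rcases Nat.lt_or_ge l p1.length with hlt | hge
        · have hlt' : l < p0.length := by omega
          rw [List.getElem?_eq_getElem hlt, List.getElem?_eq_getElem hlt'] at h4 ⊢
          simpa using h4
        · rw [List.getElem?_eq_none hge, List.getElem?_eq_none (by omega)]
      simp only [Bool.or_self, Bool.false_or, Bool.and_eq_true, beqL_iff]
      refine ⟨⟨h1, h2⟩, ?_, ?_⟩
      · apply List.ext_getElem?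
        intro l
        rw [List.getElem?_take, List.getElem?_take]
        split_ifs with hl
        · exact hget l (by omega)
        · rfl
      · apply List.ext_getElem?
        intro l
        rw [List.getElem?_drop, List.getElem?_drop]
        exact hget _ (by omega)

/-- loop over the points -/
def lstep (F : List Ent → ℕ → Bool) (st : ℕ × Bool) (B : List Ent) : ℕ × Bool :=
  (st.1 + 1, st.2 && F B st.1)

theorem lstep_fold (F : List Ent → ℕ → Bool) (Bs : List (List Ent)) (i : ℕ) (b : Bool) :
    Bs.foldl (lstep F) (i, b) = (i + Bs.length, b && (Bs.zipIdx i).all fun x => F x.1 x.2) := by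
  induction Bs generalizing i b with
  | nil => simp
  | cons B Bs ih =>
    rw [List.foldl_cons]
    have : lstep F (i, b) B = (i + 1, b && F B i) := rfl
    rw [this, ih, List.length_cons, List.zipIdx_cons, List.all_cons, Bool.and_assoc]
    congr 1
    omega

/-! ### the verifier -/

def pts (w : List Bool) : List (List Ent) :=
  (dec w).2.2.map fun l => (dec l).2.2.map ient

def ctx0 (N : ℕ) (A : List Ent) : Ctx := (A, (pL N, (pr0 N, pre N)))
def ctx1 (N : ℕ) (A : List Ent) : Ctx := (A, (pL N, (pr1 N, pre N)))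

def okpt (N : ℕ) (A : List Ent) : Bool := A.all (entOk (pL N + 1))

def fin2 (o : Option (List Val)) : Bool :=
  match o with
  | none => false
  | some st => match st with
    | [] => false
    | v :: t => t.isEmpty && (kd (true, true) v && v.2.2.2.1)

def chkB (N : ℕ) (A : List Ent) (toks : List Tok) (B : List Ent) (i : ℕ) : Bool :=
  (nearL (pL N) (ps N) B A && okpt N B) &&
    chk (clsL (ctx0 N A) Tok.lt toks) (clsL (ctx0 N A) Tok.gt toks)
      (clsL (ctx1 N B) Tok.lt toks) (clsL (ctx1 N B) Tok.gt toks) i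

def ver2a (N : ℕ) (toks : List Tok) (A : List Ent) (Bs : List (List Ent)) : Bool :=
  (okpt N A && fin2 (veval (ctx0 N A) toks)) &&
    ((decide ((clsL (ctx0 N A) Tok.lt toks).length ≤ Bs.length)) &&
      (Bs.foldl (lstep (chkB N A toks)) (0, true)).2)

def ver2 (u w : List Bool) : Bool :=
  (tk u).1.isEmpty && (match pts w with
    | [] => false
    | A :: Bs => ver2a u.length (tk u).2 A Bs)

section

variable {α : Type} [TEnc α]

theorem PTlin {N : α → ℕ} (hN : PT N) (a b : ℕ) : PT (fun x => a * N x + b) :=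
  PT.add (PT.mul (PT.const a) hN) (PT.const b)

theorem PTnearE {L s : α → ℕ} {a b : α → Ent} (hL : PT L) (hs : PT s) (ha : PT a) (hb : PT b) :
    PT (fun x => nearE (L x) (s x) (a x) (b x)) := by
  have h1 := PT.bshift (PT.badd ha.snd.fst hb.snd.snd) hs
  have h2 := PT.bshift (PT.badd hb.snd.fst ha.snd.snd) hs
  have h3 := PTone hL
  exact PT.and (PT.ble h1 (PT.badd h2 h3)) (PT.ble h2 (PT.badd h1 h3))

theorem PTnearL {L s : α → ℕ} {l m : α → List Ent} (hL : PT L) (hs : PT s) (hl : PT l)
    (hm : PT m) : PT (fun x => nearL (L x) (s x) (l x) (m x)) := by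
  have h1 : PT (fun z : α × ((List Ent × Bool) × Ent) => nstep (L z.1) (s z.1) z.2.1 z.2.2) := by
    have h2 := PT.listCase (α := α × ((List Ent × Bool) × Ent)) (l := fun z => z.2.1.1)
      (f := fun _ => (([], false) : List Ent × Bool))
      (g := fun y => ((y.2.2, y.1.2.1.2 && nearE (L y.1.1) (s y.1.1) y.1.2.2 y.2.1) :
        List Ent × Bool))
      PT.id.snd.fst.fst (PT.const _)
      (PT.id.snd.snd.pair (PT.and PT.id.fst.snd.fst.snd
        (PTnearE (hL.comp PT.id.fst.fst) (hs.comp PT.id.fst.fst) PT.id.fst.snd.snd PT.id.snd.fst)))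
    refine h2.congr fun z => ?_
    unfold nstep
    rcases z.2.1.1 with _ | ⟨b, t⟩ <;> rfl
  have h2 := PT.foldl_add h1 hl (x := fun x => (m x, true)) (hm.pair (PT.const true)) 3 (by
    intro b st c _
    change sz (nstep (L b) (s b) st c) ≤ _
    obtain ⟨m', b'⟩ := st
    simp only [Polynomial.eval_ofNat]
    have h0 : sz ((m', b') : List Ent × Bool) = sz m' + sz b' + 1 := sz_pair _ _
    rw [h0]
    cases m' with
    | nil =>
      change sz (([], false) : List Ent × Bool) ≤ _
      rw [sz_pair, sz_false, sz_nil]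
      have := sz_pos b'
      omega
    | cons e m' =>
      change sz ((m', b' && nearE (L b) (s b) c e) : List Ent × Bool) ≤ _
      rw [sz_pair, sz_cons]
      have := sz_bool (b' && nearE (L b) (s b) c e)
      omega)
  refine (PT.and (PT.isEmpty h2.fst) h2.snd).congr fun x => ?_
  have := nstep_fold (L x) (s x) (l x) (m x) true
  rw [Bool.true_and] at this
  exact this

theorem PTchk {n0 p0 n1 p1 : α → List Bool} {i : α → ℕ} (h1 : PT n0) (h2 : PT p0) (h3 : PT n1)
    (h4 : PT p1) (hi : PT i) : PT (fun a => chk (n0 a) (p0 a) (n1 a) (p1 a) (i a)) := by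
  have hf : PT (fun _ : α => false) := PT.const false
  exact PT.or (PT.or (PT.getD hi h1 hf) (PT.getD hi h2 hf))
    (PT.and (PT.and (PTbeqL h3 h1) (PT.getD hi h4 hf))
      (PT.and (PTbeqL (PT.take hi h4) (PT.take hi h2))
        (PTbeqL (PT.drop (PT.succ hi) h4) (PT.drop (PT.succ hi) h2))))

theorem PTpts {w : α → List Bool} (hw : PT w) : PT (fun a => pts (w a)) := by
  refine PT.map (α := α) (f := fun z => (dec z.2).2.2.map ient) ?_ (PTdec hw).snd.snd
  exact PT.map (α := α × List Bool) (f := fun z => ient z.2) (PTient PT.id.snd)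
    (PTdec PT.id.snd).snd.snd

theorem PTctx0 {N : α → ℕ} {A : α → List Ent} (hN : PT N) (hA : PT A) :
    PT (fun a => ctx0 (N a) (A a)) :=
  hA.pair ((PTlin hN 50 40).pair ((PTlin hN 25 21).pair (PTlin hN 38 34)))

theorem PTctx1 {N : α → ℕ} {A : α → List Ent} (hN : PT N) (hA : PT A) :
    PT (fun a => ctx1 (N a) (A a)) :=
  hA.pair ((PTlin hN 50 40).pair ((PTlin hN 37 29).pair (PTlin hN 38 34)))

theorem PTokpt {N : α → ℕ} {A : α → List Ent} (hN : PT N) (hA : PT A) :
    PT (fun a => okpt (N a) (A a)) :=
  PT.all (α := α) (f := fun z => entOk (pL (N z.1) + 1) z.2)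
    (PTentOk ((PT.succ (PTlin hN 50 40)).comp PT.id.fst) PT.id.snd) hA

theorem PTfin2 {o : α → Option (List Val)} (ho : PT o) :
    PT (fun a => fin2 (o a)) := by
  have h1 : PT (fun z : (α × List Val) × Val × List Val =>
      z.2.2.isEmpty && (kd (true, true) z.2.1 && z.2.1.2.2.2.1)) :=
    PT.and (PT.isEmpty PT.id.snd.snd) (PT.and (PTkd _ PT.id.snd.fst)
      PT.id.snd.fst.snd.snd.snd.fst)
  have h2 : PT (fun z : α × List Val => (match z.2 with
    | [] => false
    | v :: t => t.isEmpty && (kd (true, true) v && v.2.2.2.1))) := by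
    refine (PT.listCase (α := α × List Val) (l := fun z => z.2) PT.id.snd (PT.const false)
      h1).congr fun z => ?_
    rcases z.2 with _ | ⟨v, t⟩ <;> rfl
  refine (PT.optCase ho (PT.const false) h2).congr fun a => ?_
  unfold fin2
  cases o a <;> rfl

theorem PTchkB {N : α → ℕ} {A B : α → List Ent} {toks : α → List Tok} {i : α → ℕ} (hN : PT N)
    (hA : PT A) (hB : PT B) (ht : PT toks) (hi : PT i) :
    PT (fun a => chkB (N a) (A a) (toks a) (B a) (i a)) :=
  PT.and (PT.and (PTnearL (PTlin hN 50 40) (PTlin hN 34 26) hB hA) (PTokpt hN hB))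
    (PTchk (PTclsL _ (PTctx0 hN hA) ht) (PTclsL _ (PTctx0 hN hA) ht)
      (PTclsL _ (PTctx1 hN hB) ht) (PTclsL _ (PTctx1 hN hB) ht) hi)

theorem PTver2a {N : α → ℕ} {toks : α → List Tok} {A : α → List Ent} {Bs : α → List (List Ent)}
    (hN : PT N) (ht : PT toks) (hA : PT A) (hBs : PT Bs) :
    PT (fun a => ver2a (N a) (toks a) (A a) (Bs a)) := by
  have h1 : PT (fun z : α × ((ℕ × Bool) × List Ent) =>
      lstep (chkB (N z.1) (A z.1) (toks z.1)) z.2.1 z.2.2) :=
    (PT.succ PT.id.snd.fst.fst).pair (PT.and PT.id.snd.fst.snd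
      (PTchkB (hN.comp PT.id.fst) (hA.comp PT.id.fst) PT.id.snd.snd (ht.comp PT.id.fst)
        PT.id.snd.fst.fst))
  have h2 := PT.foldl_add h1 hBs (x := fun _ => (0, true)) (PT.const _) 5 (by
    intro b st c _
    change sz (lstep (chkB (N b) (A b) (toks b)) st c) ≤ _
    obtain ⟨i, b'⟩ := st
    simp only [Polynomial.eval_ofNat]
    change sz ((i + 1, b' && chkB (N b) (A b) (toks b) c i) : ℕ × Bool) ≤ _
    rw [sz_pair, sz_pair, sz_nat, sz_nat]
    have := sz_bool (b' && chkB (N b) (A b) (toks b) c i)
    have := sz_pos b'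
    omega)
  exact PT.and (PT.and (PTokpt hN hA) (PTfin2 (PTveval (PTctx0 hN hA) ht)))
    (PT.and (PT.leN (PT.length (PTclsL _ (PTctx0 hN hA) ht)) (PT.length hBs)) h2.snd)

theorem PTver2 {u w : α → List Bool} (hu : PT u) (hw : PT w) :
    PT (fun a => ver2 (u a) (w a)) := by
  have h1 : PT (fun z : α × List Ent × List (List Ent) =>
      ver2a (u z.1).length (tk (u z.1)).2 z.2.1 z.2.2) :=
    PTver2a (PT.length (hu.comp PT.id.fst)) (PTtk (hu.comp PT.id.fst)).snd PT.id.snd.fst
      PT.id.snd.snd
  have h2 := PT.listCase (PTpts hw) (PT.const false) h1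
  have h3 : PT (fun a => (match pts (w a) with
    | [] => false
    | A :: Bs => ver2a (u a).length (tk (u a)).2 A Bs)) := by
    refine h2.congr fun a => ?_
    rcases pts (w a) with _ | ⟨A, Bs⟩ <;> rfl
  exact PT.and (PT.isEmpty (PTtk hu).fst) h3

end

theorem ver2_poly : Nonempty (Turing.TM2ComputableInPolyTime encPair
    Computability.encodeBool (fun p : List Bool × List Bool => ver2 p.1 p.2)) := by
  refine polytime_bool encPair _ (fun l => ver2 (split l).2.1 (split l).2.2)
    (PTver2 (PTsplit PT.id).snd.fst (PTsplit PT.id).snd.snd) ?_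
  rintro ⟨u, w⟩
  rw [split_pair]

end Pool.Agent.Helper54.ETR
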