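import Pool.Agent.Helper54.Sm.Prob

open Finset

namespace Pool.Agent.Helper54.ETR

section

variable (φ : Form) (n q K : ℕ)

/-- the grid of weights -/
noncomputable def Om (T : Finset (Fin φ.atoms.length)) (l0 : Fin φ.atoms.length) (H : ℕ) :
    Finset (Fin φ.atoms.length → ℤ) :=
  Fintype.piFinset fun l => if l = l0 then {(2 : ℤ) ^ H} else
    if l ∈ T then Finset.Icc (-(2 : ℤ) ^ H) (2 ^ H) else {0}

noncomputable def Zg (n H : ℕ) : Finset (Fin n → ℤ) :=
  Fintype.piFinset fun _ => Finset.Icc (-(2 : ℤ) ^ H) (2 ^ H)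

theorem card_Icc (H : ℕ) : (Finset.Icc (-(2 : ℤ) ^ H) (2 ^ H)).card = 2 * 2 ^ H + 1 := by
  rw [Int.card_Icc]
  have : (2 : ℤ) ^ H = ((2 ^ H : ℕ) : ℤ) := by push_cast; rfl
  rw [this]
  omega

theorem card_Zg (n H : ℕ) : (Zg n H).card = (2 * 2 ^ H + 1) ^ n := by
  unfold Zg
  rw [Fintype.card_piFinset, Finset.prod_const, card_Icc, Finset.card_univ, Fintype.card_fin]

theorem card_Om (T : Finset (Fin φ.atoms.length)) (l0 : Fin φ.atoms.length) (H : ℕ)
    (h : l0 ∈ T) : (Om φ T l0 H).card * (2 * 2 ^ H + 1) = (2 * 2 ^ H + 1) ^ T.card := by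
  unfold Om
  rw [Fintype.card_piFinset]
  have h1 : ∀ l : Fin φ.atoms.length, (if l = l0 then {(2 : ℤ) ^ H} else
      if l ∈ T then Finset.Icc (-(2 : ℤ) ^ H) (2 ^ H) else {0} : Finset ℤ).card =
      if l ∈ T.erase l0 then 2 * 2 ^ H + 1 else 1 := by
    intro l
    by_cases h2 : l = l0
    · subst h2; simp
    · by_cases h3 : l ∈ T
      · rw [if_neg h2, if_pos h3, if_pos (Finset.mem_erase.2 ⟨h2, h3⟩), card_Icc]
      · rw [if_neg h2, if_neg h3, if_neg (fun h => h3 (Finset.mem_of_mem_erase h))]; simp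
  simp only [h1]
  rw [Finset.prod_ite_mem, Finset.univ_inter, Finset.prod_const, Finset.card_erase_of_mem h,
    ← pow_succ]
  congr 1
  have : 0 < T.card := Finset.card_pos.2 ⟨l0, h⟩
  omega

theorem floor_mem (H : ℕ) (y : ℝ) (h : |y| ≤ 1) :
    ⌊y * 2 ^ H⌋ ∈ Finset.Icc (-(2 : ℤ) ^ H) (2 ^ H) := by
  have h1 := abs_le.1 h
  have hp : (0:ℝ) < 2 ^ H := by positivity
  rw [Finset.mem_Icc]
  constructor
  · rw [Int.le_floor]; push_cast; nlinarith [h1.1]
  · have : (⌊y * 2 ^ H⌋ : ℝ) ≤ 2 ^ H := (Int.floor_le _).trans (by nlinarith [h1.2])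
    exact_mod_cast this

theorem floor_close (H : ℕ) (y : ℝ) : |(⌊y * 2 ^ H⌋ : ℝ) / 2 ^ H - y| ≤ 1 / 2 ^ H := by
  have hpL : (0:ℝ) < 2 ^ H := by positivity
  have h1 := Int.floor_le (y * 2 ^ H)
  have h2 := Int.lt_floor_add_one (y * 2 ^ H)
  have h3 : (⌊y * 2 ^ H⌋ : ℝ) / 2 ^ H - y = ((⌊y * 2 ^ H⌋ : ℝ) - y * 2 ^ H) / 2 ^ H := by
    field_simp
  rw [h3, abs_div, abs_of_pos hpL]
  apply div_le_div_of_nonneg_right _ hpL.le
  rw [abs_le]; constructor <;> linarith

theorem cover (hv : ∀ a ∈ φ.atoms, VarsLt n a.1 ∧ VarsLt n a.2) (a : Arr φ n K)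
    (h : BadA φ n q K a) : ∃ (T : Finset (Fin φ.atoms.length)) (l0 : Fin φ.atoms.length),
      l0 ∈ T ∧ ∃ z ∈ Zg n (gH φ n q K), ∃ ω ∈ Om φ T l0 (gH φ n q K), Ev φ n q K T z ω a := by
  classical
  obtain ⟨x, hx, w, hw1, hw2, ⟨l0, hl0⟩, hw3⟩ := h
  set H := gH φ n q K with hH
  set L := φ.toks.length with hL
  have hHe : H = K + (q + 4 * L + φ.atoms.length + n + 3) := rfl
  have hp : (0:ℝ) < 2 ^ H := by positivity
  set z : Fin n → ℤ := fun i => ⌊x i * 2 ^ H⌋ with hz
  set ω : Fin φ.atoms.length → ℤ := fun l => ⌊w l * 2 ^ H⌋ with hω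
  set T : Finset (Fin φ.atoms.length) := univ.filter fun l => w l ≠ 0 with hT
  have hl0T : l0 ∈ T := by simp [hT, hl0]
  set x0 := gx φ n q K z with hx0
  have hx0i : ∀ i (hi : i < n), x0 i = (⌊x i * 2 ^ H⌋ : ℝ) / 2 ^ H := by
    intro i hi
    simp only [hx0, gx, hi, dif_pos, hz]
    rfl
  have hxx0 : ∀ i < n, |x0 i - x i| ≤ 1 / 2 ^ H := by
    intro i hi; rw [hx0i i hi]; exact floor_close H (x i)
  have hx01 : ∀ i < n, |x0 i| ≤ 1 := by
    intro i hi
    rw [hx0i i hi, abs_div, abs_of_pos hp, div_le_one hp]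
    have := floor_mem H (x i) (hx i hi)
    rw [Finset.mem_Icc] at this
    rw [abs_le]
    constructor
    · have := this.1; exact_mod_cast this
    · have := this.2; exact_mod_cast this
  have hx4 : ∀ i < n, |x i| ≤ (4:ℝ) := fun i hi => (hx i hi).trans (by norm_num)
  have hx04 : ∀ i < n, |x0 i| ≤ (4:ℝ) := fun i hi => (hx01 i hi).trans (by norm_num)
  have h4N : ∀ {t : Term}, tsz t ≤ L → (4:ℝ) ^ tsz t ≤ 2 ^ (2 * L) := by
    intro t ht
    rw [pow_mul]
    norm_num
    exact pow_le_pow_right₀ (by norm_num) ht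
  have h4N2 : ∀ {t : Term}, tsz t ≤ L → (4:ℝ) ^ (2 * tsz t) ≤ 2 ^ (4 * L) := by
    intro t ht
    have : (2:ℝ) ^ (4 * L) = 4 ^ (2 * L) := by
      rw [show 4 * L = 2 * (2 * L) by ring, pow_mul]; norm_num
    rw [this]
    exact pow_le_pow_right₀ (by norm_num) (by omega)
  have hη : (0:ℝ) ≤ 1 / 2 ^ H := by positivity
  -- powers
  have pw1 : ∀ b : ℕ, b + K ≤ H → (2:ℝ) ^ K * (1 / 2 ^ H) * 2 ^ b ≤ 1 / 2 ^ (H - K - b) := by
    intro b hb
    have : (2:ℝ) ^ H = 2 ^ K * 2 ^ b * 2 ^ (H - K - b) := by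
      rw [← pow_add, ← pow_add]; congr 1; omega
    rw [this]
    apply le_of_eq
    field_simp
  have hAle : (φ.atoms.length:ℝ) ≤ 2 ^ φ.atoms.length := by
    have : φ.atoms.length ≤ 2 ^ φ.atoms.length := (Nat.lt_two_pow_self).le
    exact_mod_cast this
  have hnle : (n:ℝ) ≤ 2 ^ n := by
    have : n ≤ 2 ^ n := (Nat.lt_two_pow_self).le
    exact_mod_cast this
  -- values
  have hval : ∀ l : Fin φ.atoms.length, |pv φ n q K a l x0 - pv φ n q K a l x| ≤ 1 := by
    intro l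
    have hmem : φ.atoms.get l ∈ φ.atoms := List.get_mem _ _
    obtain ⟨v1, v2⟩ := hv _ hmem
    obtain ⟨s1, s2⟩ := atoms_tsz φ _ hmem
    have l1 := (lip x0 x n 4 (1 / 2 ^ H) (by norm_num) hη hx04 hx4 hxx0 _ v1).2.2
    have l2 := (lip x0 x n 4 (1 / 2 ^ H) (by norm_num) hη hx04 hx4 hxx0 _ v2).2.2
    have m1 := mul_le_mul_of_nonneg_left (h4N s1) hη
    have m2 := mul_le_mul_of_nonneg_left (h4N s2) hη
    have hav : |av x0 (φ.atoms.get l) - av x (φ.atoms.get l)| ≤ 2 * (1 / 2 ^ H * 2 ^ (2 * L)) := by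
      have e : av x0 (φ.atoms.get l) - av x (φ.atoms.get l) =
        ((φ.atoms.get l).1.eval x0 - (φ.atoms.get l).1.eval x) -
        ((φ.atoms.get l).2.eval x0 - (φ.atoms.get l).2.eval x) := by unfold av; ring
      rw [e]
      exact (abs_sub _ _).trans (by linarith)
    have e : pv φ n q K a l x0 - pv φ n q K a l x =
      2 ^ (K + q) * (av x0 (φ.atoms.get l) - av x (φ.atoms.get l)) +
      ∑ j : Fin n, ((a (l, j.castSucc) : ℕ) : ℝ) * (x0 j - x j) := by
        unfold pv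
        have : ∑ j : Fin n, ((a (l, j.castSucc) : ℕ) : ℝ) * (x0 j - x j) =
          ∑ j : Fin n, ((a (l, j.castSucc) : ℕ) : ℝ) * x0 j -
          ∑ j : Fin n, ((a (l, j.castSucc) : ℕ) : ℝ) * x j := by
            rw [← Finset.sum_sub_distrib]
            exact Finset.sum_congr rfl fun j _ => by ring
        rw [this]; ring
    rw [e]
    refine (abs_add_le _ _).trans ?_
    have b1 : |(2:ℝ) ^ (K + q) * (av x0 (φ.atoms.get l) - av x (φ.atoms.get l))| ≤ 1 / 2 := by
      rw [abs_mul, abs_of_pos (by positivity)]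
      have := mul_le_mul_of_nonneg_left hav (show (0:ℝ) ≤ 2 ^ (K + q) by positivity)
      refine this.trans ?_
      have h1 := pw1 (q + 2 * L + 1) (by omega)
      have h2 : (2:ℝ) ^ (K + q) * (2 * (1 / 2 ^ H * 2 ^ (2 * L))) =
        2 ^ K * (1 / 2 ^ H) * 2 ^ (q + 2 * L + 1) := by
          rw [show q + 2 * L + 1 = q + (2 * L + 1) by ring, pow_add 2 K q,
            pow_add 2 q (2 * L + 1), pow_succ 2 (2 * L)]; ring
      rw [h2]
      refine h1.trans ?_
      have := inv_pow_mono (show 1 ≤ H - K - (q + 2 * L + 1) by omega)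
      rwa [pow_one] at this
    have b2 : |∑ j : Fin n, ((a (l, j.castSucc) : ℕ) : ℝ) * (x0 j - x j)| ≤ 1 / 2 := by
      refine (Finset.abs_sum_le_sum_abs _ _).trans ?_
      have h1 : ∑ j : Fin n, |((a (l, j.castSucc) : ℕ) : ℝ) * (x0 j - x j)| ≤
          ∑ _j : Fin n, (2 ^ K * (1 / 2 ^ H) : ℝ) := by
        refine Finset.sum_le_sum fun j _ => ?_
        rw [abs_mul, abs_of_nonneg (Nat.cast_nonneg _)]
        have h2 : ((a (l, j.castSucc) : ℕ) : ℝ) ≤ 2 ^ K := by
          have := (a (l, j.castSucc)).2.le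
          exact_mod_cast this
        exact mul_le_mul h2 (hxx0 j j.2) (abs_nonneg _) (by positivity)
      refine h1.trans ?_
      rw [Finset.sum_const, Finset.card_univ, Fintype.card_fin, nsmul_eq_mul]
      have h3 := mul_le_mul_of_nonneg_right hnle (show (0:ℝ) ≤ 2 ^ K * (1 / 2 ^ H) by positivity)
      have h4 := pw1 n (by omega)
      have h5 := inv_pow_mono (show 1 ≤ H - K - n by omega)
      rw [pow_one] at h5
      linarith
    linarith
  -- gradients
  have hgrad : ∀ j : Fin n, |∑ l, ((ω l : ℝ) / 2 ^ H) * pg φ n q K a l j x0| ≤ 2 := by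
    intro j
    have he : ∀ i < n, |ev1 (j : ℕ) i| ≤ 1 := by
      intro i _; unfold ev1; split_ifs <;> simp
    have g1 : ∀ l : Fin φ.atoms.length, |pg φ n q K a l j x0 - pg φ n q K a l j x| ≤
        2 ^ K * (1 / 2 ^ H) * 2 ^ (q + 4 * L + 1) := by
      intro l
      have hmem : φ.atoms.get l ∈ φ.atoms := List.get_mem _ _
      obtain ⟨v1, v2⟩ := hv _ hmem
      obtain ⟨s1, s2⟩ := atoms_tsz φ _ hmem
      have l1 := D_lip n 4 le_rfl x0 x (ev1 j) 1 (1 / 2 ^ H) (by norm_num) hη hx04 hx4 hxx0 he _ v1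
      have l2 := D_lip n 4 le_rfl x0 x (ev1 j) 1 (1 / 2 ^ H) (by norm_num) hη hx04 hx4 hxx0 he _ v2
      rw [one_mul] at l1 l2
      have m1 := mul_le_mul_of_nonneg_left (h4N2 s1) hη
      have m2 := mul_le_mul_of_nonneg_left (h4N2 s2) hη
      have e : pg φ n q K a l j x0 - pg φ n q K a l j x = 2 ^ (K + q) *
        (((φ.atoms.get l).1.D x0 (ev1 j) - (φ.atoms.get l).1.D x (ev1 j)) -
        ((φ.atoms.get l).2.D x0 (ev1 j) - (φ.atoms.get l).2.D x (ev1 j))) := by
          unfold pg aD; ring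
      rw [e, abs_mul, abs_of_pos (by positivity : (0:ℝ) < 2 ^ (K + q))]
      have h1 := abs_sub ((φ.atoms.get l).1.D x0 (ev1 j) - (φ.atoms.get l).1.D x (ev1 j))
        ((φ.atoms.get l).2.D x0 (ev1 j) - (φ.atoms.get l).2.D x (ev1 j))
      have h2 : (2:ℝ) ^ K * (1 / 2 ^ H) * 2 ^ (q + 4 * L + 1) =
        2 ^ (K + q) * (2 * (1 / 2 ^ H * 2 ^ (4 * L))) := by
          rw [show q + 4 * L + 1 = q + (4 * L + 1) by ring, pow_add 2 K q,
            pow_add 2 q (4 * L + 1), pow_succ 2 (4 * L)]; ring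
      rw [h2]
      apply mul_le_mul_of_nonneg_left _ (by positivity)
      linarith
    have g2 : ∀ l : Fin φ.atoms.length, |pg φ n q K a l j x0| ≤ 2 ^ K * 2 ^ (q + 2 * L + 2) := by
      intro l
      have hmem : φ.atoms.get l ∈ φ.atoms := List.get_mem _ _
      obtain ⟨v1, v2⟩ := hv _ hmem
      obtain ⟨s1, s2⟩ := atoms_tsz φ _ hmem
      have l1 := D_bound n 4 le_rfl x0 (ev1 j) 1 (by norm_num) hx04 he _ v1
      have l2 := D_bound n 4 le_rfl x0 (ev1 j) 1 (by norm_num) hx04 he _ v2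
      rw [one_mul] at l1 l2
      have m1 := h4N s1
      have m2 := h4N s2
      unfold pg aD
      refine (abs_add_le _ _).trans ?_
      rw [abs_mul, abs_of_pos (by positivity : (0:ℝ) < 2 ^ (K + q)),
        abs_of_nonneg (Nat.cast_nonneg _ : (0:ℝ) ≤ ((a (l, j.castSucc) : ℕ) : ℝ))]
      have h1 := abs_sub ((φ.atoms.get l).1.D x0 (ev1 j)) ((φ.atoms.get l).2.D x0 (ev1 j))
      have h2 : ((a (l, j.castSucc) : ℕ) : ℝ) ≤ 2 ^ K := by
        have := (a (l, j.castSucc)).2.le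
        exact_mod_cast this
      have h3 : |(φ.atoms.get l).1.D x0 (ev1 j) - (φ.atoms.get l).2.D x0 (ev1 j)| ≤
        2 * 2 ^ (2 * L) := by linarith
      have h4 := mul_le_mul_of_nonneg_left h3 (show (0:ℝ) ≤ 2 ^ (K + q) by positivity)
      have h5 : (2:ℝ) ^ (K + q) * (2 * 2 ^ (2 * L)) = 2 ^ K * 2 ^ (q + 2 * L + 1) := by
        rw [show q + 2 * L + 1 = q + (2 * L + 1) by ring, pow_add 2 K q,
          pow_add 2 q (2 * L + 1), pow_succ 2 (2 * L)]; ring
      have h6 : (1:ℝ) ≤ 2 ^ (q + 2 * L + 1) := one_le_pow₀ (by norm_num)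
      have h7 : (0:ℝ) < 2 ^ K := by positivity
      have h8 : (2:ℝ) ^ (q + 2 * L + 2) = 2 ^ (q + 2 * L + 1) * 2 := by rw [← pow_succ]
      rw [h8]
      nlinarith
    have e : ∑ l, ((ω l : ℝ) / 2 ^ H) * pg φ n q K a l j x0 =
      (∑ l, w l * pg φ n q K a l j x) +
      (∑ l, w l * (pg φ n q K a l j x0 - pg φ n q K a l j x)) +
      (∑ l, ((ω l : ℝ) / 2 ^ H - w l) * pg φ n q K a l j x0) := by
        rw [← Finset.sum_add_distrib, ← Finset.sum_add_distrib]
        exact Finset.sum_congr rfl fun l _ => by ring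
    rw [e]
    have c1 := hw3 j
    have c2 : |∑ l, w l * (pg φ n q K a l j x0 - pg φ n q K a l j x)| ≤ 1 / 2 := by
      refine (Finset.abs_sum_le_sum_abs _ _).trans ?_
      have h1 : ∑ l : Fin φ.atoms.length, |w l * (pg φ n q K a l j x0 - pg φ n q K a l j x)| ≤
          ∑ _l : Fin φ.atoms.length, (2 ^ K * (1 / 2 ^ H) * 2 ^ (q + 4 * L + 1) : ℝ) := by
        refine Finset.sum_le_sum fun l _ => ?_
        rw [abs_mul]
        have := mul_le_mul (hw1 l) (g1 l) (abs_nonneg _) (by norm_num)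
        linarith
      refine h1.trans ?_
      rw [Finset.sum_const, Finset.card_univ, Fintype.card_fin, nsmul_eq_mul]
      have h3 := mul_le_mul_of_nonneg_right hAle
        (show (0:ℝ) ≤ 2 ^ K * (1 / 2 ^ H) * 2 ^ (q + 4 * L + 1) by positivity)
      have h4 := pw1 (φ.atoms.length + (q + 4 * L + 1)) (by omega)
      have h5 : (2:ℝ) ^ φ.atoms.length * (2 ^ K * (1 / 2 ^ H) * 2 ^ (q + 4 * L + 1)) =
        2 ^ K * (1 / 2 ^ H) * 2 ^ (φ.atoms.length + (q + 4 * L + 1)) := by rw [pow_add 2 φ.atoms.length]; ring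
      have h6 := inv_pow_mono (show 1 ≤ H - K - (φ.atoms.length + (q + 4 * L + 1)) by omega)
      rw [pow_one] at h6
      linarith
    have c3 : |∑ l, ((ω l : ℝ) / 2 ^ H - w l) * pg φ n q K a l j x0| ≤ 1 / 2 := by
      refine (Finset.abs_sum_le_sum_abs _ _).trans ?_
      have h1 : ∑ l : Fin φ.atoms.length, |((ω l : ℝ) / 2 ^ H - w l) * pg φ n q K a l j x0| ≤
          ∑ _l : Fin φ.atoms.length, (1 / 2 ^ H * (2 ^ K * 2 ^ (q + 2 * L + 2)) : ℝ) := by
        refine Finset.sum_le_sum fun l _ => ?_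
        rw [abs_mul]
        exact mul_le_mul (floor_close H (w l)) (g2 l) (abs_nonneg _) (by positivity)
      refine h1.trans ?_
      rw [Finset.sum_const, Finset.card_univ, Fintype.card_fin, nsmul_eq_mul]
      have h3 := mul_le_mul_of_nonneg_right hAle
        (show (0:ℝ) ≤ 1 / 2 ^ H * (2 ^ K * 2 ^ (q + 2 * L + 2)) by positivity)
      have h4 := pw1 (φ.atoms.length + (q + 2 * L + 2)) (by omega)
      have h5 : (2:ℝ) ^ φ.atoms.length * (1 / 2 ^ H * (2 ^ K * 2 ^ (q + 2 * L + 2))) =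
        2 ^ K * (1 / 2 ^ H) * 2 ^ (φ.atoms.length + (q + 2 * L + 2)) := by rw [pow_add 2 φ.atoms.length]; ring
      have h6 := inv_pow_mono (show 1 ≤ H - K - (φ.atoms.length + (q + 2 * L + 2)) by omega)
      rw [pow_one] at h6
      linarith
    have tri : ∀ X Y Z : ℝ, |X + Y + Z| ≤ |X| + |Y| + |Z| := by
      intro X Y Z
      refine (abs_add_le _ _).trans ?_
      gcongr
      exact abs_add_le _ _
    exact (tri _ _ _).trans (by linarith)
  refine ⟨T, l0, hl0T, z, ?_, ω, ?_, hgrad, ?_⟩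
  · unfold Zg
    rw [Fintype.mem_piFinset]
    intro i
    exact floor_mem H (x i) (hx i i.2)
  · unfold Om
    rw [Fintype.mem_piFinset]
    intro l
    by_cases h1 : l = l0
    · rw [if_pos h1, Finset.mem_singleton, h1]
      simp only [hω, hl0, one_mul]
      have : (2:ℝ) ^ H = ((2 ^ H : ℤ) : ℝ) := by push_cast; rfl
      rw [this, Int.floor_intCast]
    · by_cases h2 : l ∈ T
      · rw [if_neg h1, if_pos h2]; exact floor_mem H (w l) (hw1 l)
      · rw [if_neg h1, if_neg h2, Finset.mem_singleton]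
        have h3 : w l = 0 := by
          by_contra hc
          exact h2 (by simp [hT, hc])
        simp only [hω, h3, zero_mul, Int.floor_zero]
  · intro l hl
    have h1 : w l ≠ 0 := by simpa [hT] using hl
    have h2 := hw2 l h1
    have h3 := hval l
    have h4 : pv φ n q K a l x0 = (pv φ n q K a l x0 - pv φ n q K a l x) +
      pv φ n q K a l x := by ring
    rw [h4]
    exact (abs_add_le _ _).trans (by linarith)

theorem bad_count (hv : ∀ a ∈ φ.atoms, VarsLt n a.1 ∧ VarsLt n a.2) (e : ℕ)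
    (hK : e + (q + 5 * φ.toks.length + n + 10) * (n + φ.toks.length) ≤ K) :
    2 ^ e * {a | BadA φ n q K a}.ncard ≤ (2 ^ K) ^ (φ.atoms.length * (n + 1)) := by
  classical
  set H := gH φ n q K with hH
  set L := φ.toks.length with hL
  set M := (2 ^ K) ^ (φ.atoms.length * (n + 1)) with hM
  have hAL : φ.atoms.length ≤ L := atoms_len φ
  have hHe : H = K + (q + 4 * L + φ.atoms.length + n + 3) := rfl
  set g := q + 4 * L + φ.atoms.length + n + 3 with hg
  -- the union bound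
  have hsub : {a | BadA φ n q K a} ⊆ ((univ : Finset (Finset (Fin φ.atoms.length))).biUnion fun T =>
      T.biUnion fun l0 => (Zg n H).biUnion fun z => (Om φ T l0 H).biUnion fun ω =>
        univ.filter fun a => Ev φ n q K T z ω a : Finset (Arr φ n K)) := by
    intro a ha
    obtain ⟨T, l0, h1, z, h2, ω, h3, h4⟩ := cover φ n q K hv a ha
    simp only [Finset.coe_biUnion, Set.mem_iUnion]
    refine ⟨T, by simp, l0, h1, z, h2, ω, h3, ?_⟩
    simpa using h4
  have hcard : {a | BadA φ n q K a}.ncard ≤ ∑ T : Finset (Fin φ.atoms.length), ∑ l0 ∈ T, ∑ z ∈ Zg n H,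
      ∑ ω ∈ Om φ T l0 H, {a | Ev φ n q K T z ω a}.ncard := by
    refine (Set.ncard_le_ncard hsub (Finset.finite_toSet _)).trans ?_
    rw [Set.ncard_coe_finset]
    refine Finset.card_biUnion_le.trans (Finset.sum_le_sum fun T _ => ?_)
    refine Finset.card_biUnion_le.trans (Finset.sum_le_sum fun l0 _ => ?_)
    refine Finset.card_biUnion_le.trans (Finset.sum_le_sum fun z _ => ?_)
    refine Finset.card_biUnion_le.trans (Finset.sum_le_sum fun ω _ => ?_)
    rw [Count.nc]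
  -- one pair (T, l0)
  set G := 2 * 2 ^ H + 1 with hG
  have hGle : G ≤ 2 ^ K * 2 ^ (g + 2) := by
    have h1 : 2 ^ K * 2 ^ (g + 2) = 4 * 2 ^ H := by
      rw [hHe, pow_add 2 K, pow_add 2 g]; ring
    rw [h1, hG]
    have : 1 ≤ 2 ^ H := Nat.one_le_two_pow
    omega
  have hone : ∀ T : Finset (Fin φ.atoms.length), ∀ l0 ∈ T, (∑ z ∈ Zg n H, ∑ ω ∈ Om φ T l0 H,
      {a | Ev φ n q K T z ω a}.ncard) * 2 ^ K ≤ 2 ^ ((g + 5) * (n + φ.atoms.length)) * M := by
    intro T l0 hl0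
    set t := n + T.card with ht
    have hTpos : 0 < T.card := Finset.card_pos.2 ⟨l0, hl0⟩
    have htpos : 0 < t := by omega
    have hTA : T.card ≤ φ.atoms.length := by
      have := Finset.card_le_univ T
      rwa [Fintype.card_fin] at this
    have hev : ∀ z ∈ Zg n H, ∀ ω ∈ Om φ T l0 H,
        {a | Ev φ n q K T z ω a}.ncard * (2 ^ K) ^ t ≤ 5 ^ t * M := by
      intro z _ ω hω
      have h1 : ω l0 = 2 ^ H := by
        unfold Om at hω
        rw [Fintype.mem_piFinset] at hω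
        have := hω l0
        rw [if_pos rfl, Finset.mem_singleton] at this
        exact this
      exact Ev_count φ n q K T l0 z ω h1
    have hsum : (∑ z ∈ Zg n H, ∑ ω ∈ Om φ T l0 H, {a | Ev φ n q K T z ω a}.ncard) *
        (2 ^ K) ^ t ≤ ((Zg n H).card * (Om φ T l0 H).card) * (5 ^ t * M) := by
      rw [Finset.sum_mul]
      refine (Finset.sum_le_sum fun z hz => ?_).trans
        (le_of_eq (by rw [Finset.sum_const, smul_eq_mul]; ring :
          ∑ _z ∈ Zg n H, (Om φ T l0 H).card * (5 ^ t * M) = _))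
      rw [Finset.sum_mul]
      refine (Finset.sum_le_sum fun ω hω => hev z hz ω hω).trans ?_
      rw [Finset.sum_const, smul_eq_mul]
    have hcO := card_Om φ T l0 H hl0
    rw [card_Zg] at hsum
    -- (G^n * |Om|) * G = G^t
    have hGt : (G ^ n * (Om φ T l0 H).card) * G = G ^ t := by
      rw [mul_assoc, hcO, ← pow_add]
    have hGt1 : G ^ n * (Om φ T l0 H).card = G ^ (t - 1) := by
      have hGpos : 0 < G := by omega
      apply Nat.eq_of_mul_eq_mul_right hGpos
      rw [hGt, ← pow_succ]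
      congr 1; omega
    rw [hGt1] at hsum
    have hG2 : G ^ (t - 1) ≤ (2 ^ K) ^ (t - 1) * 2 ^ ((g + 2) * (t - 1)) := by
      rw [pow_mul 2 (g + 2), ← mul_pow]
      exact Nat.pow_le_pow_left hGle _
    have h5 : 5 ^ t ≤ 2 ^ (3 * t) := by
      rw [pow_mul]; exact Nat.pow_le_pow_left (by norm_num) _
    set S := ∑ z ∈ Zg n H, ∑ ω ∈ Om φ T l0 H, {a | Ev φ n q K T z ω a}.ncard with hS
    have hfin : (S * 2 ^ K) * (2 ^ K) ^ (t - 1) ≤
        (2 ^ ((g + 5) * (n + φ.atoms.length)) * M) * (2 ^ K) ^ (t - 1) := by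
      have e1 : (S * 2 ^ K) * (2 ^ K) ^ (t - 1) = S * (2 ^ K) ^ t := by
        rw [mul_assoc, ← pow_succ']
        congr 2; omega
      rw [e1]
      refine hsum.trans ?_
      calc G ^ (t - 1) * (5 ^ t * M) ≤
          ((2 ^ K) ^ (t - 1) * 2 ^ ((g + 2) * (t - 1))) * (2 ^ (3 * t) * M) :=
            Nat.mul_le_mul hG2 (Nat.mul_le_mul_right _ h5)
        _ = (2 ^ ((g + 2) * (t - 1) + 3 * t) * M) * (2 ^ K) ^ (t - 1) := by
            rw [pow_add 2 ((g + 2) * (t - 1))]; ring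
        _ ≤ (2 ^ ((g + 5) * (n + φ.atoms.length)) * M) * (2 ^ K) ^ (t - 1) := by
            apply Nat.mul_le_mul_right
            apply Nat.mul_le_mul_right
            apply Nat.pow_le_pow_right (by norm_num)
            have h6 : (g + 2) * (t - 1) + 3 * t ≤ (g + 5) * t := by
              have : (g + 2) * (t - 1) ≤ (g + 2) * t := Nat.mul_le_mul_left _ (by omega)
              nlinarith
            exact h6.trans (Nat.mul_le_mul_left _ (by omega))
    exact Nat.le_of_mul_le_mul_right hfin (by positivity)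
  -- sum over T and l0
  set S := {a | BadA φ n q K a}.ncard with hS
  have hS1 : S * 2 ^ K ≤ 2 ^ (2 * φ.atoms.length) * (2 ^ ((g + 5) * (n + φ.atoms.length)) * M) := by
    refine (Nat.mul_le_mul_right _ hcard).trans ?_
    rw [Finset.sum_mul]
    have h1 : ∀ T : Finset (Fin φ.atoms.length), (∑ l0 ∈ T, ∑ z ∈ Zg n H, ∑ ω ∈ Om φ T l0 H,
        {a | Ev φ n q K T z ω a}.ncard) * 2 ^ K ≤ 2 ^ φ.atoms.length * (2 ^ ((g + 5) * (n + φ.atoms.length)) * M) := by
      intro T
      rw [Finset.sum_mul]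
      refine (Finset.sum_le_sum fun l0 hl0 => hone T l0 hl0).trans ?_
      rw [Finset.sum_const, smul_eq_mul]
      apply Nat.mul_le_mul_right
      have h2 : T.card ≤ φ.atoms.length := by
        have := Finset.card_le_univ T
        rwa [Fintype.card_fin] at this
      exact h2.trans (Nat.lt_two_pow_self).le
    refine (Finset.sum_le_sum fun T _ => h1 T).trans ?_
    rw [Finset.sum_const, smul_eq_mul, Finset.card_univ, Fintype.card_finset, Fintype.card_fin]
    apply le_of_eq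
    rw [two_mul, pow_add]; ring
  have hexp : e + (2 * φ.atoms.length + (g + 5) * (n + φ.atoms.length)) ≤ K := by
    refine le_trans ?_ hK
    have h1 : (g + 5) * (n + φ.atoms.length) ≤ (q + 5 * L + n + 8) * (n + L) :=
      Nat.mul_le_mul (by omega) (by omega)
    have h2 : (q + 5 * L + n + 10) * (n + L) = (q + 5 * L + n + 8) * (n + L) + 2 * (n + L) := by
      ring
    omega
  have h3 : 2 ^ e * (2 ^ (2 * φ.atoms.length) * 2 ^ ((g + 5) * (n + φ.atoms.length))) ≤ 2 ^ K := by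
    rw [← pow_add, ← pow_add]
    exact Nat.pow_le_pow_right (by norm_num) hexp
  have h4 : (2 ^ e * S) * (2 ^ (2 * φ.atoms.length) * 2 ^ ((g + 5) * (n + φ.atoms.length))) ≤
      M * (2 ^ (2 * φ.atoms.length) * 2 ^ ((g + 5) * (n + φ.atoms.length))) := by
    calc (2 ^ e * S) * (2 ^ (2 * φ.atoms.length) * 2 ^ ((g + 5) * (n + φ.atoms.length)))
        = S * (2 ^ e * (2 ^ (2 * φ.atoms.length) * 2 ^ ((g + 5) * (n + φ.atoms.length)))) := by ring
      _ ≤ S * 2 ^ K := Nat.mul_le_mul_left _ h3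
      _ ≤ _ := hS1
      _ = _ := by ring
  exact Nat.le_of_mul_le_mul_right h4 (by positivity)

end

end Pool.Agent.Helper54.ETR
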