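import Pool.Agent.Helper54.Sm.Mach
import Pool.Agent.Helper54.Sm.Defs
import Pool.Agent.Helper54.Sm.Prob2

section
open Pool.Agent.Helper54.Poly

namespace Pool.Agent.Helper54.ETR

theorem zipIdx_all (F : List Ent → ℕ → Bool) (Bs : List (List Ent)) (i0 : ℕ) :
    ((Bs.zipIdx i0).all fun x => F x.1 x.2) = true ↔
      ∀ j (h : j < Bs.length), F Bs[j] (i0 + j) = true := by
  induction Bs generalizing i0 with
  | nil => simp
  | cons B Bs ih =>
    rw [List.zipIdx_cons, List.all_cons, Bool.and_eq_true, ih]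
    constructor
    · rintro ⟨h1, h2⟩ j hj
      cases j with
      | zero => rw [List.getElem_cons_zero, Nat.add_zero]; exact h1
      | succ j =>
        have := h2 j (by simpa using hj)
        simp only [List.getElem_cons_succ]
        rw [show i0 + (j + 1) = i0 + 1 + j by ring]; exact this
    · intro h
      refine ⟨by
        have h0 := h 0 (by simp)
        rw [List.getElem_cons_zero, Nat.add_zero] at h0
        exact h0, fun j hj => ?_⟩
      have := h (j + 1) (by simpa using hj)
      simp only [List.getElem_cons_succ] at this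
      rw [show i0 + 1 + j = i0 + (j + 1) by ring]; exact this

theorem fin2_true {o : Option (List Val)} (h : fin2 o = true) :
    ∃ v, o = some [v] ∧ kd (true, true) v = true ∧ v.2.2.2.1 = true := by
  cases o with
  | none => simp [fin2] at h
  | some st =>
    rcases st with _ | ⟨v, t⟩
    · simp [fin2] at h
    · simp only [fin2, Bool.and_eq_true, List.isEmpty_iff] at h
      obtain ⟨h1, h2, h3⟩ := h
      subst h1
      exact ⟨v, rfl, h2, h3⟩

theorem getD_map (p : Form) (G : Term × Term → Bool) (i : Fin p.atoms.length) :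
    (p.atoms.map G).getD i.1 false = G (p.atoms.get i) := by
  rw [List.getD_eq_getElem?_getD, List.getElem?_map, List.getElem?_eq_getElem i.2]
  rfl

theorem sgOf_zero {k : Bool × Bool} (h : sgOf k = 0) : k = (false, false) := by
  obtain ⟨a, b⟩ := k
  cases a <;> cases b <;> simp_all [sgOf]

theorem sgOf_inj {k k' : Bool × Bool} (hk : k ≠ (true, true)) (hk' : k' ≠ (true, true))
    (h : sgOf k = sgOf k') : k = k' := by
  obtain ⟨a, b⟩ := k
  obtain ⟨a', b'⟩ := k'
  cases a <;> cases b <;> cases a' <;> cases b' <;> simp_all [sgOf]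

theorem kk_some {c : Ctx} {a : Term × Term} {k : Bool × Bool} (h : kcls c a.1 a.2 = some k) :
    kk c a = k := by unfold kk; rw [h]; rfl

theorem ver2a_sound (p : Form) (N : ℕ) (hN : p.toks.length ≤ N) (A : List Ent)
    (Bs : List (List Ent)) (r : FRec) (hr : fval (ctx0 N A) p = some r) (htv : r.1 = true)
    (hok : okpt N A = true)
    (hlen : (clsL (ctx0 N A) Tok.lt p.toks).length ≤ Bs.length)
    (hloop : (Bs.foldl (lstep (chkB N A p.toks)) (0, true)).2 = true) :
    ∃ x : ℕ → ℝ, p.Holds x := by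
  set c0 := ctx0 N A with hc0
  obtain ⟨h1, h2, _⟩ := fval_sem c0 p r hr
  have hn0 := clsLt' c0 p h1
  have hp0 := clsGt' c0 p h1
  rw [hn0, List.length_map] at hlen
  rw [lstep_fold, Bool.true_and] at hloop
  have hloop' := (zipIdx_all (chkB N A p.toks) Bs 0).1 hloop
  set sg := sgc c0 with hsg
  have hv : ∀ a ∈ p.atoms, VarsLt A.length a.1 ∧ VarsLt A.length a.2 := by
    intro a ha
    obtain ⟨⟨k, hk⟩, _⟩ := h1 a ha
    obtain ⟨u, v, hu, hv, _⟩ := kcls_dec hk
    exact ⟨(tval_sem c0 _ _ hu).2.2, (tval_sem c0 _ _ hv).2.2⟩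
  have hBlt : ∀ e : EE p sg, e.1.1 < Bs.length := fun e => lt_of_lt_of_le e.1.2 hlen
  have hB : ∀ e : EE p sg, chkB N A p.toks (Bs[e.1.1]'(hBlt e)) e.1.1 = true := by
    intro e
    have := hloop' e.1.1 (hBlt e)
    rwa [Nat.zero_add] at this
  -- facts at the other points
  have hfacts : ∀ e : EE p sg, (∀ a ∈ p.atoms, ∃ k, kcls (ctx1 N (Bs[e.1.1]'(hBlt e))) a.1 a.2 =
        some k) ∧ gGt (kk (ctx1 N (Bs[e.1.1]'(hBlt e))) (p.atoms.get e.1)) = true ∧
      ∀ l : Fin p.atoms.length, l ≠ e.1 → kk (ctx1 N (Bs[e.1.1]'(hBlt e))) (p.atoms.get l) =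
        kk c0 (p.atoms.get l) := by
    intro e
    have h3 := hB e
    set B := Bs[e.1.1]'(hBlt e) with hBdef
    unfold chkB at h3
    rw [Bool.and_eq_true, Bool.and_eq_true] at h3
    obtain ⟨⟨_, _⟩, h6⟩ := h3
    have hz : kk c0 (p.atoms.get e.1) = (false, false) := by
      apply sgOf_zero
      rw [kk_sg]; exact e.2
    have hz1 : (clsL c0 Tok.lt p.toks).getD e.1.1 false = false := by
      rw [hn0, getD_map, hz]; rfl
    have hz2 : (clsL c0 Tok.gt p.toks).getD e.1.1 false = false := by
      rw [hp0, getD_map, hz]; rfl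
    obtain ⟨h7, h8, h9⟩ := chk_sem h6 hz1 hz2
    have hpos := atoms_pos p
    have hne1 : clsL (ctx1 N B) Tok.lt p.toks ≠ [] := by
      rw [h7, hn0]
      intro h
      have := congrArg List.length h
      rw [List.length_map, List.length_nil] at this
      omega
    have hne2 : clsL (ctx1 N B) Tok.gt p.toks ≠ [] := by
      intro h
      rw [h] at h8
      simp at h8
    obtain ⟨g1, g2⟩ := clsLt (ctx1 N B) p hne1
    obtain ⟨_, g4⟩ := clsGt (ctx1 N B) p hne2
    refine ⟨g1, ?_, fun l hl => ?_⟩
    · rw [g4, getD_map] at h8; exact h8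
    · have e1 : gLt (kk (ctx1 N B) (p.atoms.get l)) = gLt (kk c0 (p.atoms.get l)) := by
        have := congrArg (fun m : List Bool => m.getD l.1 false) h7
        rwa [g2, hn0, getD_map, getD_map] at this
      have e2 : gGt (kk (ctx1 N B) (p.atoms.get l)) = gGt (kk c0 (p.atoms.get l)) := by
        have := h9 l.1 (fun h => hl (Fin.ext h))
        rwa [g4, hp0, getD_map, getD_map] at this
      exact Prod.ext e1 e2
  obtain ⟨x, hx⟩ := sound_core p A.length N hN hv sg (xx c0)
    (fun e => xx (ctx1 N (Bs[e.1.1]'(hBlt e)))) (pr0 N) (pr1 N) (pre N) (ps N)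
    (by unfold pr0 ps; omega) (by unfold pr1 ps; omega) (by unfold pr1 pre; omega)
    (by
      intro i hi
      rcases hdi : A.drop i with _ | ⟨en, l⟩
      · rw [List.drop_eq_nil_iff] at hdi; omega
      · have hmem : en ∈ A := by
          apply List.mem_of_mem_drop (i := i)
          rw [hdi]; exact List.mem_cons_self
        unfold okpt at hok
        rw [List.all_eq_true] at hok
        have hen := hok en hmem
        simp only [entOk, Bool.and_eq_true, decide_eq_true_eq] at hen
        obtain ⟨e1, e2⟩ := hen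
        have e1' : (en.2.1.n : ℝ) ≤ 2 ^ (pL N + 1) := by exact_mod_cast e1
        have e2' : (en.2.2.n : ℝ) ≤ 2 ^ (pL N + 1) := by exact_mod_cast e2
        have hxx : xx c0 i = ((en.2.1.n : ℝ) - en.2.2.n) / 2 ^ pL N := by
          simp only [xx, hc0, ctx0, hdi]
        have hpos : (0:ℝ) < 2 ^ pL N := by positivity
        have h6 : |(en.2.1.n : ℝ) - en.2.2.n| ≤ 2 ^ (pL N + 1) := by
          rw [abs_le]
          have : (0:ℝ) ≤ en.2.1.n := Nat.cast_nonneg _
          have : (0:ℝ) ≤ en.2.2.n := Nat.cast_nonneg _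
          constructor <;> linarith
        rw [hxx, abs_div, abs_of_pos hpos, div_le_iff₀ hpos]
        rw [pow_succ] at h6
        linarith)
    (by
      intro e i _
      have h3 := hB e
      unfold chkB at h3
      rw [Bool.and_eq_true, Bool.and_eq_true] at h3
      exact (nearL_sem (pL N) (ps N) (pr1 N, pre N) (pr0 N, pre N) _ _ h3.1.1).2 i)
    (by
      intro a ha hs
      obtain ⟨⟨k, hk⟩, _⟩ := h1 a ha
      have : sgOf k = 0 := by rw [← kk_some hk, kk_sg]; exact hs
      exact (kcls_val c0 a k hk).1 this)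
    (by
      intro a ha hs
      obtain ⟨⟨k, hk⟩, _⟩ := h1 a ha
      have : sgOf k = -1 := by rw [← kk_some hk, kk_sg]; exact hs
      exact (kcls_val c0 a k hk).2.2 this)
    (by
      intro a ha hs
      obtain ⟨⟨k, hk⟩, _⟩ := h1 a ha
      have : sgOf k = 1 := by rw [← kk_some hk, kk_sg]; exact hs
      exact (kcls_val c0 a k hk).2.1 this)
    (by
      intro e
      obtain ⟨g1, g2, _⟩ := hfacts e
      obtain ⟨k, hk⟩ := g1 (p.atoms.get e.1) (List.get_mem _ _)
      have hk' := kk_some hk
      have hval := kk_valid (ctx1 N (Bs[e.1.1]'(hBlt e))) (p.atoms.get e.1)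
      rw [hk'] at g2 hval
      have : sgOf k = 1 := by
        obtain ⟨a, b⟩ := k
        cases a <;> cases b <;> simp_all [gGt, sgOf]
      exact (kcls_val _ _ k hk).2.1 this)
    (by
      intro e e' hne
      obtain ⟨g1, _, g3⟩ := hfacts e'
      obtain ⟨k, hk⟩ := g1 (p.atoms.get e.1) (List.get_mem _ _)
      have hk' := kk_some hk
      have h4 := g3 e.1 (fun h => hne (Subtype.ext h))
      have h5 : sgOf k = 0 := by
        rw [← hk', h4, kk_sg]; exact e.2
      exact (kcls_val _ _ k hk).1 h5)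
  refine ⟨x, ?_⟩
  rw [holds_iff x sg p hx, ← h2]
  exact htv

theorem ver2_sound (u w : List Bool) (h : ver2 u w = true) :
    ∃ p : Form, u = p.code ∧ ∃ x : ℕ → ℝ, p.Holds x := by
  unfold ver2 at h
  rw [Bool.and_eq_true, List.isEmpty_iff] at h
  obtain ⟨h1, h2⟩ := h
  rcases hp : pts w with _ | ⟨A, Bs⟩
  · rw [hp] at h2; simp at h2
  · rw [hp] at h2
    simp only [ver2a, Bool.and_eq_true, decide_eq_true_eq] at h2
    obtain ⟨⟨h3, h4⟩, h5, h6⟩ := h2
    obtain ⟨v, h7, h8, h9⟩ := fin2_true h4
    rw [veval_eq] at h7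
    cases hpa : parse (tk u).2 with
    | none => rw [hpa] at h7; simp at h7
    | some st =>
      rw [hpa, Option.bind_some] at h7
      rcases st with _ | ⟨o, st⟩
      · simp [ovals] at h7
      · obtain ⟨v', vs, o1, o2, o3⟩ := ovals_cons h7
        simp only [List.cons.injEq] at o3
        obtain ⟨rfl, rfl⟩ := o3
        rcases st with _ | ⟨o', st⟩
        · rw [kd_oval o1, decide_eq_true_eq] at h8
          cases o with
          | num i => simp [okind] at h8
          | tm t => simp [okind] at h8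
          | fm p =>
            obtain ⟨r, hr, rfl⟩ := oval_fm o1
            have hu : u = p.code := (decode_iff u p).2 ⟨h1, hpa⟩
            have hlen : p.toks.length ≤ u.length := by rw [hu]; exact toks_le_code p
            have htk : (tk u).2 = p.toks := by
              have := tk_complete p.toks
              rw [hu, Form.code, this]
            refine ⟨p, hu, ?_⟩
            rw [htk] at h5 h6
            exact ver2a_sound p u.length hlen A Bs r hr h9 h3 h5 h6
        · obtain ⟨v'', vs', o4, o5, o6⟩ := ovals_cons o2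
          simp at o6

/-! ### completeness -/

/-- list form of an integer point -/
def lpt (n : ℕ) (z : ℕ → ℤ) : List Ent := (List.range n).map fun j => mkEnt true (z j)

theorem lpt_len (n : ℕ) (z : ℕ → ℤ) : (lpt n z).length = n := by simp [lpt]

theorem lpt_drop (n : ℕ) (z : ℕ → ℤ) (i : ℕ) (hi : i < n) :
    ∃ l, (lpt n z).drop i = mkEnt true (z i) :: l := by
  have h : i < (lpt n z).length := by rw [lpt_len]; exact hi
  rw [List.drop_eq_getElem_cons h]
  refine ⟨(lpt n z).drop (i + 1), ?_⟩
  simp [lpt]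

theorem xx_lpt (n L : ℕ) (q : ℕ × ℕ) (z : ℕ → ℤ) (i : ℕ) (hi : i < n) :
    xx (lpt n z, (L, q)) i = ptz L z i := by
  obtain ⟨l, hl⟩ := lpt_drop n z i hi
  simp only [xx, hl]
  rw [mkEnt_val]; rfl

theorem XX_lpt (n L : ℕ) (q : ℕ × ℕ) (z : ℕ → ℤ) (i : ℕ) (hi : i < n) :
    i ∈ XX (lpt n z, (L, q)) := by
  obtain ⟨l, hl⟩ := lpt_drop n z i hi
  simp only [XX, lpt_len, Finset.mem_filter, Finset.mem_range, hi, true_and, flagAt, hl]
  rfl

theorem av_congr (p : Form) (n : ℕ) (hv : ∀ a ∈ p.atoms, VarsLt n a.1 ∧ VarsLt n a.2)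
    (x z : ℕ → ℝ) (h : ∀ i < n, x i = z i) (a : Term × Term) (ha : a ∈ p.atoms) :
    av x a = av z a := by
  obtain ⟨v1, v2⟩ := hv a ha
  unfold av
  rw [eval_congr n x z h _ v1, eval_congr n x z h _ v2]

theorem okpt_lpt (n N : ℕ) (z : ℕ → ℤ) (h : ∀ j < n, (z j).natAbs ≤ 2 ^ (pL N + 1)) :
    okpt N (lpt n z) = true := by
  unfold okpt lpt
  rw [List.all_eq_true]
  intro e he
  rw [List.mem_map] at he
  obtain ⟨j, hj, rfl⟩ := he
  have := h j (List.mem_range.1 hj)
  simp only [entOk, mkEnt, Bool.and_eq_true, decide_eq_true_eq]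
  constructor
  · exact le_trans (by omega) this
  · exact le_trans (by omega) this

/-- classes at a list point -/
theorem cls_lpt (p : Form) (n L r re : ℕ) (hv : ∀ a ∈ p.atoms, VarsLt n a.1 ∧ VarsLt n a.2)
    (z : ℕ → ℤ) (hre : r + 1 ≤ re) (s : Fin p.atoms.length → SignType)
    (hz : ∀ l, s l = 0 → |av (ptz L z) (p.atoms.get l)| ≤ 1 / 2 ^ re)
    (hp : ∀ l, s l = 1 → 1 / 2 ^ r ≤ av (ptz L z) (p.atoms.get l))
    (hn : ∀ l, s l = -1 → av (ptz L z) (p.atoms.get l) ≤ -(1 / 2 ^ r)) :
    (∀ a ∈ p.atoms, (∃ k, kcls (lpt n z, (L, (r, re))) a.1 a.2 = some k) ∧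
      atomDeg (XX (lpt n z, (L, (r, re)))) a ≤ 2) ∧
    ∀ l, sgOf (kk (lpt n z, (L, (r, re))) (p.atoms.get l)) = s l := by
  set c : Ctx := (lpt n z, (L, (r, re))) with hc
  have hlen : c.1.length = n := lpt_len n z
  have hav : ∀ a ∈ p.atoms, av (xx c) a = av (ptz L z) a := fun a ha =>
    av_congr p n hv _ _ (fun i hi => xx_lpt n L (r, re) z i hi) a ha
  have hex : ∀ l : Fin p.atoms.length, ∃ k, kcls c (p.atoms.get l).1 (p.atoms.get l).2 = some k ∧
      sgOf k = s l := by
    intro l
    have hmem : p.atoms.get l ∈ p.atoms := List.get_mem _ _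
    obtain ⟨v1, v2⟩ := hv _ hmem
    refine kcls_ex c (p.atoms.get l) (s l) (by rw [hlen]; exact v1) (by rw [hlen]; exact v2)
      hre ?_ ?_ ?_
    · intro h; rw [hav _ hmem]; exact hz l h
    · intro h; rw [hav _ hmem]; exact hp l h
    · intro h; rw [hav _ hmem]; exact hn l h
  refine ⟨fun a ha => ?_, fun l => ?_⟩
  · obtain ⟨l, hl⟩ := List.get_of_mem ha
    obtain ⟨k, hk, _⟩ := hex l
    rw [hl] at hk
    refine ⟨⟨k, hk⟩, ?_⟩
    obtain ⟨v1, v2⟩ := hv a ha
    unfold atomDeg
    rw [deg_zero n _ (fun i hi => XX_lpt n L (r, re) z i hi) _ v1,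
      deg_zero n _ (fun i hi => XX_lpt n L (r, re) z i hi) _ v2]
    simp
  · obtain ⟨k, hk, hs⟩ := hex l
    rw [kk_some hk]; exact hs

theorem ver2a_complete (p : Form) (n N : ℕ) (hN : p.toks.length ≤ N)
    (hv : ∀ a ∈ p.atoms, VarsLt n a.1 ∧ VarsLt n a.2) (x : ℕ → ℝ) (hx : ∀ i < n, |x i| ≤ 1)
    (hreg : Regl p n x) (hh : p.Holds x) :
    ∃ (z0 : ℕ → ℤ) (zy : Fin p.atoms.length → ℕ → ℤ),
      (∀ j < n, (z0 j).natAbs ≤ 2 ^ (pL N + 1)) ∧
      (∀ i, ∀ j < n, (zy i j).natAbs ≤ 2 ^ (pL N + 1)) ∧
      ver2a N p.toks (lpt n z0) (List.ofFn fun i => lpt n (zy i)) = true := by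
  obtain ⟨z0, zy, b0, by', hd, h0, hy⟩ := compl_core p n N hN hv x hx hreg
  refine ⟨z0, zy, b0, by', ?_⟩
  set sg : Term × Term → SignType := fun a => SignType.sign (a.1.eval x - a.2.eval x) with hsg
  have hsg0 : ∀ a, sg a = 0 ↔ av x a = 0 := fun a => sign_eq_zero_iff
  have hsg1 : ∀ a, sg a = 1 ↔ 0 < av x a := fun a => sign_eq_one_iff
  have hsgm : ∀ a, sg a = -1 ↔ av x a < 0 := fun a => sign_eq_neg_one_iff
  obtain ⟨c1, c2⟩ := cls_lpt p n (pL N) (pr0 N) (pre N) hv z0 (by unfold pr0 pre; omega)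
    (fun l => sg (p.atoms.get l)) (fun l h => (h0 l).1 ((hsg0 _).1 h))
    (fun l h => (h0 l).2.1 ((hsg1 _).1 h)) (fun l h => (h0 l).2.2 ((hsgm _).1 h))
  set c0 : Ctx := ctx0 N (lpt n z0) with hc0
  have c1' : ∀ a ∈ p.atoms, (∃ k, kcls c0 a.1 a.2 = some k) ∧ atomDeg (XX c0) a ≤ 2 := c1
  have c2' : ∀ l, sgOf (kk c0 (p.atoms.get l)) = sg (p.atoms.get l) := c2
  obtain ⟨r, hr⟩ := fval_ex c0 p c1'
  obtain ⟨_, hr2, _⟩ := fval_sem c0 p r hr
  have htv : r.1 = true := by
    rw [hr2, ← (holds_iff x sg p fun a _ => rfl).1 hh]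
    apply tv_congr
    intro a ha
    obtain ⟨l, hl⟩ := List.get_of_mem ha
    rw [← hl, ← kk_sg]; exact c2' l
  have hn0 := clsLt' c0 p c1'
  have hp0 := clsGt' c0 p c1'
  have hveval : veval c0 p.toks = some [vfm r] := by
    have hpar := parse_form p [] [] rfl
    rw [List.append_nil] at hpar
    rw [veval_eq, hpar, Option.bind_some]
    refine ovals_mk ?_ rfl
    simp only [oval, hr]
  unfold ver2a
  simp only [Bool.and_eq_true, decide_eq_true_eq]
  refine ⟨⟨okpt_lpt n N z0 b0, ?_⟩, ?_, ?_⟩
  · rw [← hc0, hveval]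
    simp only [fin2, vfm, List.isEmpty_nil, Bool.true_and, Bool.and_eq_true]
    exact ⟨rfl, htv⟩
  · rw [← hc0, hn0, List.length_map, List.length_ofFn]
  · rw [lstep_fold, Bool.true_and, zipIdx_all]
    intro j hj
    rw [List.length_ofFn] at hj
    rw [Nat.zero_add, List.getElem_ofFn]
    set i : Fin p.atoms.length := ⟨j, hj⟩ with hi
    unfold chkB
    simp only [Bool.and_eq_true]
    refine ⟨⟨?_, okpt_lpt n N (zy i) (by' i)⟩, ?_⟩
    · exact nearL_mk (pL N) (ps N) (zy i) z0 (List.range n) fun l hl =>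
        hd i l (List.mem_range.1 hl)
    · -- classes at the i-th point
      by_cases hzi : av x (p.atoms.get i) = 0
      · obtain ⟨y1, y2⟩ := hy i hzi
        obtain ⟨d1, d2⟩ := cls_lpt p n (pL N) (pr1 N) (pre N) hv (zy i)
          (by unfold pr1 pre; omega)
          (fun l => if l = i then 1 else sg (p.atoms.get l))
          (by
            intro l h
            by_cases hl : l = i
            · rw [if_pos hl] at h; exact absurd h (by decide)
            · rw [if_neg hl] at h
              exact (y2 l).1 ((hsg0 _).1 h) hl)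
          (by
            intro l h
            by_cases hl : l = i
            · rw [hl]; exact y1
            · rw [if_neg hl] at h
              exact (y2 l).2.1 ((hsg1 _).1 h))
          (by
            intro l h
            by_cases hl : l = i
            · rw [if_pos hl] at h; exact absurd h (by decide)
            · rw [if_neg hl] at h
              exact (y2 l).2.2 ((hsgm _).1 h))
        set c1 : Ctx := ctx1 N (lpt n (zy i)) with hc1
        have d1' : ∀ a ∈ p.atoms, (∃ k, kcls c1 a.1 a.2 = some k) ∧ atomDeg (XX c1) a ≤ 2 := d1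
        have d2' : ∀ l, sgOf (kk c1 (p.atoms.get l)) =
          if l = i then 1 else sg (p.atoms.get l) := d2
        have hn1 := clsLt' c1 p d1'
        have hp1 := clsGt' c1 p d1'
        rw [hn0, hp0, hn1, hp1]
        have hne : ∀ l, l ≠ i → kk c1 (p.atoms.get l) = kk c0 (p.atoms.get l) := by
          intro l hl
          apply sgOf_inj (kk_valid _ _) (kk_valid _ _)
          rw [d2', c2', if_neg hl]
        have hi0 : kk c0 (p.atoms.get i) = (false, false) := by
          apply sgOf_zero
          rw [c2']; exact (hsg0 _).2 hzi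
        have hi1 : kk c1 (p.atoms.get i) = (false, true) := by
          have h5 := d2' i
          rw [if_pos rfl] at h5
          have h6 := kk_valid c1 (p.atoms.get i)
          generalize kk c1 (p.atoms.get i) = k at h5 h6
          obtain ⟨a, b⟩ := k
          cases a <;> cases b <;> simp_all [sgOf]
        apply chk_mk
        · rw [List.length_map, List.length_map]
        · intro _ _
          refine ⟨?_, ?_, ?_⟩
          · apply List.ext_getElem
            · rw [List.length_map, List.length_map]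
            · intro l h1 h2
              rw [List.length_map] at h1
              rw [List.getElem_map, List.getElem_map]
              by_cases hl : (⟨l, h1⟩ : Fin p.atoms.length) = i
              · have e0 : p.atoms[l] = p.atoms.get i := by rw [← hl]; rfl
                rw [e0, hi0, hi1]; rfl
              · have := hne ⟨l, h1⟩ hl
                have e0 : p.atoms[l] = p.atoms.get ⟨l, h1⟩ := rfl
                rw [e0, this]
          · have := getD_map p (fun a => gGt (kk c1 a)) i
            rw [show j = i.1 from rfl, this, hi1]; rfl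
          · intro l hl
            rcases Nat.lt_or_ge l p.atoms.length with h1 | h1
            · have e1 := getD_map p (fun a => gGt (kk c1 a)) ⟨l, h1⟩
              have e2 := getD_map p (fun a => gGt (kk c0 a)) ⟨l, h1⟩
              simp only at e1 e2
              rw [e1, e2, hne ⟨l, h1⟩ (fun h => hl (congrArg Fin.val h))]
            · rw [List.getD_eq_getElem?_getD, List.getD_eq_getElem?_getD,
                List.getElem?_eq_none (by rw [List.length_map]; exact h1),
                List.getElem?_eq_none (by rw [List.length_map]; exact h1)]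
      · have hz : sg (p.atoms.get i) ≠ 0 := fun h => hzi ((hsg0 _).1 h)
        have hk := c2' i
        have hval := kk_valid c0 (p.atoms.get i)
        have e1 := getD_map p (fun a => gLt (kk c0 a)) i
        have e2 := getD_map p (fun a => gGt (kk c0 a)) i
        unfold chk
        rw [← hc0, hn0, hp0, show j = i.1 from rfl, e1, e2]
        have h7 : kk c0 (p.atoms.get i) ≠ (false, false) := by
          intro h; rw [h] at hk; exact hz hk.symm
        generalize kk c0 (p.atoms.get i) = k at h7 hval ⊢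
        obtain ⟨a, b⟩ := k
        cases a <;> cases b <;> simp_all [gLt, gGt]

/-- encoding of a point -/
def encPt (n : ℕ) (z : ℕ → ℤ) : List Bool :=
  ((List.range n).map fun j => itemOf true (z j)).flatMap encItem

theorem dec_encPt (n : ℕ) (z : ℕ → ℤ) : (dec (encPt n z)).2.2.map ient = lpt n z := by
  unfold encPt lpt
  rw [dec_enc, List.map_map]
  refine List.map_congr_left fun j _ => ?_
  exact ient_item _ _

theorem encItem_len (l : List Bool) : (encItem l).length = 2 * l.length + 2 := by
  unfold encItem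
  rw [List.length_cons, List.length_cons]
  have : (l.flatMap fun b => [true, b]).length = 2 * l.length := by
    induction l with
    | nil => rfl
    | cons c l ih => rw [List.flatMap_cons, List.length_append, ih, List.length_cons]; simp; ring
  rw [this]

theorem flatMap_len {α : Type} (l : List α) (f : α → List Bool) (K : ℕ)
    (h : ∀ a ∈ l, (f a).length ≤ K) : (l.flatMap f).length ≤ l.length * K := by
  induction l with
  | nil => simp
  | cons a l ih =>
    rw [List.flatMap_cons, List.length_append, List.length_cons, Nat.add_mul, Nat.one_mul]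
    have := h a List.mem_cons_self
    have := ih fun b hb => h b (List.mem_cons_of_mem _ hb)
    omega

theorem encPt_len (n K : ℕ) (z : ℕ → ℤ) (h : ∀ j < n, (z j).natAbs ≤ 2 ^ K) :
    (encPt n z).length ≤ n * (2 * (K + 3) + 2) := by
  unfold encPt
  have h1 := flatMap_len ((List.range n).map fun j => itemOf true (z j)) encItem
    (2 * (K + 3) + 2) (by
      intro l hl
      rw [List.mem_map] at hl
      obtain ⟨j, hj, rfl⟩ := hl
      rw [encItem_len]
      have h3 : (itemOf true (z j)).length ≤ K + 3 := by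
        unfold itemOf
        rw [List.length_cons, List.length_cons, Nat.size_eq_bits_len]
        have h4 := h j (List.mem_range.1 hj)
        have : (z j).natAbs < 2 ^ (K + 1) := by
          rw [pow_succ]
          have : 0 < 2 ^ K := by positivity
          omega
        have := Nat.size_le.2 this
        omega
      omega)
  rwa [List.length_map, List.length_range] at h1

/-- length bound for certificates -/
def clen (N : ℕ) : ℕ := (N + 1) * (2 * (N * (2 * (pL N + 1 + 3) + 2)) + 2)

theorem ver2_complete (p : Form) (n : ℕ) (hn : n ≤ p.code.length)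
    (hv : ∀ a ∈ p.atoms, VarsLt n a.1 ∧ VarsLt n a.2) (x : ℕ → ℝ) (hx : ∀ i < n, |x i| ≤ 1)
    (hreg : Regl p n x) (hh : p.Holds x) :
    ∃ w : List Bool, w.length ≤ clen p.code.length ∧ ver2 p.code w = true := by
  set N := p.code.length with hNdef
  have hN : p.toks.length ≤ N := toks_le_code p
  obtain ⟨z0, zy, b0, by', hver⟩ := ver2a_complete p n N hN hv x hx hreg hh
  set ls : List (List Bool) := encPt n z0 :: List.ofFn fun i => encPt n (zy i) with hls
  refine ⟨ls.flatMap encItem, ?_, ?_⟩
  · have h1 := flatMap_len ls encItem (2 * (N * (2 * (pL N + 1 + 3) + 2)) + 2) (by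
      intro l hl
      rw [encItem_len]
      have h2 : l.length ≤ N * (2 * (pL N + 1 + 3) + 2) := by
        rw [hls, List.mem_cons] at hl
        rcases hl with rfl | hl
        · exact (encPt_len n _ z0 b0).trans (Nat.mul_le_mul_right _ hn)
        · rw [List.mem_ofFn] at hl
          obtain ⟨i, rfl⟩ := hl
          exact (encPt_len n _ (zy i) (by' i)).trans (Nat.mul_le_mul_right _ hn)
      omega)
    refine h1.trans ?_
    unfold clen
    apply Nat.mul_le_mul_right
    rw [hls, List.length_cons, List.length_ofFn]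
    have := atoms_len p
    omega
  · obtain ⟨d1, _⟩ := (decode_iff p.code p).1 rfl
    have htk : (tk p.code).2 = p.toks := by
      have := tk_complete p.toks
      rw [Form.code, this]
    unfold ver2
    rw [Bool.and_eq_true, List.isEmpty_iff]
    refine ⟨d1, ?_⟩
    have hpts : pts (ls.flatMap encItem) = lpt n z0 :: List.ofFn fun i => lpt n (zy i) := by
      unfold pts
      rw [dec_enc, hls, List.map_cons, dec_encPt, List.map_ofFn]
      congr 2
      funext i
      exact dec_encPt n (zy i)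
    rw [hpts, htk]
    exact hver

end Pool.Agent.Helper54.ETR
end

section
open Finset

namespace Pool.Agent.Helper54.ETR

theorem inVars_iff (n : ℕ) (t : Term) : t.InVars n ↔ VarsLt n t := by
  induction t with
  | zero => exact Iff.rfl
  | one => exact Iff.rfl
  | var i => exact Iff.rfl
  | add s t ihs iht | sub s t ihs iht | mul s t ihs iht =>
    simp only [Term.InVars, VarsLt, ihs, iht]

theorem pw_eval (x : ℕ → ℝ) : ∀ m, (pw m).eval x = 2 ^ m
  | 0 => by simp [pw, Term.eval]
  | m + 1 => by simp only [pw, Term.eval, pw_eval x m]; ring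

theorem pw_D (x v : ℕ → ℝ) : ∀ m, (pw m).D x v = 0
  | 0 => rfl
  | m + 1 => by simp [pw, Term.D, pw_D x v m]

theorem pw_vars (n : ℕ) : ∀ m, VarsLt n (pw m)
  | 0 => trivial
  | m + 1 => ⟨⟨trivial, trivial⟩, pw_vars n m⟩

theorem num_eval (x : ℕ → ℝ) : ∀ K v, (num K v).eval x = ((v % 2 ^ K : ℕ) : ℝ)
  | 0, v => by simp [num, Term.eval, Nat.mod_one]
  | K + 1, v => by
    have h : v % 2 ^ (K + 1) = v % 2 + 2 * (v / 2 % 2 ^ K) := by
      rw [pow_succ, mul_comm, Nat.mod_mul]
    simp only [num, Term.eval, num_eval x K]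
    rw [h]
    rcases Nat.mod_two_eq_zero_or_one v with h0 | h0
    · simp [h0, Term.eval]; norm_num
    · simp [h0, Term.eval]; ring

theorem num_D (x v : ℕ → ℝ) : ∀ K c, (num K c).D x v = 0
  | 0, c => rfl
  | K + 1, c => by
    simp only [num, Term.D, num_D x v K]
    split <;> simp [Term.D]

theorem num_vars (n : ℕ) : ∀ K c, VarsLt n (num K c)
  | 0, c => trivial
  | K + 1, c => by
    refine ⟨⟨⟨trivial, trivial⟩, num_vars n K _⟩, ?_⟩
    split <;> trivial

theorem aff_eval (x : ℕ → ℝ) (K : ℕ) (c : ℕ → ℕ) (b : ℕ) : ∀ n, (aff K c b n).eval x =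
    (∑ j ∈ range n, ((c j % 2 ^ K : ℕ) : ℝ) * x j) + ((b % 2 ^ K : ℕ) : ℝ)
  | 0 => by simp [aff, num_eval]
  | n + 1 => by
    simp only [aff, Term.eval, num_eval, aff_eval x K c b n, Finset.sum_range_succ]
    ring

theorem aff_D (x v : ℕ → ℝ) (K : ℕ) (c : ℕ → ℕ) (b : ℕ) : ∀ n, (aff K c b n).D x v =
    (∑ j ∈ range n, ((c j % 2 ^ K : ℕ) : ℝ) * v j)
  | 0 => by simp [aff, num_D]
  | n + 1 => by
    simp only [aff, Term.D, Term.eval, num_eval, num_D, aff_D x v K c b n, Finset.sum_range_succ]
    ring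

theorem aff_vars (m K : ℕ) (c : ℕ → ℕ) (b : ℕ) : ∀ n, n ≤ m → VarsLt m (aff K c b n)
  | 0, _ => num_vars m K b
  | n + 1, h => ⟨⟨num_vars m K _, (show n < m by omega)⟩, aff_vars m K c b n (by omega)⟩

theorem aff_size (K : ℕ) (c : ℕ → ℕ) (b : ℕ) : ∀ n, n ≤ tsz (aff K c b n)
  | 0 => Nat.zero_le _
  | n + 1 => by
    have := aff_size K c b n
    simp only [aff, tsz_add]
    omega

/-- perturbed atom -/
def pat (m : ℕ) (P : ℕ → Term) (i : ℕ) (a : Term × Term) : Term × Term :=
  (Term.add (Term.mul (pw m) a.1) (P i), Term.mul (pw m) a.2)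

theorem pert_atoms (m : ℕ) (P : ℕ → Term) (φ : Form) : ∀ i, (φ.pert m P i).atoms =
    φ.atoms.mapIdx (fun l a => pat m P (i + l) a) := by
  induction φ with
  | lt s t | le s t | eq s t | ge s t | gt s t => intro i; simp [Form.pert, Form.atoms, pat]
  | and p q ihp ihq | or p q ihp ihq =>
    intro i
    simp only [Form.pert, Form.atoms, ihp, ihq, List.mapIdx_append]
    congr 1
    congr 1
    funext l a
    congr 1
    omega
  | not p ih => intro i; simp only [Form.pert, Form.atoms, ih]

variable (φ : Form) (n q K : ℕ) (a : Arr φ n K)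

/-- the perturbing term -/
def sP : ℕ → Term := fun l => aff K
    (fun j => if h : l < φ.atoms.length ∧ j < n + 1 then (a (⟨l, h.1⟩, ⟨j, h.2⟩) : ℕ) else 0)
    (if h : l < φ.atoms.length then (a (⟨l, h⟩, Fin.last n) : ℕ) else 0) n

theorem smooth_atoms : (φ.smooth n q K a).atoms =
    φ.atoms.mapIdx (fun l b => pat (K + q) (sP φ n K a) l b) := by
  have := pert_atoms (K + q) (sP φ n K a) φ 0
  simp only [zero_add] at this
  exact this

theorem smooth_len : (φ.smooth n q K a).atoms.length = φ.atoms.length := by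
  rw [smooth_atoms, List.length_mapIdx]

theorem smooth_get (l : Fin φ.atoms.length) :
    (φ.smooth n q K a).atoms.get (Fin.cast (smooth_len φ n q K a).symm l) =
      pat (K + q) (sP φ n K a) l (φ.atoms.get l) := by
  simp only [List.get_eq_getElem, Fin.val_cast]
  have h := smooth_atoms φ n q K a
  have h2 : (φ.smooth n q K a).atoms[(l:ℕ)]'(by rw [smooth_len]; exact l.2) =
      (φ.atoms.mapIdx (fun l b => pat (K + q) (sP φ n K a) l b))[(l:ℕ)]'(by
        rw [List.length_mapIdx]; exact l.2) := by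
    congr 1
  rw [h2, List.getElem_mapIdx]

theorem sP_eval (l : Fin φ.atoms.length) (x : ℕ → ℝ) : (sP φ n K a l).eval x =
    (∑ j : Fin n, ((a (l, j.castSucc) : ℕ) : ℝ) * x j) + ((a (l, Fin.last n) : ℕ) : ℝ) := by
  unfold sP
  rw [aff_eval, Finset.sum_range]
  congr 1
  · refine Finset.sum_congr rfl fun j _ => ?_
    have h : (l : ℕ) < φ.atoms.length ∧ (j : ℕ) < n + 1 := ⟨l.2, by omega⟩
    rw [dif_pos h, Nat.mod_eq_of_lt (Fin.is_lt _)]
    rfl
  · rw [dif_pos l.2, Nat.mod_eq_of_lt (Fin.is_lt _)]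

theorem sP_D (l : Fin φ.atoms.length) (x v : ℕ → ℝ) : (sP φ n K a l).D x v =
    (∑ j : Fin n, ((a (l, j.castSucc) : ℕ) : ℝ) * v j) := by
  unfold sP
  rw [aff_D, Finset.sum_range]
  refine Finset.sum_congr rfl fun j _ => ?_
  have h : (l : ℕ) < φ.atoms.length ∧ (j : ℕ) < n + 1 := ⟨l.2, by omega⟩
  rw [dif_pos h, Nat.mod_eq_of_lt (Fin.is_lt _)]
  rfl

theorem smooth_av (l : Fin φ.atoms.length) (x : ℕ → ℝ) :
    av x ((φ.smooth n q K a).atoms.get (Fin.cast (smooth_len φ n q K a).symm l)) =
      pv φ n q K a l x := by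
  rw [smooth_get]
  simp only [av, pat, Term.eval, pw_eval, sP_eval, pv]
  ring

theorem smooth_aD (l : Fin φ.atoms.length) (j : Fin n) (x : ℕ → ℝ) :
    aD x (ev1 j) ((φ.smooth n q K a).atoms.get (Fin.cast (smooth_len φ n q K a).symm l)) =
      pg φ n q K a l j x := by
  rw [smooth_get]
  simp only [aD, pat, Term.D, pw_eval, pw_D, sP_D, pg]
  have : ∑ i : Fin n, ((a (l, i.castSucc) : ℕ) : ℝ) * ev1 (j : ℕ) (i : ℕ) =
      ((a (l, j.castSucc) : ℕ) : ℝ) := by
    rw [Finset.sum_eq_single j]
    · simp [ev1]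
    · intro i _ hij
      have : (i : ℕ) ≠ j := fun h => hij (Fin.ext h)
      simp [ev1, this]
    · intro h; exact absurd (Finset.mem_univ _) h
  rw [this]
  ring

theorem smooth_vars (hv : φ.InVars n) : ∀ b ∈ (φ.smooth n q K a).atoms,
    VarsLt n b.1 ∧ VarsLt n b.2 := by
  intro b hb
  rw [smooth_atoms, List.mem_mapIdx] at hb
  obtain ⟨i, hi, rfl⟩ := hb
  have h := hv _ (List.getElem_mem hi)
  rw [inVars_iff, inVars_iff] at h
  exact ⟨⟨⟨pw_vars n _, h.1⟩, aff_vars n K _ _ n le_rfl⟩, ⟨pw_vars n _, h.2⟩⟩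

theorem smooth_n_le : n ≤ (φ.smooth n q K a).code.length := by
  have h1 := toks_le_code (φ.smooth n q K a)
  refine le_trans ?_ h1
  have hpos : 0 < φ.atoms.length := atoms_pos φ
  have hpos' : 0 < (φ.smooth n q K a).atoms.length := by rw [smooth_len]; exact hpos
  have h2 := smooth_get φ n q K a ⟨0, hpos⟩
  have hmem : (φ.smooth n q K a).atoms.get (Fin.cast (smooth_len φ n q K a).symm ⟨0, hpos⟩) ∈
    (φ.smooth n q K a).atoms := List.get_mem _ _
  rw [h2] at hmem
  have h3 := (atoms_tsz _ _ hmem).1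
  have h4 : n ≤ tsz (sP φ n K a 0) := aff_size K _ _ n
  simp only [pat, tsz_add] at h3
  omega

theorem bad_of_not_regl (x : ℕ → ℝ) (hx : ∀ i < n, |x i| ≤ 1)
    (h : ¬ Regl (φ.smooth n q K a) n x) : BadA φ n q K a := by
  unfold Regl at h
  push Not at h
  obtain ⟨w, h1, h2, ⟨i, h3⟩, h4⟩ := h
  refine ⟨x, hx, fun l => w (Fin.cast (smooth_len φ n q K a).symm l), fun l => h1 _, ?_,
    ⟨Fin.cast (smooth_len φ n q K a) i, ?_⟩, ?_⟩
  · intro l hl
    have := h2 _ hl
    rwa [smooth_av] at this
  · exact h3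
  · intro j
    have h5 := h4 j j.2
    have h6 : ∑ l : Fin φ.atoms.length, w (Fin.cast (smooth_len φ n q K a).symm l) *
        pg φ n q K a l j x = ∑ i, w i * aD x (ev1 j) ((φ.smooth n q K a).atoms.get i) := by
      refine Fintype.sum_equiv (finCongr (smooth_len φ n q K a).symm) _ _ fun l => ?_
      rw [← smooth_aD]
      rfl
    rw [h6]
    exact h5

open Polynomial in
/-- the length polynomial -/
noncomputable def clenP : Polynomial ℕ :=
  (X + 1) * (C 2 * (X * (C 2 * (C 50 * X + C 44) + C 2)) + C 2)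

theorem clenP_eval (N : ℕ) : clenP.eval N = clen N := by
  simp only [clenP, clen, pL, Polynomial.eval_add, Polynomial.eval_mul, Polynomial.eval_X,
    Polynomial.eval_C, Polynomial.eval_one]

theorem smoothed_NP : ∃ (V : List Bool × List Bool → Bool) (p : Polynomial ℕ),
    Nonempty (Turing.TM2ComputableInPolyTime encPair Computability.encodeBool V) ∧
    (∀ u w, V (u, w) = true → ∃ φ : Form, u = φ.code ∧ ∃ x : ℕ → ℝ, φ.Holds x) ∧
    ∀ (φ : Form) (n q e K : ℕ), φ.InVars n →
      e + (q + 5 * φ.toks.length + n + 10) * (n + φ.toks.length) ≤ K →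
      2 ^ e * {a : Fin φ.atoms.length × Fin (n + 1) → Fin (2 ^ K) |
        (∃ x : ℕ → ℝ, (∀ i < n, |x i| ≤ 1) ∧ (φ.smooth n q K a).Holds x) ∧
        ¬ ∃ w : List Bool, w.length ≤ p.eval (φ.smooth n q K a).code.length ∧
          V ((φ.smooth n q K a).code, w) = true}.ncard ≤
      (2 ^ K) ^ (φ.atoms.length * (n + 1)) := by
  refine ⟨fun p => ver2 p.1 p.2, clenP, ver2_poly, fun u w h => ver2_sound u w h, ?_⟩
  intro φ n q e K hv hK
  refine le_trans (Nat.mul_le_mul_left _ (Set.ncard_le_ncard ?_ (Set.toFinite _)))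
    (bad_count φ n q K (fun b hb => by
      have := hv b hb; rwa [inVars_iff, inVars_iff] at this) e hK)
  rintro a ⟨⟨x, hx, hh⟩, hno⟩
  by_contra hgood
  apply hno
  have hreg : Regl (φ.smooth n q K a) n x := by
    by_contra hr
    exact hgood (bad_of_not_regl φ n q K a x hx hr)
  obtain ⟨w, h1, h2⟩ := ver2_complete (φ.smooth n q K a) n (smooth_n_le φ n q K a)
    (smooth_vars φ n q K a hv) x hx hreg hh
  exact ⟨w, by rw [clenP_eval]; exact h1, h2⟩

end Pool.Agent.Helper54.ETR
end
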