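import Pool.Agent.Helper54.Sm.Count
import Pool.Agent.Helper54.Sm.Compl

open Finset

namespace Pool.Agent.Helper54.ETR

section

variable (φ : Form) (n q K : ℕ)

abbrev Arr : Type := Fin φ.atoms.length × Fin (n + 1) → Fin (2 ^ K)

/-- perturbed value -/
noncomputable def pv (a : Arr φ n K) (l : Fin φ.atoms.length) (x : ℕ → ℝ) : ℝ :=
  2 ^ (K + q) * av x (φ.atoms.get l) + (∑ j : Fin n, ((a (l, j.castSucc) : ℕ) : ℝ) * x j) +
    ((a (l, Fin.last n) : ℕ) : ℝ)

/-- perturbed gradient -/
noncomputable def pg (a : Arr φ n K) (l : Fin φ.atoms.length) (j : Fin n) (x : ℕ → ℝ) : ℝ :=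
  2 ^ (K + q) * aD x (ev1 j) (φ.atoms.get l) + ((a (l, j.castSucc) : ℕ) : ℝ)

/-- the bad arrays -/
def BadA (a : Arr φ n K) : Prop :=
  ∃ x : ℕ → ℝ, (∀ i < n, |x i| ≤ 1) ∧ ∃ w : Fin φ.atoms.length → ℝ, (∀ l, |w l| ≤ 1) ∧
    (∀ l, w l ≠ 0 → |pv φ n q K a l x| ≤ 1) ∧ (∃ l, w l = 1) ∧
    ∀ j, |∑ l, w l * pg φ n q K a l j x| ≤ 1

/-- fineness of the grid -/
def gH : ℕ := K + (q + 4 * φ.toks.length + φ.atoms.length + n + 3)

/-- grid point -/
noncomputable def gx (z : Fin n → ℤ) : ℕ → ℝ := fun i =>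
  if h : i < n then (z ⟨i, h⟩ : ℝ) / 2 ^ gH φ n q K else 0

/-- the event attached to a grid point -/
def Ev (T : Finset (Fin φ.atoms.length)) (z : Fin n → ℤ) (ω : Fin φ.atoms.length → ℤ)
    (a : Arr φ n K) : Prop :=
  (∀ j : Fin n, |∑ l, ((ω l : ℝ) / 2 ^ gH φ n q K) * pg φ n q K a l j (gx φ n q K z)| ≤ 2) ∧
    ∀ l ∈ T, |pv φ n q K a l (gx φ n q K z)| ≤ 2

theorem Ev_count (T : Finset (Fin φ.atoms.length)) (l0 : Fin φ.atoms.length) (z : Fin n → ℤ)
    (ω : Fin φ.atoms.length → ℤ) (hω : ω l0 = 2 ^ gH φ n q K) :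
    {a | Ev φ n q K T z ω a}.ncard * (2 ^ K) ^ (n + T.card) ≤
      5 ^ (n + T.card) * (2 ^ K) ^ (φ.atoms.length * (n + 1)) := by
  set x := gx φ n q K z with hx
  set H := gH φ n q K with hH
  set Q1 : Fin n → Arr φ n K → Prop := fun j a =>
    |∑ l, ((ω l : ℝ) / 2 ^ H) * pg φ n q K a l j x| ≤ 2 with hQ1
  set Q2 : Fin φ.atoms.length → Arr φ n K → Prop := fun l a =>
    |pv φ n q K a l x| ≤ 2 with hQ2
  have e1 : (ω l0 : ℝ) / 2 ^ H = 1 := by
    rw [hω]; push_cast; exact div_self (by positivity)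
  have hne : ∀ (j : Fin n), (j.castSucc : Fin (n + 1)) ≠ Fin.last n := fun j =>
    (Fin.castSucc_lt_last j).ne
  have t1 := Count.tests' (C := Fin φ.atoms.length × Fin (n + 1)) (V := Fin (2 ^ K))
    (fun j : Fin n => ((l0, j.castSucc) : Fin φ.atoms.length × Fin (n + 1))) univ
    (fun _ => True) Q1 (by intros; rfl)
    (by
      intro i _ j _ hij a v
      simp only [hQ1, pg]
      have : ∀ l, Function.update a (l0, i.castSucc) v (l, j.castSucc) = a (l, j.castSucc) := by
        intro l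
        apply Function.update_of_ne
        intro h
        have := congrArg Prod.snd h
        exact hij (Fin.castSucc_injective _ this).symm
      simp only [this]) 5
    (by
      intro j _ a
      set y : ℝ := (∑ l ∈ univ.erase l0, ((ω l : ℝ) / 2 ^ H) * pg φ n q K a l j x) +
        2 ^ (K + q) * aD x (ev1 j) (φ.atoms.get l0) with hy
      refine le_trans (Set.ncard_le_ncard ?_) (Count.window' (2 ^ K) y)
      intro v hv
      simp only [Set.mem_ofPred_eq, hQ1] at hv ⊢
      rw [← Finset.add_sum_erase _ _ (Finset.mem_univ l0), e1, one_mul] at hv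
      have h3 : ∑ l ∈ univ.erase l0, ((ω l : ℝ) / 2 ^ H) *
          pg φ n q K (Function.update a (l0, j.castSucc) v) l j x =
          ∑ l ∈ univ.erase l0, ((ω l : ℝ) / 2 ^ H) * pg φ n q K a l j x := by
        refine Finset.sum_congr rfl fun l hl => ?_
        have : Function.update a (l0, j.castSucc) v (l, j.castSucc) = a (l, j.castSucc) := by
          apply Function.update_of_ne
          intro h
          exact Finset.ne_of_mem_erase hl (congrArg Prod.fst h)
        simp only [pg, this]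
      rw [h3] at hv
      simp only [pg, Function.update_self] at hv
      have h4 : y + ((v : ℕ) : ℝ) = 2 ^ (K + q) * aD x (ev1 ↑j) (φ.atoms.get l0) + ((v : ℕ) : ℝ) +
          ∑ l ∈ univ.erase l0, ((ω l : ℝ) / 2 ^ H) * pg φ n q K a l j x := by
        rw [hy]; ring
      rw [h4]
      simp only [pg]
      exact hv)
  have t2 := Count.tests' (C := Fin φ.atoms.length × Fin (n + 1)) (V := Fin (2 ^ K))
    (fun l : Fin φ.atoms.length => ((l, Fin.last n) : Fin φ.atoms.length × Fin (n + 1))) T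
    (fun a => ∀ j ∈ (univ : Finset (Fin n)), Q1 j a) Q2
    (by
      intro i _ a v
      refine forall₂_congr fun j _ => ?_
      simp only [hQ1, pg]
      have : ∀ l, Function.update a (i, Fin.last n) v (l, j.castSucc) = a (l, j.castSucc) := by
        intro l
        apply Function.update_of_ne
        intro h
        exact hne j (congrArg Prod.snd h)
      simp only [this])
    (by
      intro i _ j _ hij a v
      simp only [hQ2, pv]
      have h1 : ∀ s, Function.update a (i, Fin.last n) v (j, s) = a (j, s) := by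
        intro s
        apply Function.update_of_ne
        intro h
        exact hij (congrArg Prod.fst h).symm
      simp only [h1]) 5
    (by
      intro l _ a
      set y : ℝ := 2 ^ (K + q) * av x (φ.atoms.get l) +
        (∑ j : Fin n, ((a (l, j.castSucc) : ℕ) : ℝ) * x j) with hy
      refine le_trans (Set.ncard_le_ncard ?_) (Count.window' (2 ^ K) y)
      intro v hv
      simp only [Set.mem_ofPred_eq, hQ2, pv, Function.update_self] at hv ⊢
      have h3 : ∀ j : Fin n, Function.update a (l, Fin.last n) v (l, j.castSucc) =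
          a (l, j.castSucc) := by
        intro j
        apply Function.update_of_ne
        intro h
        exact hne j (congrArg Prod.snd h)
      simp only [h3] at hv
      exact hv)
  have hcardV : Fintype.card (Fin (2 ^ K)) = 2 ^ K := Fintype.card_fin _
  have htot : {_a : Arr φ n K | True}.ncard = (2 ^ K) ^ (φ.atoms.length * (n + 1)) := by
    rw [Count.nc, Finset.filter_true, Finset.card_univ, Fintype.card_fun, hcardV,
      Fintype.card_prod, Fintype.card_fin, Fintype.card_fin]
  have hset1 : {a : Arr φ n K | True ∧ ∀ j ∈ (univ : Finset (Fin n)), Q1 j a} =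
      {a : Arr φ n K | ∀ j ∈ (univ : Finset (Fin n)), Q1 j a} := by
    ext a; simp
  have hset2 : {a | Ev φ n q K T z ω a} = {a : Arr φ n K |
      (∀ j ∈ (univ : Finset (Fin n)), Q1 j a) ∧ ∀ l ∈ T, Q2 l a} := by
    ext a
    simp only [Set.mem_ofPred_eq, Finset.mem_univ, true_implies, Ev, hQ1, hQ2, hx, hH]
  rw [hset1, htot, hcardV, Finset.card_univ, Fintype.card_fin] at t1
  rw [hcardV] at t2
  rw [hset2, pow_add, pow_add]
  calc _ = ({a : Arr φ n K | (∀ j ∈ (univ : Finset (Fin n)), Q1 j a) ∧ ∀ l ∈ T, Q2 l a}.ncard *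
        (2 ^ K) ^ T.card) * (2 ^ K) ^ n := by ring
    _ ≤ (5 ^ T.card * {a : Arr φ n K | ∀ j ∈ (univ : Finset (Fin n)), Q1 j a}.ncard) *
        (2 ^ K) ^ n := Nat.mul_le_mul_right _ t2
    _ = 5 ^ T.card * ({a : Arr φ n K | ∀ j ∈ (univ : Finset (Fin n)), Q1 j a}.ncard *
        (2 ^ K) ^ n) := by ring
    _ ≤ 5 ^ T.card * (5 ^ n * (2 ^ K) ^ (φ.atoms.length * (n + 1))) :=
      Nat.mul_le_mul_left _ t1
    _ = _ := by ring

end

end Pool.Agent.Helper54.ETR
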